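import Pool.Agent.H36.Slalom.Defs

/-!
# Slalom numbers and Katetov numbers: basic lemmas
-/

set_option autoImplicit false

noncomputable section

namespace Pool.Agent.H36.Slalom

open Cardinal

/-! ### `least` -/

theorem least_empty {S : Set Cardinal.{0}} (h : ¬ S.Nonempty) : least S = ⊤ := by
  unfold least
  rw [if_neg h]

theorem least_eq {S : Set Cardinal.{0}} (h : S.Nonempty) :
    least S = ((sInf S : Cardinal.{0}) : WithTop Cardinal.{0}) := by
  unfold least
  rw [if_pos h]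

theorem least_le {S : Set Cardinal.{0}} {κ : Cardinal.{0}} (h : κ ∈ S) :
    least S ≤ (κ : WithTop Cardinal.{0}) := by
  rw [least_eq ⟨κ, h⟩]
  exact WithTop.coe_le_coe.2 (csInf_le' h)

theorem le_least {S : Set Cardinal.{0}} {κ : Cardinal.{0}} (h : ∀ μ ∈ S, κ ≤ μ) :
    (κ : WithTop Cardinal.{0}) ≤ least S := by
  by_cases hS : S.Nonempty
  · rw [least_eq hS]
    exact WithTop.coe_le_coe.2 (le_csInf hS h)
  · rw [least_empty hS]
    exact le_top

theorem lt_least {S : Set Cardinal.{0}} {κ : Cardinal.{0}} (h : ∀ μ ∈ S, κ < μ) :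
    (κ : WithTop Cardinal.{0}) < least S := by
  by_cases hS : S.Nonempty
  · rw [least_eq hS]
    exact WithTop.coe_lt_coe.2 (h _ (csInf_mem hS))
  · rw [least_empty hS]
    exact WithTop.coe_lt_top κ

/-! ### Ideals -/

variable {α β : Type}

theorem IdealOn.mono {J : IdealOn α} {s t : Set α} (ht : t ∈ J) (h : s ⊆ t) : s ∈ J :=
  J.subset_mem t ht s h

theorem IdealOn.union {J : IdealOn α} {s t : Set α} (hs : s ∈ J) (ht : t ∈ J) : s ∪ t ∈ J :=
  J.union_mem s hs t ht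

theorem IdealOn.compl_notMem {J : IdealOn α} {s : Set α} (hs : s ∈ J) : sᶜ ∉ J := fun h =>
  J.univ_notMem (by
    rw [← Set.union_compl_self s]
    exact J.union_mem s hs _ h)

theorem IdealOn.notMem_of_eq_univ {J : IdealOn α} {s : Set α} (hs : ∀ a, a ∈ s) : s ∉ J := by
  rw [Set.eq_univ_of_forall hs]
  exact J.univ_notMem

@[ext]
theorem IdealOn.ext {J₀ J₁ : IdealOn α} (h : J₀.sets = J₁.sets) : J₀ = J₁ := by
  cases J₀
  cases J₁
  cases h
  rfl

/-- The ideal moved by a bijection. -/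
def IdealOn.map (e : α ≃ β) (J : IdealOn α) : IdealOn β where
  sets := {s | e ⁻¹' s ∈ J.sets}
  finite_mem := fun _ hs => J.finite_mem _ (hs.preimage e.injective.injOn)
  union_mem := fun _ hs _ ht => J.union_mem _ hs _ ht
  subset_mem := fun _ ht _ hst => J.subset_mem _ ht _ fun _ h => hst h
  univ_notMem := fun h => J.univ_notMem h

theorem IdealOn.mem_map {e : α ≃ β} {J : IdealOn α} {s : Set β} :
    s ∈ J.map e ↔ e ⁻¹' s ∈ J := Iff.rfl

theorem IdealOn.map_inter (e : α ≃ β) (J₀ J₁ : IdealOn α) :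
    (J₀.map e).inter (J₁.map e) = (J₀.inter J₁).map e := rfl

theorem kLe_map {A : Set (Set ℕ)} {e : α ≃ β} {J : IdealOn α} : KLe A (J.map e) ↔ KLe A J := by
  constructor
  · rintro ⟨f, hf⟩
    exact ⟨f ∘ e, fun a ha => hf a ha⟩
  · rintro ⟨f, hf⟩
    refine ⟨f ∘ e.symm, fun a ha => ?_⟩
    rw [IdealOn.mem_map, ← Set.preimage_comp, Function.comp_assoc, Equiv.symm_comp_self,
      Function.comp_id]
    exact hf a ha

theorem kLe_sum {A : Set (Set ℕ)} {J₀ J₁ : IdealOn α} :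
    KLe A (J₀.sum J₁) ↔ KLe A J₀ ∧ KLe A J₁ := by
  constructor
  · rintro ⟨f, hf⟩
    exact ⟨⟨fun n => f (false, n), fun a ha => (hf a ha).1⟩,
      ⟨fun n => f (true, n), fun a ha => (hf a ha).2⟩⟩
  · rintro ⟨⟨f, hf⟩, ⟨g, hg⟩⟩
    exact ⟨fun p => bif p.1 then g p.2 else f p.2, fun a ha => ⟨hf a ha, hg a ha⟩⟩

theorem kLe_of_inter {A : Set (Set ℕ)} {J₀ J₁ : IdealOn α} (h : KLe A (J₀.inter J₁)) :
    KLe A J₀ ∧ KLe A J₁ := by
  obtain ⟨f, hf⟩ := h
  exact ⟨⟨f, fun a ha => (hf a ha).1⟩, ⟨f, fun a ha => (hf a ha).2⟩⟩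

theorem pK_congr {I : IdealOn ℕ} {J : IdealOn α} {J' : IdealOn β}
    (h : ∀ A, KLe A J ↔ KLe A J') : pK I J = pK I J' := by
  unfold pK
  simp only [h]

theorem pKStar_congr {J : IdealOn α} {J' : IdealOn β}
    (h : ∀ A, KLe A J ↔ KLe A J') : pKStar J = pKStar J' := by
  unfold pKStar
  simp only [h]

/-! ### The pair of ideals on `γ × γ` -/

variable {γ : Type}

/-- The ideal of all `A ⊆ γ × γ` whose projection to the first coordinate is in `M`. -/
def projIdeal (M : IdealOn γ) : IdealOn (γ × γ) where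
  sets := {A | {n | ∃ m, (n, m) ∈ A} ∈ M.sets}
  finite_mem := fun s hs => M.finite_mem _ ((hs.image Prod.fst).subset (by
    rintro n ⟨m, hm⟩
    exact ⟨(n, m), hm, rfl⟩))
  union_mem := fun s hs t ht => M.subset_mem _ (M.union_mem _ hs _ ht) _ (by
    rintro n ⟨m, hm | hm⟩
    · exact Or.inl ⟨m, hm⟩
    · exact Or.inr ⟨m, hm⟩)
  subset_mem := fun t ht s hst => M.subset_mem _ ht _ (by
    rintro n ⟨m, hm⟩
    exact ⟨m, hst hm⟩)
  univ_notMem := fun h => M.univ_notMem (M.subset_mem _ h _ fun n _ => ⟨n, trivial⟩)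

/-- The ideal of all `A ⊆ γ × γ` all of whose vertical sections are in `M`. -/
def secIdeal [Nonempty γ] (M : IdealOn γ) : IdealOn (γ × γ) where
  sets := {A | ∀ n, {m | (n, m) ∈ A} ∈ M.sets}
  finite_mem := fun s hs n => M.finite_mem _ (hs.preimage fun _ _ _ _ h => (Prod.mk.inj h).2)
  union_mem := fun s hs t ht n => M.union_mem _ (hs n) _ (ht n)
  subset_mem := fun t ht s hst n => M.subset_mem _ (ht n) _ fun _ h => hst h
  univ_notMem := fun h => M.univ_notMem (by simpa using h (Classical.arbitrary γ))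

theorem mem_projIdeal {M : IdealOn γ} {A : Set (γ × γ)} :
    A ∈ projIdeal M ↔ {n | ∃ m, (n, m) ∈ A} ∈ M := Iff.rfl

theorem mem_secIdeal [Nonempty γ] {M : IdealOn γ} {A : Set (γ × γ)} :
    A ∈ secIdeal M ↔ ∀ n, {m | (n, m) ∈ A} ∈ M := Iff.rfl

theorem kLe_projIdeal {M : IdealOn γ} {A : Set (Set ℕ)} (h : KLe A M) : KLe A (projIdeal M) := by
  obtain ⟨f, hf⟩ := h
  refine ⟨fun p => f p.1, fun a ha => ?_⟩
  exact M.subset_mem _ (hf a ha) _ (by
    rintro n ⟨m, hm⟩
    exact hm)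

theorem kLe_secIdeal [Nonempty γ] {M : IdealOn γ} {A : Set (Set ℕ)} (h : KLe A M) :
    KLe A (secIdeal M) := by
  obtain ⟨f, hf⟩ := h
  exact ⟨fun p => f p.2, fun a ha n => hf a ha⟩

/-- The key property of the pair: if `A ≤_K J₀ ∩ J₁` then there are sets `R c` of natural numbers
such that (by the second ideal) each meets the complement of every member of `A`, and every
complement of a member of `A` includes one of them. -/
theorem exists_pi [Nonempty γ] {M : IdealOn γ} {A : Set (Set ℕ)}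
    (h : KLe A ((projIdeal M).inter (secIdeal M))) :
    ∃ R : γ → Set ℕ, (∀ a ∈ A, ∀ c, (R c ∩ aᶜ).Nonempty) ∧ ∀ a ∈ A, ∃ c, R c ⊆ aᶜ := by
  obtain ⟨f, hf⟩ := h
  refine ⟨fun c => Set.range fun m => f (c, m), fun a ha c => ?_, fun a ha => ?_⟩
  · by_contra hne
    refine M.univ_notMem (M.subset_mem _ ((hf a ha).2 c) _ fun m _ => ?_)
    by_contra hm
    exact hne ⟨f (c, m), ⟨m, rfl⟩, hm⟩
  · by_contra hne
    push Not at hne
    refine M.univ_notMem (M.subset_mem _ (hf a ha).1 _ fun c _ => ?_)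
    have h1 := hne c
    rw [Set.not_subset] at h1
    obtain ⟨_, ⟨m, rfl⟩, hm⟩ := h1
    exact ⟨m, by simpa using hm⟩

end Pool.Agent.H36.Slalom
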