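import Pool.Agent.H36.Slalom.Viol

/-!
# Construction of a generic system

From a Freese-Nation function with values of size less than `𝔱`, `cov(M) = 2 ^ ω` and
`2 ^ 𝔱 = 2 ^ ω` we construct a system in which every small family of slaloms is evaded.
-/

set_option autoImplicit false

noncomputable section

namespace Pool.Agent.H36.Slalom

open Cardinal

/-! ### Cardinal arithmetic -/

theorem mk_union_le_of {α : Type} {κ : Cardinal.{0}} (hκ : ℵ₀ ≤ κ) {A B : Set α} (hA : #A ≤ κ)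
    (hB : #B ≤ κ) : #(A ∪ B : Set α) ≤ κ :=
  (mk_union_le A B).trans (add_le_of_le hκ hA hB)

theorem mk_biUnion_le_of {ι α : Type} {κ : Cardinal.{0}} (hκ : ℵ₀ ≤ κ) {s : Set ι} (hs : #s ≤ κ)
    {A : ι → Set α} (hA : ∀ i ∈ s, #(A i) ≤ κ) : #(⋃ i ∈ s, A i : Set α) ≤ κ := by
  rw [Set.biUnion_eq_iUnion]
  have h : ∀ i : s, #(A i.1) ≤ κ := fun i => hA i.1 i.2
  refine mk_iUnion_le_sum_mk.trans ?_
  refine (sum_le_sum _ (fun _ => κ) h).trans ?_
  rw [sum_const, lift_id, lift_id]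
  exact mul_le_of_le hκ hs le_rfl

theorem mk_image_le_of {ι α : Type} {κ : Cardinal.{0}} {s : Set ι} (hs : #s ≤ κ)
    (g : ι → α) : #(g '' s) ≤ κ := mk_image_le.trans hs

/-! ### The closure -/

/-- One step of the closure. -/
def cstep (f : Set X3 → Set (Set X3)) (N : Set (Set X3)) : Set (Set X3) :=
  N ∪ ((⋃ A ∈ N, f A) ∪ ((⋃ A ∈ N, (fun B => A ∩ B) '' N) ∪
    (compl '' N ∪ (exV '' N ∪ exW '' N))))

/-- The closure of a family of sets under intersections, complements, projections and `f`. -/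
def cl (f : Set X3 → Set (Set X3)) (N : Set (Set X3)) : Set (Set X3) :=
  ⋃ n : ℕ, (cstep f)^[n] N

variable {f : Set X3 → Set (Set X3)} {N N' : Set (Set X3)}

theorem subset_cstep : N ⊆ cstep f N := Set.subset_union_left

theorem cstep_mono (h : N ⊆ N') : cstep f N ⊆ cstep f N' := by
  refine Set.union_subset_union h (Set.union_subset_union (Set.biUnion_mono h fun _ _ => le_rfl)
    (Set.union_subset_union ?_ (Set.union_subset_union (Set.image_mono h)
      (Set.union_subset_union (Set.image_mono h) (Set.image_mono h)))))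
  exact Set.biUnion_mono h fun A _ => Set.image_mono h

theorem iterate_mono (h : N ⊆ N') (n : ℕ) : (cstep f)^[n] N ⊆ (cstep f)^[n] N' := by
  induction n with
  | zero => exact h
  | succ n ih =>
    rw [Function.iterate_succ_apply', Function.iterate_succ_apply']
    exact cstep_mono ih

theorem iterate_subset {m n : ℕ} (h : m ≤ n) : (cstep f)^[m] N ⊆ (cstep f)^[n] N := by
  induction n, h using Nat.le_induction with
  | base => exact le_rfl
  | succ n _ ih =>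
    rw [Function.iterate_succ_apply']
    exact ih.trans subset_cstep

theorem cl_mono (h : N ⊆ N') : cl f N ⊆ cl f N' :=
  Set.iUnion_mono fun n => iterate_mono h n

theorem subset_cl : N ⊆ cl f N := fun _ hx => Set.mem_iUnion.2 ⟨0, hx⟩

theorem cstep_subset_cl {n : ℕ} : cstep f ((cstep f)^[n] N) ⊆ cl f N := by
  intro x hx
  refine Set.mem_iUnion.2 ⟨n + 1, ?_⟩
  rw [Function.iterate_succ_apply']
  exact hx

theorem cl_f {A : Set X3} (hA : A ∈ cl f N) : f A ⊆ cl f N := by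
  obtain ⟨n, hn⟩ := Set.mem_iUnion.1 hA
  intro x hx
  exact cstep_subset_cl (Or.inr (Or.inl (Set.mem_biUnion hn hx)))

theorem cl_inter {A B : Set X3} (hA : A ∈ cl f N) (hB : B ∈ cl f N) : A ∩ B ∈ cl f N := by
  obtain ⟨n, hn⟩ := Set.mem_iUnion.1 hA
  obtain ⟨m, hm⟩ := Set.mem_iUnion.1 hB
  have h1 := iterate_subset (le_max_left n m) hn
  have h2 := iterate_subset (le_max_right n m) hm
  exact cstep_subset_cl (Or.inr (Or.inr (Or.inl (Set.mem_biUnion h1 ⟨B, h2, rfl⟩))))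

theorem cl_compl {A : Set X3} (hA : A ∈ cl f N) : Aᶜ ∈ cl f N := by
  obtain ⟨n, hn⟩ := Set.mem_iUnion.1 hA
  exact cstep_subset_cl (Or.inr (Or.inr (Or.inr (Or.inl ⟨A, hn, rfl⟩))))

theorem cl_exV {A : Set X3} (hA : A ∈ cl f N) : exV A ∈ cl f N := by
  obtain ⟨n, hn⟩ := Set.mem_iUnion.1 hA
  exact cstep_subset_cl (Or.inr (Or.inr (Or.inr (Or.inr (Or.inl ⟨A, hn, rfl⟩)))))

theorem cl_exW {A : Set X3} (hA : A ∈ cl f N) : exW A ∈ cl f N := by
  obtain ⟨n, hn⟩ := Set.mem_iUnion.1 hA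
  exact cstep_subset_cl (Or.inr (Or.inr (Or.inr (Or.inr (Or.inr ⟨A, hn, rfl⟩)))))

theorem mk_cl_le {κ : Cardinal.{0}} (hκ : ℵ₀ ≤ κ) (hf : ∀ A, #(f A) ≤ κ) (hN : #N ≤ κ) :
    #(cl f N) ≤ κ := by
  have h : ∀ n, #((cstep f)^[n] N) ≤ κ := by
    intro n
    induction n with
    | zero => exact hN
    | succ n ih =>
      rw [Function.iterate_succ_apply']
      refine mk_union_le_of hκ ih (mk_union_le_of hκ (mk_biUnion_le_of hκ ih fun A _ => hf A)
        (mk_union_le_of hκ ?_ (mk_union_le_of hκ (mk_image_le_of ih _)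
          (mk_union_le_of hκ (mk_image_le_of ih _) (mk_image_le_of ih _)))))
      exact mk_biUnion_le_of hκ ih fun A _ => mk_image_le_of ih _
  refine mk_iUnion_le_sum_mk.trans ?_
  refine (sum_le_sum _ (fun _ => κ) h).trans ?_
  rw [sum_const, lift_id, lift_id, mk_nat]
  exact mul_le_of_le hκ hκ le_rfl

/-! ### Generic functions -/

/-- The covering number `cov(M)` of the meagre ideal of the Baire space. -/
def covM : Cardinal.{0} :=
  sInf {κ | ∃ F : Set (Set (ℕ → ℕ)), (∀ N ∈ F, IsMeagre N) ∧ ⋃₀ F = Set.univ ∧ #F = κ}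

theorem isMeagre_avoid {P : Set X3} (hP : {c | ∃ v w, (c, v, w) ∈ P}.Infinite) :
    IsMeagre {z : ℕ → ℕ | ∀ c v, (c, v, z c) ∉ P} := by
  refine IsNowhereDense.isMeagre ?_
  have hclosed : IsClosed {z : ℕ → ℕ | ∀ c v, (c, v, z c) ∉ P} := by
    have h1 : {z : ℕ → ℕ | ∀ c v, (c, v, z c) ∉ P} =
        ⋂ c, ⋂ v, (fun z : ℕ → ℕ => z c) ⁻¹' {w | (c, v, w) ∉ P} := by
      ext z
      simp
    rw [h1]
    exact isClosed_iInter fun c => isClosed_iInter fun v =>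
      (isClosed_discrete _).preimage (continuous_apply c)
  rw [hclosed.isNowhereDense_iff, interior_eq_empty_iff_dense_compl]
  intro z₀
  rw [mem_closure_iff]
  intro U hU hz₀
  obtain ⟨I, u, hu, hsub⟩ := isOpen_pi_iff.1 hU z₀ hz₀
  obtain ⟨c, ⟨v, w, hcvw⟩, hcI⟩ := (hP.sdiff I.finite_toSet).nonempty
  refine ⟨Function.update z₀ c w, hsub fun i hi => ?_, fun h => ?_⟩
  · have hne : i ≠ c := fun h => hcI (h ▸ hi)
    rw [Function.update_of_ne hne]
    exact (hu i hi).2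
  · refine h c v ?_
    rw [Function.update_self]
    exact hcvw

theorem exists_generic {M : Set (Set X3)} (hM : #M < covM) :
    ∃ z : ℕ → ℕ, ∀ P ∈ M, {c | ∃ v w, (c, v, w) ∈ P}.Infinite → ∃ c v, (c, v, z c) ∈ P := by
  set F : Set (Set (ℕ → ℕ)) := {K | ∃ P ∈ M, {c | ∃ v w, (c, v, w) ∈ P}.Infinite ∧
    K = {z : ℕ → ℕ | ∀ c v, (c, v, z c) ∉ P}} with hF
  have h1 : #F ≤ #M := by
    refine (mk_le_mk_of_subset ?_).trans
      (mk_image_le (f := fun P : Set X3 => {z : ℕ → ℕ | ∀ c v, (c, v, z c) ∉ P}) (s := M))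
    rintro K ⟨P, hP, _, rfl⟩
    exact ⟨P, hP, rfl⟩
  have h2 : ⋃₀ F ≠ Set.univ := by
    intro h
    have h3 : covM ≤ #F := csInf_le' ⟨F, by
      rintro K ⟨P, _, hinf, rfl⟩
      exact isMeagre_avoid hinf, h, rfl⟩
    exact absurd (h3.trans h1) (not_le.2 hM)
  obtain ⟨z, hz⟩ := (Set.ne_univ_iff_exists_notMem _).1 h2
  refine ⟨z, fun P hP hinf => ?_⟩
  by_contra hne
  push Not at hne
  exact hz ⟨_, ⟨P, hP, hinf, rfl⟩, hne⟩

open Classical in
/-- A function which is generic over `M`, if there is one. -/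
def pick (M : Set (Set X3)) : ℕ → ℕ :=
  if h : ∃ z : ℕ → ℕ, ∀ P ∈ M, {c | ∃ v w, (c, v, w) ∈ P}.Infinite → ∃ c v, (c, v, z c) ∈ P
  then h.choose else 0

theorem pick_spec {M : Set (Set X3)} (hM : #M < covM) : ∀ P ∈ M,
    {c | ∃ v w, (c, v, w) ∈ P}.Infinite → ∃ c v, (c, v, pick M c) ∈ P := by
  have h := exists_generic hM
  unfold pick
  rw [dif_pos h]
  exact h.choose_spec

/-! ### The recursion -/

variable {Λ : Type} [LinearOrder Λ]

/-- The generators of the model of stage `ξ`. -/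
def base (T : Set (Set ℕ)) (S : Λ → Set (ℕ → Set ℕ)) (z : Λ → ℕ → ℕ) (ξ : Λ) : Set (Set X3) :=
  hatT '' T ∪ ((Set.range fun n : ℕ => cylC (Set.Iio n)) ∪
    ((⋃ η ∈ Set.Iio ξ, (fun s : ℕ → Set ℕ => cylC {c | z η c ∈ s c}) '' S η) ∪
      (⋃ η ∈ Set.Iic ξ, hatS '' S η)))

theorem base_congr {T : Set (Set ℕ)} {S : Λ → Set (ℕ → Set ℕ)} {z z' : Λ → ℕ → ℕ} {ξ : Λ}
    (h : ∀ η < ξ, z η = z' η) : base T S z ξ = base T S z' ξ := by
  unfold base
  congr 3
  refine Set.iUnion₂_congr fun η hη => ?_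
  rw [h η hη]

theorem base_mono {T : Set (Set ℕ)} {S : Λ → Set (ℕ → Set ℕ)} {z : Λ → ℕ → ℕ} {η ξ : Λ}
    (h : η ≤ ξ) : base T S z η ⊆ base T S z ξ := by
  refine Set.union_subset_union le_rfl (Set.union_subset_union le_rfl (Set.union_subset_union ?_ ?_))
  · exact Set.biUnion_mono (Set.Iio_subset_Iio h) fun _ _ => le_rfl
  · exact Set.biUnion_mono (Set.Iic_subset_Iic.2 h) fun _ _ => le_rfl

theorem mk_base_le {κ : Cardinal.{0}} (hκ : ℵ₀ ≤ κ) {T : Set (Set ℕ)} (hT : #T ≤ κ)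
    {S : Λ → Set (ℕ → Set ℕ)} (hS : ∀ ξ, #(S ξ) ≤ κ) {z : Λ → ℕ → ℕ} {ξ : Λ}
    (hξ : #(Set.Iio ξ) ≤ κ) : #(base T S z ξ) ≤ κ := by
  refine mk_union_le_of hκ (mk_image_le_of hT _) (mk_union_le_of hκ ?_ (mk_union_le_of hκ ?_ ?_))
  · refine mk_range_le.trans ?_
    rw [mk_nat]
    exact hκ
  · exact mk_biUnion_le_of hκ hξ fun η _ => mk_image_le_of (hS η) _
  · refine mk_biUnion_le_of hκ ?_ fun η _ => mk_image_le_of (hS η) _
    rw [← Set.Iio_union_right]
    refine mk_union_le_of hκ hξ ?_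
    rw [mk_singleton]
    exact one_le_aleph0.trans hκ

/-- The generic functions. -/
def zfun [WellFoundedLT Λ] (T : Set (Set ℕ)) (f : Set X3 → Set (Set X3))
    (S : Λ → Set (ℕ → Set ℕ)) : Λ → ℕ → ℕ :=
  (wellFounded_lt (α := Λ)).fix fun ξ ih =>
    pick (cl f (base T S (fun η => if h : η < ξ then ih η h else 0) ξ))

theorem zfun_eq [WellFoundedLT Λ] (T : Set (Set ℕ)) (f : Set X3 → Set (Set X3))
    (S : Λ → Set (ℕ → Set ℕ)) (ξ : Λ) :
    zfun T f S ξ = pick (cl f (base T S (zfun T f S) ξ)) := by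
  have h1 : zfun T f S ξ = pick (cl f (base T S
      (fun η => if h : η < ξ then zfun T f S η else 0) ξ)) := by
    unfold zfun
    rw [WellFounded.fix_eq]
  rw [h1]
  congr 2
  refine base_congr fun η hη => ?_
  rw [dif_pos hη]

/-- The system. -/
def mkSys [WellFoundedLT Λ] (T : Set (Set ℕ)) (f : Set X3 → Set (Set X3))
    (col : Λ → Bool) (S : Λ → Set (ℕ → Set ℕ)) (Id : Λ → IdealOn ℕ)
    (hS : ∀ ξ, ∀ s ∈ S ξ, ∀ n, s n ∈ Id ξ)
    (hf : ∀ A, #(f A) < tNumber) (hf2 : ∀ A B, A ⊆ B → ∃ C ∈ f A, C ∈ f B ∧ A ⊆ C ∧ C ⊆ B)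
    (hsmall : ∀ ξ, #(cl f (base T S (zfun T f S) ξ)) < covM) : Sys T Λ where
  col := col
  S := S
  Id := Id
  hS := hS
  z := zfun T f S
  f := f
  hf := hf
  hf2 := hf2
  M := fun ξ => cl f (base T S (zfun T f S) ξ)
  mono := fun η ξ h => cl_mono (base_mono h)
  inter := fun ξ A hA B hB => cl_inter hA hB
  compl := fun ξ A hA => cl_compl hA
  hexV := fun ξ A hA => cl_exV hA
  hexW := fun ξ A hA => cl_exW hA
  hfM := fun ξ A hA => cl_f hA
  hT := fun ξ t ht => subset_cl (Or.inl ⟨t, ht, rfl⟩)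
  hfin := fun ξ n => subset_cl (Or.inr (Or.inl ⟨n, rfl⟩))
  hA := fun ξ η h s hs => subset_cl (Or.inr (Or.inr (Or.inl (Set.mem_biUnion h ⟨s, hs, rfl⟩))))
  hs := fun ξ s hs => subset_cl (Or.inr (Or.inr (Or.inr
    (Set.mem_biUnion (Set.mem_Iic.2 le_rfl) ⟨s, hs, rfl⟩))))
  gen := fun ξ P hP hinf => by
    rw [zfun_eq]
    exact pick_spec (hsmall ξ) P hP hinf

end Pool.Agent.H36.Slalom
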