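import Pool.Agent.H36.Slalom.PartFour

/-!
# Closed orders, `𝔱 ≤ 𝔟` and a form of `𝔱 ≤ cov(M)`
-/

set_option autoImplicit false

noncomputable section

namespace Pool.Agent.H36.Slalom

open Cardinal

/-- In an order in which all chains of size `< κ` have lower bounds, fewer than `κ` many dense
open sets have a common element. -/
theorem exists_mem_of_closed {P : Type} (le : P → P → Prop) (hrefl : ∀ x, le x x)
    (htrans : ∀ x y z, le x y → le y z → le x z) {κ : Cardinal.{0}}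
    (hκ : ℵ₀ ≤ κ)
    (hchain : ∀ C : Set P, (∀ x ∈ C, ∀ y ∈ C, le x y ∨ le y x) → #C < κ → ∃ z, ∀ x ∈ C, le z x)
    {ι : Type} (hι : #ι < κ) (D : ι → Set P)
    (hopen : ∀ i x y, x ∈ D i → le y x → y ∈ D i) (hdense : ∀ i x, ∃ y ∈ D i, le y x) :
    ∃ x, ∀ i, x ∈ D i := by
  classical
  -- the well-order
  obtain ⟨r, hr⟩ : ∃ r : ι → ι → Prop, IsWellOrder ι r := ⟨WellOrderingRel, inferInstance⟩
  -- the step
  have hstep : ∀ (i : ι) (C : Set P), ∃ z : P, z ∈ D i ∧
      ((∀ x ∈ C, ∀ y ∈ C, le x y ∨ le y x) → #C < κ → ∀ x ∈ C, le z x) := by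
    intro i C
    by_cases h : (∀ x ∈ C, ∀ y ∈ C, le x y ∨ le y x) ∧ #C < κ
    · obtain ⟨z, hz⟩ := hchain C h.1 h.2
      obtain ⟨y, hy, hyz⟩ := hdense i z
      exact ⟨y, hy, fun _ _ x hx => htrans _ _ _ hyz (hz x hx)⟩
    · obtain ⟨z, -⟩ := hchain ∅ (by simp) (by
        rw [mk_eq_zero]
        exact lt_of_lt_of_le aleph0_pos hκ)
      obtain ⟨y, hy, -⟩ := hdense i z
      exact ⟨y, hy, fun h1 h2 => absurd ⟨h1, h2⟩ h⟩
  choose st hst1 hst2 using hstep
  let p : ι → P := hr.wf.fix fun i rec => st i {x | ∃ j, ∃ h : r j i, rec j h = x}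
  have hp : ∀ i, p i = st i {x | ∃ j, r j i ∧ p j = x} := by
    intro i
    have := hr.wf.fix_eq (fun i rec => st i {x | ∃ j, ∃ h : r j i, rec j h = x}) i
    show hr.wf.fix _ i = _
    rw [this]
    congr 1
    ext x
    constructor
    · rintro ⟨j, h, h'⟩
      exact ⟨j, h, h'⟩
    · rintro ⟨j, h, h'⟩
      exact ⟨j, h, h'⟩
  have hcard : ∀ S : Set ι, #(p '' S) < κ := fun S => (mk_image_le.trans (mk_set_le S)).trans_lt hι
  have hset : ∀ i, {x | ∃ j, r j i ∧ p j = x} = p '' {j | r j i} := fun i => rfl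
  have hdec : ∀ i, ∀ j, r j i → le (p i) (p j) := by
    intro i
    induction i using hr.wf.induction with
    | _ i ih =>
      intro j hj
      rw [hp i]
      refine hst2 i _ ?_ ?_ (p j) ⟨j, hj, rfl⟩
      · rintro _ ⟨a, ha, rfl⟩ _ ⟨b, hb, rfl⟩
        rcases trichotomous_of r a b with h | h | h
        · exact Or.inr (ih b hb a h)
        · subst h
          exact Or.inl (hrefl _)
        · exact Or.inl (ih a ha b h)
      · rw [hset]
        exact hcard _
  obtain ⟨z, hz⟩ := hchain (Set.range p) (by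
    rintro _ ⟨a, rfl⟩ _ ⟨b, rfl⟩
    rcases trichotomous_of r a b with h | h | h
    · exact Or.inr (hdec b a h)
    · subst h
      exact Or.inl (hrefl _)
    · exact Or.inl (hdec a b h)) (by
    rw [← Set.image_univ]
    exact hcard _)
  refine ⟨z, fun i => hopen i (p i) z ?_ (hz _ ⟨i, rfl⟩)⟩
  rw [hp i]
  exact hst1 i _

theorem aleph0_lt_tNumber : ℵ₀ < tNumber := by
  obtain ⟨A, h1, h2, h3, h4⟩ := tNumber_mem
  rw [← h4]
  exact aleph0_lt_of_not_pseudo (sfip_of_linear h1 h2) h3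

end Pool.Agent.H36.Slalom
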