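import Pool.Agent.H36.Slalom.Closed

/-!
# `𝔱 ≤ 𝔟` and a form of `𝔱 ≤ cov(M)`
-/

set_option autoImplicit false

noncomputable section

namespace Pool.Agent.H36.Slalom

open Cardinal

/-- `𝔱 ≤ 𝔟`: fewer than `𝔱` many functions are bounded. -/
theorem exists_bound_of_lt {ι : Type} (hι : #ι < tNumber) (f : ι → ℕ → ℕ) :
    ∃ g : ℕ → ℕ, ∀ i, {n | g n < f i n}.Finite := by
  classical
  let F : ι → ℕ → ℕ := fun i n => ∑ k ∈ Finset.range (n + 1), f i k
  have hFmono : ∀ i, Monotone (F i) := fun i m n hmn =>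
    Finset.sum_le_sum_of_subset (Finset.range_mono (by omega))
  have hfF : ∀ i n, f i n ≤ F i n := fun i n =>
    Finset.single_le_sum (f := f i) (fun _ _ => Nat.zero_le _) (Finset.mem_range.2 (Nat.lt_succ_self n))
  obtain ⟨X, hX⟩ := exists_mem_of_closed (P := {X : Set ℕ // X.Infinite})
    (fun X Y => (X.1 \ Y.1).Finite) (fun X => by simp) (fun X Y Z => sdiff_trans)
    aleph0_lt_tNumber.le (by
      intro C hC hcard
      obtain ⟨X, h1, h2⟩ := hasPseudo_of_linear (A := Subtype.val '' C)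
        (by rintro _ ⟨a, _, rfl⟩; exact a.2)
        (by
          rintro _ ⟨a, ha, rfl⟩ _ ⟨b, hb, rfl⟩
          exact hC a ha b hb) (mk_image_le.trans_lt hcard)
      exact ⟨⟨X, h1⟩, fun x hx => h2 _ ⟨x, hx, rfl⟩⟩)
    hι (fun i => {X | {x | x ∈ X.1 ∧ ∃ y ∈ X.1, x < y ∧ y ≤ F i x}.Finite})
    (by
      intro i X Y hX hYX
      obtain ⟨m, hm⟩ := hYX.bddAbove
      refine (hX.union (Set.finite_Iic m)).subset ?_
      rintro x ⟨hx, y, hy, hxy, hyF⟩
      by_cases hxm : x ≤ m
      · exact Or.inr hxm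
      · left
        have h1 : ∀ z ∈ Y.1, m < z → z ∈ X.1 := by
          intro z hz hmz
          by_contra hzX
          exact absurd (hm ⟨hz, hzX⟩) (not_le.2 hmz)
        exact ⟨h1 x hx (not_le.1 hxm), y, h1 y hy (by omega), hxy, hyF⟩)
    (by
      intro i X
      have h : ∀ m, ∃ k ∈ X.1, m < k := fun m => X.2.exists_gt m
      choose nx hnx hnx' using h
      let r : ℕ → ℕ := fun n => Nat.rec (nx 0) (fun _ k => nx (max k (F i k))) n
      have hr : ∀ n, r (n + 1) = nx (max (r n) (F i (r n))) := fun n => rfl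
      have hrX : ∀ n, r n ∈ X.1 := by
        intro n
        cases n with
        | zero => exact hnx _
        | succ n => rw [hr]; exact hnx _
      have hlt : ∀ n, max (r n) (F i (r n)) < r (n + 1) := fun n => by rw [hr]; exact hnx' _
      have hmono : StrictMono r := strictMono_nat_of_lt_succ fun n =>
        (le_max_left _ _).trans_lt (hlt n)
      refine ⟨⟨Set.range r, Set.infinite_range_of_injective hmono.injective⟩, ?_, ?_⟩
      · refine Set.finite_empty.subset ?_
        rintro _ ⟨⟨n, rfl⟩, _, ⟨m, rfl⟩, h1, h2⟩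
        exfalso
        have h3 : n < m := hmono.lt_iff_lt.1 h1
        have h4 : r (n + 1) ≤ r m := hmono.monotone h3
        have h5 := hlt n
        have h6 := le_max_right (r n) (F i (r n))
        omega
      · refine Set.finite_empty.subset ?_
        rintro _ ⟨⟨n, rfl⟩, hn⟩
        exact hn (hrX n))
  have h1 : ∀ m, ∃ k ∈ X.1, m < k := fun m => X.2.exists_gt m
  choose nx hnx hnx' using h1
  refine ⟨fun n => nx (nx n), fun i => ?_⟩
  obtain ⟨m, hm⟩ := (hX i).bddAbove
  refine (Set.finite_Iic m).subset ?_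
  intro n hn
  have hn' : nx (nx n) < f i n := hn
  have h2 : nx (nx n) ≤ F i (nx n) :=
    (hn'.le.trans (hfF i n)).trans (hFmono i (hnx' n).le)
  have h3 : nx n ≤ m := hm ⟨hnx n, nx (nx n), hnx _, hnx' _, h2⟩
  exact (hnx' n).le.trans h3

/-- All extensions of `s`. -/
def cyl (s : List ℕ) : Set (List ℕ) := {t | s <:+ t}

theorem cyl_anti {s t : List ℕ} (h : s <:+ t) : cyl t ⊆ cyl s := fun _ hu => h.trans hu

/-- Somewhere infinite everywhere. -/
def Fat (A : Set (List ℕ)) : Prop := ∀ s, (A ∩ cyl s).Infinite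

/-- A form of `𝔱 ≤ cov(M)`. -/
theorem exists_branch {ι : Type} (hι : #ι < tNumber) (D : ι → Set (List ℕ))
    (hopen : ∀ i s n, s ∈ D i → (n :: s) ∈ D i) (hdense : ∀ i s, ∃ t ∈ D i, s <:+ t) :
    ∃ s : ℕ → List ℕ, (∀ n, s n <:+ s (n + 1)) ∧ ∀ i, ∃ n, s n ∈ D i := by
  classical
  have hopen' : ∀ i s t, s ∈ D i → s <:+ t → t ∈ D i := by
    rintro i s t hs ⟨u, rfl⟩
    induction u with
    | nil => exact hs
    | cons a u ih => exact hopen i _ a ih
  let e : List ℕ ≃ ℕ := Denumerable.eqv (List ℕ)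
  have huniv : Fat Set.univ := by
    intro s
    rw [Set.univ_inter]
    refine Set.infinite_of_injective_forall_mem (f := fun n : ℕ => n :: s) ?_ ?_
    · intro m n h
      exact (List.cons.inj h).1
    · intro n
      exact List.suffix_cons n s
  obtain ⟨A, hA⟩ := exists_mem_of_closed (P := {A : Set (List ℕ) // Fat A})
    (fun X Y => (X.1 \ Y.1).Finite) (fun X => by simp) (fun X Y Z => sdiff_trans)
    aleph0_lt_tNumber.le (by
      intro C hC hcard
      have hC' : ∀ s, ∃ B : Set (List ℕ), B.Infinite ∧ B ⊆ cyl s ∧ ∀ A ∈ C, (B \ A.1).Finite := by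
        intro s
        set T : Set (Set ℕ) := (fun A : {A : Set (List ℕ) // Fat A} => e '' (A.1 ∩ cyl s)) ''
          insert ⟨Set.univ, huniv⟩ C with hT
        have hlin : ∀ A ∈ insert (⟨Set.univ, huniv⟩ : {A : Set (List ℕ) // Fat A}) C,
            ∀ B ∈ insert (⟨Set.univ, huniv⟩ : {A : Set (List ℕ) // Fat A}) C,
            (A.1 \ B.1).Finite ∨ (B.1 \ A.1).Finite := by
          rintro A (rfl | hA) B (rfl | hB)
          · left; simp
          · right; simp
          · left; simp
          · exact hC A hA B hB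
        have hsd : ∀ A B : Set (List ℕ), (A \ B).Finite →
            (e '' (A ∩ cyl s) \ e '' (B ∩ cyl s)).Finite := by
          intro A B h
          refine (h.image e).subset ?_
          rintro _ ⟨⟨t, ⟨ht, hts⟩, rfl⟩, hn⟩
          exact ⟨t, ⟨ht, fun htB => hn ⟨t, ⟨htB, hts⟩, rfl⟩⟩, rfl⟩
        obtain ⟨B', hB', hB'T⟩ := hasPseudo_of_linear (A := T)
          (by
            rintro _ ⟨A, _, rfl⟩
            exact (A.2 s).image e.injective.injOn)
          (by
            rintro _ ⟨A, hA, rfl⟩ _ ⟨B, hB, rfl⟩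
            rcases hlin A hA B hB with h | h
            · exact Or.inl (hsd _ _ h)
            · exact Or.inr (hsd _ _ h))
          (by
            refine (mk_image_le.trans mk_insert_le).trans_lt ?_
            exact add_lt_of_lt aleph0_lt_tNumber.le hcard (one_lt_aleph0.trans aleph0_lt_tNumber))
        have h1 := hB'T _ ⟨_, Set.mem_insert _ _, rfl⟩
        refine ⟨e.symm '' (B' ∩ e '' cyl s), ?_, ?_, ?_⟩
        · refine Set.Infinite.image e.symm.injective.injOn ?_
          intro hfin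
          refine hB' ((hfin.union h1).subset fun x hx => ?_)
          by_cases hx2 : x ∈ e '' cyl s
          · exact Or.inl ⟨hx, hx2⟩
          · refine Or.inr ⟨hx, fun hx3 => hx2 ?_⟩
            simpa using hx3
        · rintro _ ⟨_, ⟨_, ⟨t, ht, rfl⟩⟩, rfl⟩
          rw [e.symm_apply_apply]
          exact ht
        · intro A hA
          have h2 := hB'T _ ⟨A, Set.mem_insert_of_mem _ hA, rfl⟩
          refine (h2.image e.symm).subset ?_
          rintro _ ⟨⟨x, ⟨hx, hx'⟩, rfl⟩, hn⟩
          refine ⟨x, ⟨hx, ?_⟩, rfl⟩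
          rintro ⟨t, ⟨ht, _⟩, rfl⟩
          rw [e.symm_apply_apply] at hn
          exact hn ht
      choose B hBinf hBs hBC using hC'
      have hb : ∀ (A : C) (n : ℕ), ∃ m : ℕ, ∀ t ∈ B (e.symm n) \ A.1.1, e t < m := by
        intro A n
        obtain ⟨m, hm⟩ := ((hBC (e.symm n) A.1 A.2).image e).bddAbove
        exact ⟨m + 1, fun t ht => Nat.lt_succ_of_le (hm ⟨t, ht, rfl⟩)⟩
      choose f hf using hb
      obtain ⟨g, hg⟩ := exists_bound_of_lt (ι := C) hcard f
      refine ⟨⟨{t | ∃ s, t ∈ B s ∧ g (e s) ≤ e t}, ?_⟩, ?_⟩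
      · intro s
        have h1 : (B s \ {t | e t < g (e s)}).Infinite :=
          (hBinf s).sdiff ((Set.finite_Iio (g (e s))).preimage e.injective.injOn)
        refine h1.mono ?_
        rintro t ⟨ht, ht'⟩
        exact ⟨⟨s, ht, not_lt.1 ht'⟩, hBs s ht⟩
      · intro A hA
        have hfin : {s : List ℕ | g (e s) < f ⟨A, hA⟩ (e s)}.Finite :=
          (hg ⟨A, hA⟩).preimage e.injective.injOn
        refine (hfin.biUnion fun s _ => hBC s A hA).subset ?_
        rintro t ⟨⟨s, hts, hgt⟩, htA⟩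
        refine Set.mem_biUnion (x := s) ?_ ⟨hts, htA⟩
        have h2 := hf ⟨A, hA⟩ (e s) t (by
          rw [e.symm_apply_apply]
          exact ⟨hts, htA⟩)
        exact hgt.trans_lt h2)
    hι (fun i => {A | (A.1 \ D i).Finite})
    (by
      intro i X Y hX hYX
      exact sdiff_trans hYX hX)
    (by
      intro i X
      refine ⟨⟨X.1 ∩ D i, fun s => ?_⟩, ?_, ?_⟩
      · obtain ⟨t, ht, hst⟩ := hdense i s
        refine (X.2 t).mono ?_
        rintro u ⟨hu, hu'⟩
        exact ⟨⟨hu, hopen' i t u ht hu'⟩, cyl_anti hst hu'⟩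
      · refine Set.finite_empty.subset ?_
        rintro u ⟨hu, hu'⟩
        exact hu' hu.2
      · refine Set.finite_empty.subset ?_
        rintro u ⟨hu, hu'⟩
        exact hu' hu.1)
  have hnext : ∀ s : List ℕ, ∃ t ∈ A.1, s <:+ t ∧ s.length < t.length := by
    intro s
    obtain ⟨t, ⟨htA, hts⟩, hne⟩ := (A.2 s).exists_notMem_finite (Set.finite_singleton s)
    refine ⟨t, htA, hts, ?_⟩
    rcases hts.length_le.lt_or_eq with h | h
    · exact h
    · exact absurd (hts.eq_of_length h).symm hne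
  choose nx h1 h2 h3 using hnext
  let s : ℕ → List ℕ := fun n => Nat.rec (nx []) (fun _ k => nx k) n
  have hs : ∀ n, s (n + 1) = nx (s n) := fun n => rfl
  refine ⟨s, fun n => by rw [hs]; exact h2 _, fun i => ?_⟩
  have hmono : StrictMono fun n => (s n).length := strictMono_nat_of_lt_succ fun n => by
    show (s n).length < (s (n + 1)).length
    rw [hs]
    exact h3 _
  have hinj : Function.Injective s := fun m n h => hmono.injective (congrArg List.length h)
  have hsA : ∀ n, s n ∈ A.1 := by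
    intro n
    cases n with
    | zero => exact h1 _
    | succ n => rw [hs]; exact h1 _
  have hfin : {n | s n ∈ A.1 \ D i}.Finite := (hA i).preimage hinj.injOn
  obtain ⟨n, hn⟩ := hfin.exists_notMem
  refine ⟨n, ?_⟩
  by_contra hnD
  exact hn ⟨hsA n, hnD⟩

end Pool.Agent.H36.Slalom
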