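import Mathlib

/-!
# Slalom numbers and Katetov numbers of ideals: definitions

Ideals on a countable set, the cardinals `sl_e(I, J)`, `sl_e(⋆, J)`, `p_K(I, J)`, `p_K(⋆, J)`.
-/

set_option autoImplicit false

noncomputable section

namespace Pool.Agent.H36.Slalom

open Cardinal

/-- An ideal on the set `α`: a proper ideal of subsets of `α` which contains every finite set.
(For `α = ℕ` these are the ideals on `ω`.) -/
structure IdealOn (α : Type) where
  /-- the members of the ideal -/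
  sets : Set (Set α)
  finite_mem : ∀ s : Set α, s.Finite → s ∈ sets
  union_mem : ∀ s ∈ sets, ∀ t ∈ sets, s ∪ t ∈ sets
  subset_mem : ∀ t ∈ sets, ∀ s : Set α, s ⊆ t → s ∈ sets
  univ_notMem : Set.univ ∉ sets

instance {α : Type} : Membership (Set α) (IdealOn α) := ⟨fun J s => s ∈ J.sets⟩

theorem IdealOn.mem_iff {α : Type} {J : IdealOn α} {s : Set α} : s ∈ J ↔ s ∈ J.sets := Iff.rfl

/-- The intersection `J₀ ∩ J₁` of two ideals. -/
def IdealOn.inter {α : Type} (J₀ J₁ : IdealOn α) : IdealOn α where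
  sets := J₀.sets ∩ J₁.sets
  finite_mem := fun s hs => ⟨J₀.finite_mem s hs, J₁.finite_mem s hs⟩
  union_mem := fun s hs t ht => ⟨J₀.union_mem s hs.1 t ht.1, J₁.union_mem s hs.2 t ht.2⟩
  subset_mem := fun t ht s hst => ⟨J₀.subset_mem t ht.1 s hst, J₁.subset_mem t ht.2 s hst⟩
  univ_notMem := fun h => J₀.univ_notMem h.1

/-- The disjoint sum `J₀ ⊕ J₁`: the ideal on `{0, 1} × α` of all `A` whose sections over `0` and
`1` belong to `J₀` and `J₁` (`0 = false`, `1 = true`). -/
def IdealOn.sum {α : Type} (J₀ J₁ : IdealOn α) : IdealOn (Bool × α) where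
  sets := {A | {n | (false, n) ∈ A} ∈ J₀.sets ∧ {n | (true, n) ∈ A} ∈ J₁.sets}
  finite_mem := fun s hs =>
    ⟨J₀.finite_mem _ (hs.preimage fun _ _ _ _ h => (Prod.mk.inj h).2),
      J₁.finite_mem _ (hs.preimage fun _ _ _ _ h => (Prod.mk.inj h).2)⟩
  union_mem := fun s hs t ht =>
    ⟨J₀.union_mem _ hs.1 _ ht.1, J₁.union_mem _ hs.2 _ ht.2⟩
  subset_mem := fun t ht s hst =>
    ⟨J₀.subset_mem _ ht.1 _ fun _ h => hst h, J₁.subset_mem _ ht.2 _ fun _ h => hst h⟩
  univ_notMem := fun h => J₀.univ_notMem (by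
    have h1 := h.1
    simpa using h1)

open Classical in
/-- The least element of a set of cardinals, `∞` (that is `⊤`) if the set is empty. -/
def least (S : Set Cardinal.{0}) : WithTop Cardinal.{0} :=
  if S.Nonempty then ((sInf S : Cardinal.{0}) : WithTop Cardinal.{0}) else ⊤

/-- `sl_e(I, J)`: the least size of a family `S` of functions `s : α → I` such that every
`x : α → ω` admits some `s ∈ S` with `{n | x n ∈ s n} ∉ J`.  (`J` is an ideal on `α`.) -/
def slE {α : Type} (I : IdealOn ℕ) (J : IdealOn α) : WithTop Cardinal.{0} :=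
  least {κ | ∃ S : Set (α → Set ℕ), (∀ s ∈ S, ∀ n, s n ∈ I) ∧
    (∀ x : α → ℕ, ∃ s ∈ S, {n | x n ∈ s n} ∉ J) ∧ #S = κ}

/-- `sl_e(⋆, J)`: the least of the numbers `sl_e(I, J)`. -/
def slEStar {α : Type} (J : IdealOn α) : WithTop Cardinal.{0} :=
  least {κ | ∃ I : IdealOn ℕ, slE I J = κ}

/-- Katetov order: `A ≤_K J` iff there is `f : α → ω` with `f ⁻¹[a] ∈ J` for every `a ∈ A`. -/
def KLe {α : Type} (A : Set (Set ℕ)) (J : IdealOn α) : Prop :=
  ∃ f : α → ℕ, ∀ a ∈ A, f ⁻¹' a ∈ J

/-- `p_K(I, J)`: the least size of a family `A ⊆ I` with `A ≰_K J`. -/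
def pK {α : Type} (I : IdealOn ℕ) (J : IdealOn α) : WithTop Cardinal.{0} :=
  least {κ | ∃ A : Set (Set ℕ), (∀ a ∈ A, a ∈ I) ∧ ¬ KLe A J ∧ #A = κ}

/-- `A` generates an ideal: no finite union of members of `A` is cofinite. -/
def Generates (A : Set (Set ℕ)) : Prop :=
  ∀ B : Set (Set ℕ), B ⊆ A → B.Finite → ¬ (⋃₀ B)ᶜ.Finite

/-- `p_K(⋆, J)`: the least size of a family `A` which generates an ideal and satisfies
`A ≰_K J`. -/
def pKStar {α : Type} (J : IdealOn α) : WithTop Cardinal.{0} :=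
  least {κ | ∃ A : Set (Set ℕ), Generates A ∧ ¬ KLe A J ∧ #A = κ}

/-! ### The pseudointersection number and the tower number -/

/-- A family of sets of natural numbers with the strong finite intersection property: all finite
intersections are infinite. -/
def SFIP (A : Set (Set ℕ)) : Prop := ∀ B : Set (Set ℕ), B ⊆ A → B.Finite → (⋂₀ B).Infinite

/-- `A` has a pseudointersection: an infinite set almost contained in every member. -/
def HasPseudo (A : Set (Set ℕ)) : Prop := ∃ X : Set ℕ, X.Infinite ∧ ∀ a ∈ A, (X \ a).Finite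

/-- The pseudointersection number `𝔭`. -/
def pNumber : Cardinal.{0} := sInf {κ | ∃ A : Set (Set ℕ), SFIP A ∧ ¬ HasPseudo A ∧ #A = κ}

/-- The tower number `𝔱`: the least size of a family of infinite sets which is linearly ordered by
almost inclusion and has no pseudointersection. -/
def tNumber : Cardinal.{0} :=
  sInf {κ | ∃ A : Set (Set ℕ), (∀ a ∈ A, a.Infinite) ∧
    (∀ a ∈ A, ∀ b ∈ A, (a \ b).Finite ∨ (b \ a).Finite) ∧ ¬ HasPseudo A ∧ #A = κ}

end Pool.Agent.H36.Slalom
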