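import Pool.Agent.H36.Slalom.Pseudo

/-!
# Slalom numbers lie between `𝔭` and `𝔡`

For all ideals `I` on `ω` and `J` on a countable set: `𝔭 ≤ sl_e(I, J) ≤ 𝔡`.  Hence, if `𝔭 = 𝔡`,
all slalom numbers are equal.  (Written by helper73.)
-/

set_option autoImplicit false

noncomputable section

namespace Pool.Agent.H36.Slalom

open Cardinal Set

/-- The dominating number `𝔡`: the least size of a family `D` of functions such that every function
is eventually dominated by a member of `D`. -/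
def dNumber : Cardinal.{0} :=
  sInf {κ | ∃ D : Set (ℕ → ℕ), (∀ f : ℕ → ℕ, ∃ g ∈ D, {n | g n < f n}.Finite) ∧ #D = κ}

/-- Families of fewer than `𝔭` functions are bounded (`𝔭 ≤ 𝔟`). -/
theorem bounded_of_lt {F : Set (ℕ → ℕ)} (h : #F < pNumber) :
    ∃ g : ℕ → ℕ, ∀ f ∈ F, {n | g n < f n}.Finite := by
  classical
  have hω := aleph0_lt_pNumber
  -- monotone majorants
  let M : (ℕ → ℕ) → ℕ → ℕ := fun f => partialSups f
  let Af : (ℕ → ℕ) → Set ℕ := fun f => {m | M f (Nat.unpair m).1 ≤ (Nat.unpair m).2}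
  let Bj : ℕ → Set ℕ := fun j => {m | j ≤ (Nat.unpair m).1}
  let 𝒜 : Set (Set ℕ) := Af '' F ∪ Set.range Bj
  have hcard : #𝒜 < pNumber := by
    refine lt_of_le_of_lt (Cardinal.mk_union_le _ _) ?_
    refine Cardinal.add_lt_of_lt hω.le (lt_of_le_of_lt Cardinal.mk_image_le h) ?_
    exact lt_of_le_of_lt Cardinal.mk_range_le (by simpa using hω)
  have hS : SFIP 𝒜 := by
    intro B hB hfin
    have key : ∃ N : ℕ, ∃ G : ℕ → ℕ, ∀ n, N ≤ n → ∀ k, G n ≤ k → Nat.pair n k ∈ ⋂₀ B := by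
      induction B, hfin using Set.Finite.induction_on with
      | empty => exact ⟨0, fun _ => 0, by simp⟩
      | @insert s t hst ht ih =>
        obtain ⟨N, G, hNG⟩ := ih ((Set.subset_insert _ _).trans hB)
        rcases hB (Set.mem_insert _ _) with ⟨f, hf, rfl⟩ | ⟨j, rfl⟩
        · refine ⟨N, fun n => max (G n) (M f n), fun n hn k hk => ?_⟩
          rw [Set.sInter_insert]
          refine ⟨?_, hNG n hn k (le_trans (le_max_left _ _) hk)⟩
          show M f (Nat.unpair (Nat.pair n k)).1 ≤ (Nat.unpair (Nat.pair n k)).2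
          rw [Nat.unpair_pair]
          exact le_trans (le_max_right _ _) hk
        · refine ⟨max N j, G, fun n hn k hk => ?_⟩
          rw [Set.sInter_insert]
          refine ⟨?_, hNG n (le_trans (le_max_left _ _) hn) k hk⟩
          show j ≤ (Nat.unpair (Nat.pair n k)).1
          rw [Nat.unpair_pair]
          exact le_trans (le_max_right _ _) hn
    obtain ⟨N, G, hNG⟩ := key
    refine Set.infinite_of_injective_forall_mem (f := fun n : ℕ => Nat.pair (N + n) (G (N + n)))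
      ?_ fun n => hNG _ (Nat.le_add_right _ _) _ le_rfl
    intro n n' hn
    have := (Nat.pair_eq_pair.1 hn).1
    omega
  obtain ⟨X, hX, hXA⟩ := hasPseudo_of_lt hS hcard
  have hex : ∀ n : ℕ, ∃ m ∈ X, n ≤ (Nat.unpair m).1 := by
    intro n
    have h1 : (X \ Bj n).Finite := hXA _ (Or.inr ⟨n, rfl⟩)
    obtain ⟨m, hm, hm2⟩ := hX.exists_notMem_finite h1
    refine ⟨m, hm, ?_⟩
    by_contra hc
    exact hm2 ⟨hm, hc⟩
  choose m hmX hmn using hex
  refine ⟨fun n => (Nat.unpair (m n)).2, fun f hf => ?_⟩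
  have hE : (X \ Af f).Finite := hXA _ (Or.inl ⟨f, hf, rfl⟩)
  obtain ⟨b, hb⟩ := (hE.image fun m => (Nat.unpair m).1).bddAbove
  refine (Set.finite_Iic b).subset ?_
  intro n hn
  have hn' : (Nat.unpair (m n)).2 < f n := hn
  have hmono : f n ≤ M f (Nat.unpair (m n)).1 :=
    le_trans (le_partialSups f n) ((partialSups f).monotone (hmn n))
  have hnot : m n ∉ Af f := by
    intro hmem
    have : M f (Nat.unpair (m n)).1 ≤ (Nat.unpair (m n)).2 := hmem
    omega
  exact le_trans (hmn n) (hb ⟨m n, ⟨hmX n, hnot⟩, rfl⟩)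

variable {α : Type}

/-- Members of an ideal have infinite complement. -/
theorem IdealOn.compl_infinite (I : IdealOn α) {s : Set α} (hs : s ∈ I) : sᶜ.Infinite := by
  intro hf
  refine I.univ_notMem ?_
  have := I.union_mem s hs _ (I.finite_mem _ hf)
  rwa [Set.union_compl_self] at this

theorem sfip_compl (I : IdealOn ℕ) {A : Set (Set ℕ)} (hA : ∀ a ∈ A, aᶜ ∈ I) : SFIP A := by
  intro B hB hfin
  have key : (⋂₀ B)ᶜ ∈ I := by
    induction B, hfin using Set.Finite.induction_on with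
    | empty =>
      rw [Set.sInter_empty, Set.compl_univ]
      exact I.finite_mem ∅ Set.finite_empty
    | @insert s t hst ht ih =>
      rw [Set.sInter_insert, Set.compl_inter]
      exact I.union_mem _ (hA _ (hB (Set.mem_insert _ _))) _ (ih ((Set.subset_insert _ _).trans hB))
  have := I.compl_infinite key
  rwa [compl_compl] at this

/-- Fewer than `𝔭` slaloms can be evaded everywhere except finitely often. -/
theorem evade_of_lt [Countable α] [Infinite α] (I : IdealOn ℕ) {S : Set (α → Set ℕ)}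
    (hS : ∀ s ∈ S, ∀ n, s n ∈ I) (h : #S < pNumber) :
    ∃ x : α → ℕ, ∀ s ∈ S, {n | x n ∈ s n}.Finite := by
  classical
  obtain ⟨e⟩ := (nonempty_equiv_of_countable : Nonempty (α ≃ ℕ))
  have hP : ∀ n : α, ∃ X : Set ℕ, X.Infinite ∧ ∀ s ∈ S, (X ∩ s n).Finite := by
    intro n
    have h1 : #((fun s : α → Set ℕ => (s n)ᶜ) '' S) < pNumber :=
      lt_of_le_of_lt Cardinal.mk_image_le h
    have h2 : SFIP ((fun s : α → Set ℕ => (s n)ᶜ) '' S) := by
      refine sfip_compl I ?_
      rintro _ ⟨s, hs, rfl⟩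
      simpa using hS s hs n
    obtain ⟨X, hX, hXs⟩ := hasPseudo_of_lt h2 h1
    refine ⟨X, hX, fun s hs => ?_⟩
    have := hXs _ ⟨s, hs, rfl⟩
    rwa [Set.sdiff_compl] at this
  choose X hX hXs using hP
  have hb : ∀ s : S, ∀ j : ℕ, ∃ b : ℕ, ∀ k ∈ X (e.symm j) ∩ s.1 (e.symm j), k < b := by
    intro s j
    obtain ⟨b, hb⟩ := (hXs (e.symm j) s.1 s.2).bddAbove
    exact ⟨b + 1, fun k hk => Nat.lt_succ_of_le (hb hk)⟩
  choose g hg using hb
  obtain ⟨f, hf⟩ := bounded_of_lt (F := Set.range g) (lt_of_le_of_lt Cardinal.mk_range_le h)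
  have hx : ∀ n : α, ∃ k ∈ X n, f (e n) ≤ k := by
    intro n
    obtain ⟨k, hk, hk2⟩ := (hX n).exists_gt (f (e n))
    exact ⟨k, hk, hk2.le⟩
  choose x hxX hxf using hx
  refine ⟨x, fun s hs => ?_⟩
  have h1 := hf _ ⟨⟨s, hs⟩, rfl⟩
  refine (h1.preimage (f := e) e.injective.injOn).subset ?_
  intro n hn
  show f (e n) < g ⟨s, hs⟩ (e n)
  have h2 := hg ⟨s, hs⟩ (e n) (x n) (by
    rw [Equiv.symm_apply_apply]
    exact ⟨hxX n, hn⟩)
  exact lt_of_le_of_lt (hxf n) h2

/-- `𝔭 ≤ sl_e(I, J)`. -/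
theorem pNumber_le_slE [Countable α] [Infinite α] (I : IdealOn ℕ) (J : IdealOn α) :
    ((pNumber : Cardinal.{0}) : WithTop Cardinal.{0}) ≤ slE I J := by
  refine le_least ?_
  rintro μ ⟨S, hS, hx, rfl⟩
  by_contra hlt
  obtain ⟨x, hxs⟩ := evade_of_lt I hS (not_le.1 hlt)
  obtain ⟨s, hs, hn⟩ := hx x
  exact hn (J.finite_mem _ (hxs s hs))

theorem exists_dominating :
    ∃ D : Set (ℕ → ℕ), (∀ f : ℕ → ℕ, ∃ g ∈ D, {n | g n < f n}.Finite) ∧ #D = dNumber := by
  have hne : {κ | ∃ D : Set (ℕ → ℕ), (∀ f : ℕ → ℕ, ∃ g ∈ D, {n | g n < f n}.Finite) ∧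
      #D = κ}.Nonempty := ⟨_, Set.univ, fun f => ⟨f, Set.mem_univ _, by simp⟩, rfl⟩
  exact csInf_mem hne

/-- `sl_e(I, J) ≤ 𝔡`. -/
theorem slE_le_dNumber [Countable α] [Infinite α] (I : IdealOn ℕ) (J : IdealOn α) :
    slE I J ≤ ((dNumber : Cardinal.{0}) : WithTop Cardinal.{0}) := by
  classical
  obtain ⟨e⟩ := (nonempty_equiv_of_countable : Nonempty (α ≃ ℕ))
  obtain ⟨D, hD, hc⟩ := exists_dominating
  let T : (ℕ → ℕ) → (α → Set ℕ) := fun g n => Set.Iic (g (e n))
  have h1 : slE I J ≤ ((#(T '' D) : Cardinal.{0}) : WithTop Cardinal.{0}) := by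
    refine least_le ⟨T '' D, ?_, ?_, rfl⟩
    · rintro _ ⟨g, _, rfl⟩ n
      exact I.finite_mem _ (Set.finite_Iic _)
    · intro x
      obtain ⟨g, hg, hfin⟩ := hD fun j => x (e.symm j)
      refine ⟨T g, ⟨g, hg, rfl⟩, fun hmem => ?_⟩
      have hcompl : ({n | x n ∈ T g n}ᶜ : Set α).Finite := by
        refine (hfin.preimage (f := e) e.injective.injOn).subset ?_
        intro n hn
        show g (e n) < x (e.symm (e n))
        rw [Equiv.symm_apply_apply]
        simpa [T] using hn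
      exact (J.compl_infinite hmem) hcompl
  refine h1.trans (WithTop.coe_le_coe.2 ?_)
  rw [← hc]
  exact Cardinal.mk_image_le

/-- If `𝔭 = 𝔡` then all slalom numbers are equal. -/
theorem slE_eq_of_pNumber_eq_dNumber [Countable α] [Infinite α] (h : pNumber = dNumber)
    (I : IdealOn ℕ) (J : IdealOn α) :
    slE I J = ((pNumber : Cardinal.{0}) : WithTop Cardinal.{0}) :=
  le_antisymm (h ▸ slE_le_dNumber I J) (pNumber_le_slE I J)

/-- The ideal of finite subsets of `ω`. -/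
def finIdeal : IdealOn ℕ where
  sets := {s | s.Finite}
  finite_mem := fun _ hs => hs
  union_mem := fun _ hs _ ht => Set.Finite.union hs ht
  subset_mem := fun _ ht _ hst => Set.Finite.subset ht hst
  univ_notMem := Set.infinite_univ

theorem slEStar_eq_of_pNumber_eq_dNumber [Countable α] [Infinite α] (h : pNumber = dNumber)
    (J : IdealOn α) : slEStar J = ((pNumber : Cardinal.{0}) : WithTop Cardinal.{0}) := by
  classical
  refine le_antisymm ?_ ?_
  · exact least_le ⟨finIdeal, slE_eq_of_pNumber_eq_dNumber h finIdeal J⟩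
  · refine le_least ?_
    rintro μ ⟨I, hI⟩
    rw [slE_eq_of_pNumber_eq_dNumber h I J] at hI
    exact le_of_eq (WithTop.coe_injective hI)

/-- If `𝔭 = 𝔡` then statements (i) and (iii) of the problem hold. -/
theorem sum_inter_of_pNumber_eq_dNumber (h : pNumber = dNumber) (I J₀ J₁ : IdealOn ℕ) :
    slE I (J₀.inter J₁) = slE I (J₀.sum J₁) ∧
      slEStar (J₀.inter J₁) = slEStar (J₀.sum J₁) :=
  ⟨(slE_eq_of_pNumber_eq_dNumber h I _).trans (slE_eq_of_pNumber_eq_dNumber h I _).symm,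
    (slEStar_eq_of_pNumber_eq_dNumber h _).trans (slEStar_eq_of_pNumber_eq_dNumber h _).symm⟩

end Pool.Agent.H36.Slalom
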