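import Pool.Agent.H36.Slalom.PartOne
import Pool.Agent.H36.Slalom.PD

/-!
# The disjoint sum as an ideal on `ω`; `sl_e(⋆, J) ≤ p_K(⋆, J)`
-/

set_option autoImplicit false

noncomputable section

namespace Pool.Agent.H36.Slalom

open Cardinal

variable {α β : Type}

theorem slE_map {I : IdealOn ℕ} {e : α ≃ β} {J : IdealOn α} : slE I (J.map e) = slE I J := by
  have h1 : ∀ {α β : Type} (e : α ≃ β) (J : IdealOn α), slE I J ≤ slE I (J.map e) := by
    intro α β e J
    refine least_le_least ?_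
    rintro κ ⟨S, h1, h2, rfl⟩
    refine ⟨_, ⟨(fun (s : β → Set ℕ) n => s (e n)) '' S, ?_, fun x => ?_, rfl⟩, mk_image_le⟩
    · rintro _ ⟨s, hs, rfl⟩ n
      exact h1 s hs _
    · obtain ⟨s, hs, hx⟩ := h2 fun n => x (e.symm n)
      refine ⟨_, ⟨s, hs, rfl⟩, fun h => hx ?_⟩
      rw [IdealOn.mem_map]
      convert h using 1
      ext n
      simp
  refine le_antisymm ?_ (h1 e J)
  have h2 := h1 e.symm (J.map e)
  have h3 : (J.map e).map e.symm = J := by
    ext s
    show e ⁻¹' (e.symm ⁻¹' s) ∈ J.sets ↔ s ∈ J.sets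
    rw [← Set.preimage_comp, Equiv.symm_comp_self, Set.preimage_id]
  rwa [h3] at h2

theorem pK_map {I : IdealOn ℕ} {e : α ≃ β} {J : IdealOn α} : pK I (J.map e) = pK I J :=
  pK_congr fun _ => kLe_map

theorem pKStar_map {e : α ≃ β} {J : IdealOn α} : pKStar (J.map e) = pKStar J :=
  pKStar_congr fun _ => kLe_map

theorem slEStar_map {e : α ≃ β} {J : IdealOn α} : slEStar (J.map e) = slEStar J := by
  unfold slEStar
  simp only [slE_map]

/-- The ideal generated by a family which generates an ideal. -/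
def genIdeal {A : Set (Set ℕ)} (hA : Generates A) : IdealOn ℕ where
  sets := {s | ∃ B : Set (Set ℕ), B ⊆ A ∧ B.Finite ∧ (s \ ⋃₀ B).Finite}
  finite_mem := fun s hs => ⟨∅, Set.empty_subset _, Set.finite_empty, hs.subset Set.sdiff_subset⟩
  union_mem := by
    rintro s ⟨B, h1, h2, h3⟩ t ⟨C, k1, k2, k3⟩
    refine ⟨B ∪ C, Set.union_subset h1 k1, h2.union k2, (h3.union k3).subset ?_⟩
    rintro x ⟨hx | hx, hx'⟩
    · exact Or.inl ⟨hx, fun h => hx' (Set.sUnion_mono Set.subset_union_left h)⟩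
    · exact Or.inr ⟨hx, fun h => hx' (Set.sUnion_mono Set.subset_union_right h)⟩
  subset_mem := by
    rintro t ⟨B, h1, h2, h3⟩ s hst
    exact ⟨B, h1, h2, h3.subset fun x hx => ⟨hst hx.1, hx.2⟩⟩
  univ_notMem := by
    rintro ⟨B, h1, h2, h3⟩
    exact hA B h1 h2 (h3.subset fun x hx => ⟨trivial, hx⟩)

/-- `sl_e(⋆, J) ≤ p_K(⋆, J)`. -/
theorem slEStar_le_pKStar (J : IdealOn α) : slEStar J ≤ pKStar J := by
  unfold slEStar pKStar
  have key : ∀ A : Set (Set ℕ), Generates A → ¬ KLe A J →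
      slEStar J ≤ (#A : WithTop Cardinal.{0}) := by
    intro A hA hK
    have h1 : slE (genIdeal hA) J ≤ (#A : WithTop Cardinal.{0}) := by
      refine le_trans (least_le ⟨(fun a (_ : α) => a) '' A, ?_, fun x => ?_, rfl⟩)
        (WithTop.coe_le_coe.2 mk_image_le)
      · rintro _ ⟨a, ha, rfl⟩ n
        exact ⟨{a}, Set.singleton_subset_iff.2 ha, Set.finite_singleton a, by simp⟩
      · by_contra hne
        push Not at hne
        exact hK ⟨x, fun a ha => hne _ ⟨a, ha, rfl⟩⟩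
    obtain ⟨μ, hμ⟩ := WithTop.ne_top_iff_exists.1 (ne_top_of_le_ne_top WithTop.coe_ne_top h1)
    have h2 : slEStar J ≤ (μ : WithTop Cardinal.{0}) := least_le ⟨genIdeal hA, hμ.symm⟩
    rw [hμ] at h2
    exact h2.trans h1
  by_cases hne : {κ | ∃ A : Set (Set ℕ), Generates A ∧ ¬ KLe A J ∧ #A = κ}.Nonempty
  · obtain ⟨A, hA, hK, hc⟩ := csInf_mem hne
    rw [least_eq hne, ← hc]
    exact key A hA hK
  · rw [least_empty hne]
    exact le_top

/-- `𝔭 ≤ sl_e(⋆, J)`. -/
theorem pNumber_le_slEStar [Countable α] [Infinite α] (J : IdealOn α) :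
    (pNumber : WithTop Cardinal.{0}) ≤ slEStar J := by
  refine le_least ?_
  rintro μ ⟨I, hI⟩
  have h := pNumber_le_slE I J
  rw [hI] at h
  exact WithTop.coe_le_coe.1 h

/-- If `2 ^ ω < 2 ^ 𝔭` then `sl_e(⋆, J) = 𝔭` for every `J`. -/
theorem slEStar_eq_of_lt [Countable α] [Infinite α] (J : IdealOn α)
    (h : (2 : Cardinal.{0}) ^ ℵ₀ < 2 ^ pNumber) :
    slEStar J = (pNumber : WithTop Cardinal.{0}) :=
  le_antisymm ((slEStar_le_pKStar J).trans (pKStar_eq J h).le) (pNumber_le_slEStar J)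

end Pool.Agent.H36.Slalom
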