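import Pool.Agent.H36.Slalom.Extra

/-!
# The gap in (ii) for ideals which are not doubling
-/

set_option autoImplicit false

noncomputable section

namespace Pool.Agent.H36.Slalom

open Cardinal

/-- If `I` is not doubling then there are ideals with `p_K(I, J₀ ∩ J₁) ≤ 2 ^ ω` and
`p_K(I, J₀ ⊕ J₁) = ∞`. -/
theorem pK_gap {I : IdealOn ℕ} (hI : ¬ Doubling I) : ∃ J₀ J₁ : IdealOn ℕ,
    pK I (J₀.inter J₁) ≤ (((2 : Cardinal.{0}) ^ ℵ₀ : Cardinal.{0}) : WithTop Cardinal.{0}) ∧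
      pK I (J₀.sum J₁) = ⊤ := by
  refine ⟨(projIdeal I).map Nat.pairEquiv,
    ((projIdeal I).map (Equiv.prodComm ℕ ℕ)).map Nat.pairEquiv, ?_, ?_⟩
  · rw [IdealOn.map_inter, pK_map]
    refine le_trans (least_le ⟨I.sets, fun a ha => ha, fun h => hI ?_, rfl⟩)
      (WithTop.coe_le_coe.2 ?_)
    · obtain ⟨f, hf⟩ := h
      exact ⟨fun x y => f (x, y), fun a ha => ⟨(hf a ha).1, (hf a ha).2⟩⟩
    · refine (mk_set_le _).trans ?_
      rw [mk_set, mk_nat]
  · apply least_empty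
    rintro ⟨κ, A, h1, h2, -⟩
    apply h2
    have h3 : KLe A (projIdeal I) := kLe_projIdeal ⟨id, fun a ha => h1 a ha⟩
    rw [kLe_sum, kLe_map, kLe_map, kLe_map]
    exact ⟨h3, h3⟩

end Pool.Agent.H36.Slalom
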