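import Pool.Agent.H36.Slalom.Pseudo

/-!
# Independent functions, the upper bound for `p_K(⋆, J)` and an ideal above all small families
-/

set_option autoImplicit false

noncomputable section

namespace Pool.Agent.H36.Slalom

open Cardinal

/-- Independent functions on a countable set. -/
theorem exists_indep_sigma (F : Finset (ℕ → Bool)) (v : (ℕ → Bool) → ℕ) :
    {c : Σ N : ℕ, ((Fin N → Bool) → ℕ) | ∀ X ∈ F, c.2 (fun i => X i) = v X}.Infinite := by
  classical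
  have h0 : ∀ X Y : ℕ → Bool, ∃ n : ℕ, ∀ N, n ≤ N →
      (fun i : Fin N => X i) = (fun i : Fin N => Y i) → X = Y := by
    intro X Y
    by_cases h : X = Y
    · exact ⟨0, fun _ _ _ => h⟩
    · obtain ⟨i, hi⟩ := Function.ne_iff.1 h
      refine ⟨i + 1, fun N hN heq => absurd (congrFun heq ⟨i, by omega⟩) hi⟩
  choose n hn using h0
  set N₀ : ℕ := (F ×ˢ F).sup fun p => n p.1 p.2 with hN₀
  have hinj : ∀ X ∈ F, ∀ Y ∈ F, ∀ N, N₀ ≤ N →
      (fun i : Fin N => X i) = (fun i : Fin N => Y i) → X = Y := by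
    intro X hX Y hY N hN heq
    refine hn X Y N ?_ heq
    refine le_trans ?_ hN
    exact Finset.le_sup (f := fun p : (ℕ → Bool) × (ℕ → Bool) => n p.1 p.2)
      (Finset.mk_mem_product hX hY)
  let φ : (N : ℕ) → (Fin N → Bool) → ℕ := fun N s =>
    if h : ∃ X ∈ F, (fun i : Fin N => X i) = s then v h.choose else 0
  refine Set.infinite_of_injective_forall_mem
    (f := fun k : ℕ => (⟨N₀ + k, φ (N₀ + k)⟩ : Σ N : ℕ, ((Fin N → Bool) → ℕ))) ?_ ?_
  · intro k k' h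
    have := congrArg Sigma.fst h
    simp only at this
    omega
  · intro k X hX
    have h : ∃ Y ∈ F, (fun i : Fin (N₀ + k) => Y i) = fun i : Fin (N₀ + k) => X i :=
      ⟨X, hX, rfl⟩
    show (if h : ∃ Y ∈ F, (fun i : Fin (N₀ + k) => Y i) = fun i : Fin (N₀ + k) => X i then
      v h.choose else 0) = v X
    rw [dif_pos h]
    congr 1
    exact hinj _ h.choose_spec.1 _ hX _ (Nat.le_add_right _ _) h.choose_spec.2

/-- `2 ^ ω` independent functions. -/
theorem exists_indep : ∃ g : (ℕ → Bool) → ℕ → ℕ, ∀ (F : Finset (ℕ → Bool)) (v : (ℕ → Bool) → ℕ),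
    {c : ℕ | ∀ X ∈ F, g X c = v X}.Infinite := by
  have : Infinite (Σ N : ℕ, ((Fin N → Bool) → ℕ)) :=
    Infinite.of_injective (fun N : ℕ => (⟨N, fun _ => 0⟩ : Σ N : ℕ, ((Fin N → Bool) → ℕ)))
      fun N N' h => congrArg Sigma.fst h
  obtain ⟨e⟩ := nonempty_equiv_of_countable (α := ℕ) (β := Σ N : ℕ, ((Fin N → Bool) → ℕ))
  refine ⟨fun X c => (e c).2 fun i => X i, fun F v => ?_⟩
  have h := exists_indep_sigma F v
  intro hfin
  refine h ((hfin.image e).subset ?_)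
  intro c hc
  refine ⟨e.symm c, ?_, e.apply_symm_apply c⟩
  intro X hX
  show (e (e.symm c)).2 (fun i => X i) = v X
  rw [e.apply_symm_apply]
  exact hc X hX

/-- If `2 ^ ω < 2 ^ κ` and `κ ≤ 2 ^ ω` then `p_K(⋆, J) ≤ κ` for every ideal `J`. -/
theorem pKStar_le {α : Type} [Countable α] (J : IdealOn α) {κ : Cardinal.{0}}
    (h1 : κ ≤ 2 ^ ℵ₀) (h2 : (2 : Cardinal.{0}) ^ ℵ₀ < 2 ^ κ) :
    pKStar J ≤ (κ : WithTop Cardinal.{0}) := by
  classical
  obtain ⟨g, hg⟩ := exists_indep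
  have h3 : κ ≤ #(ℕ → Bool) := by
    simpa using h1
  obtain ⟨Λ, rfl⟩ := le_mk_iff_exists_set.1 h3
  -- the families
  let v : (Λ → Bool) → Λ → ℕ := fun σ i => bif σ i then 1 else 0
  let A : (Λ → Bool) → Set (Set ℕ) := fun σ => Set.range fun i : Λ => {n | g i n ≠ v σ i}
  have hgen : ∀ σ, Generates (A σ) := by
    intro σ B hB hBf hfin
    obtain ⟨T, rfl⟩ := Set.subset_range_iff_exists_image_eq.1 hB
    -- choose finitely many indices
    obtain ⟨T', hT', hT'f, heq⟩ : ∃ T' : Set Λ, T' ⊆ T ∧ T'.Finite ∧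
        (fun i : Λ => {n | g i n ≠ v σ i}) '' T' = (fun i : Λ => {n | g i n ≠ v σ i}) '' T := by
      obtain ⟨T', h1, h2⟩ := Set.exists_subset_bijOn T (fun i : Λ => {n | g i n ≠ v σ i})
      exact ⟨T', h1, Set.Finite.of_finite_image (h2.image_eq ▸ hBf) h2.injOn, h2.image_eq⟩
    rw [← heq] at hfin
    refine hg (hT'f.toFinset.image Subtype.val) (fun X => if h : X ∈ Λ then v σ ⟨X, h⟩ else 0)
      (hfin.subset fun n hn => ?_)
    rw [Set.mem_compl_iff, Set.mem_sUnion]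
    rintro ⟨_, ⟨i, hi, rfl⟩, hne⟩
    have h4 := hn i (Finset.mem_image.2 ⟨i, hT'f.mem_toFinset.2 hi, rfl⟩)
    rw [dif_pos i.2] at h4
    exact hne h4
  by_contra hlt
  push Not at hlt
  -- all families are below `J`
  have hall : ∀ σ, KLe (A σ) J := by
    intro σ
    by_contra hne
    have h5 : pKStar J ≤ (#(A σ) : WithTop Cardinal.{0}) := least_le ⟨A σ, hgen σ, hne, rfl⟩
    have h6 : (#(A σ) : WithTop Cardinal.{0}) ≤ (#Λ : WithTop Cardinal.{0}) :=
      WithTop.coe_le_coe.2 mk_range_le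
    exact absurd (h5.trans h6) (not_le.2 hlt)
  choose f hf using hall
  have hinj : Function.Injective f := by
    intro σ τ h
    funext i
    by_contra hne
    have k1 : f σ ⁻¹' {n | g i n ≠ v σ i} ∈ J := hf σ _ ⟨i, rfl⟩
    have k2 : f τ ⁻¹' {n | g i n ≠ v τ i} ∈ J := hf τ _ ⟨i, rfl⟩
    rw [← h] at k2
    have k3 := J.union_mem _ k1 _ k2
    refine J.univ_notMem ?_
    convert k3
    symm
    rw [Set.eq_univ_iff_forall]
    intro n
    by_cases hn : g i (f σ n) = v σ i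
    · refine Or.inr fun hn' => hne ?_
      have : v σ i = v τ i := hn.symm.trans hn'
      simp only [v] at this
      cases h1 : σ i <;> cases h2 : τ i <;> simp_all
    · exact Or.inl hn
  have hcard := mk_le_of_injective hinj
  have e1 : #(Λ → Bool) = 2 ^ #Λ := by simp
  have e2 : #(α → ℕ) ≤ 2 ^ ℵ₀ := by
    rw [mk_arrow]
    simp only [mk_nat, lift_id]
    calc ℵ₀ ^ #α ≤ ℵ₀ ^ ℵ₀ := power_le_power_left aleph0_ne_zero mk_le_aleph0
      _ = 2 ^ ℵ₀ := (power_self_eq le_rfl)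
  rw [e1] at hcard
  exact absurd (hcard.trans e2) (not_le.2 h2)

/-- If `2 ^ κ = 2 ^ ω` there is an ideal on `ω` which is above all families of size at most `κ`
which generate an ideal. -/
theorem exists_ideal_above {κ : Cardinal.{0}} (hκ : (2 : Cardinal.{0}) ^ κ ≤ 2 ^ ℵ₀) :
    ∃ M : IdealOn ℕ, ∀ A : Set (Set ℕ), Generates A → #A ≤ κ → KLe A M := by
  classical
  obtain ⟨g, hg⟩ := exists_indep
  have hcard : #{A : Set (Set ℕ) // #A ≤ κ} ≤ #(ℕ → Bool) := by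
    refine (mk_bounded_set_le (Set ℕ) κ).trans ?_
    have e1 : max #(Set ℕ) ℵ₀ = 2 ^ ℵ₀ := by
      rw [mk_set, mk_nat]
      exact max_eq_left (cantor ℵ₀).le
    rw [e1, ← power_mul, mul_comm, power_mul]
    calc ((2 : Cardinal.{0}) ^ κ) ^ ℵ₀ ≤ (2 ^ ℵ₀) ^ ℵ₀ := power_le_power_right hκ
      _ = 2 ^ ℵ₀ := by rw [← power_mul, aleph0_mul_aleph0]
      _ = #(ℕ → Bool) := by simp
  obtain ⟨ι⟩ := hcard
  set G : Set (Set ℕ) := {t | ∃ ξ : {A : Set (Set ℕ) // #A ≤ κ}, Generates ξ.1 ∧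
    ∃ a ∈ ξ.1, t = g (ι ξ) ⁻¹' a} with hG
  have hproper : ∀ B : Set (Set ℕ), B ⊆ G → B.Finite → (⋃₀ B)ᶜ.Infinite := by
    intro B hB hBf
    have hex : ∀ t : Set ℕ, ∃ q : {A : Set (Set ℕ) // #A ≤ κ} × Set ℕ, t ∈ B →
        Generates q.1.1 ∧ q.2 ∈ q.1.1 ∧ t = g (ι q.1) ⁻¹' q.2 := by
      intro t
      by_cases ht : t ∈ B
      · obtain ⟨ξ, h1, a, h2, h3⟩ := hB ht
        exact ⟨(ξ, a), fun _ => ⟨h1, h2, h3⟩⟩
      · exact ⟨(⟨∅, by simp⟩, ∅), fun h => absurd h ht⟩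
    choose q hq using hex
    have hv : ∀ X : ℕ → Bool, ∃ n : ℕ, ∀ t ∈ B, ι (q t).1 = X → n ∉ (q t).2 := by
      intro X
      by_cases hX : ∃ t ∈ B, ι (q t).1 = X
      · obtain ⟨t₀, ht₀, hX₀⟩ := hX
        have h1 : {a | ∃ t ∈ B, ι (q t).1 = X ∧ a = (q t).2} ⊆ (q t₀).1.1 := by
          rintro a ⟨t, ht, hX, rfl⟩
          have : (q t).1 = (q t₀).1 := ι.injective (hX.trans hX₀.symm)
          rw [← this]
          exact (hq t ht).2.1
        have h2 : {a | ∃ t ∈ B, ι (q t).1 = X ∧ a = (q t).2}.Finite := by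
          refine (hBf.image fun t => (q t).2).subset ?_
          rintro a ⟨t, ht, _, rfl⟩
          exact ⟨t, ht, rfl⟩
        have h3 := (hq t₀ ht₀).1 _ h1 h2
        obtain ⟨n, hn⟩ := Set.Infinite.nonempty h3
        exact ⟨n, fun t ht hX hmem => hn ⟨_, ⟨t, ht, hX, rfl⟩, hmem⟩⟩
      · push Not at hX
        exact ⟨0, fun t ht h => absurd h (hX t ht)⟩
    choose v hv using hv
    refine (hg (hBf.toFinset.image fun t => ι (q t).1) v).mono fun c hc => ?_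
    rintro ⟨t, ht, hct⟩
    have h1 := hc _ (Finset.mem_image.2 ⟨t, hBf.mem_toFinset.2 ht, rfl⟩)
    rw [(hq t ht).2.2] at hct
    refine hv _ t ht rfl ?_
    rw [← h1]
    exact hct
  refine ⟨{ sets := {s | ∃ B ⊆ G, B.Finite ∧ (s \ ⋃₀ B).Finite}
            finite_mem := fun s hs => ⟨∅, Set.empty_subset _, Set.finite_empty,
              hs.subset Set.sdiff_subset⟩
            union_mem := ?_
            subset_mem := ?_
            univ_notMem := ?_ }, ?_⟩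
  · rintro s ⟨B, h1, h2, h3⟩ t ⟨C, k1, k2, k3⟩
    refine ⟨B ∪ C, Set.union_subset h1 k1, h2.union k2, (h3.union k3).subset ?_⟩
    rintro x ⟨hx | hx, hx'⟩
    · exact Or.inl ⟨hx, fun h => hx' (Set.sUnion_mono Set.subset_union_left h)⟩
    · exact Or.inr ⟨hx, fun h => hx' (Set.sUnion_mono Set.subset_union_right h)⟩
  · rintro t ⟨B, h1, h2, h3⟩ s hst
    exact ⟨B, h1, h2, h3.subset fun x hx => ⟨hst hx.1, hx.2⟩⟩
  · rintro ⟨B, h1, h2, h3⟩
    refine hproper B h1 h2 (h3.subset fun x hx => ⟨trivial, hx⟩)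
  · intro A hA hAκ
    refine ⟨g (ι ⟨A, hAκ⟩), fun a ha => ?_⟩
    refine ⟨{g (ι ⟨A, hAκ⟩) ⁻¹' a}, ?_, Set.finite_singleton _, ?_⟩
    · rw [Set.singleton_subset_iff]
      exact ⟨⟨A, hAκ⟩, hA, a, ha, rfl⟩
    · simp

end Pool.Agent.H36.Slalom
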