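import Pool.Agent.H36.Slalom.Indep

/-!
# The numbers `p_K(⋆, J)`
-/

set_option autoImplicit false

noncomputable section

namespace Pool.Agent.H36.Slalom

open Cardinal

/-- `R` is a countable `π`-base of the family `F` (a sequence of sets meeting all members of `F`
such that each member of `F` includes one of them). -/
def IsPiBase (F : Set (Set ℕ)) (R : ℕ → Set ℕ) : Prop :=
  (∀ a ∈ F, ∀ n, (R n ∩ a).Nonempty) ∧ ∀ a ∈ F, ∃ n, R n ⊆ a

theorem pNumber_le_continuum : pNumber ≤ 2 ^ ℵ₀ := by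
  obtain ⟨A, h1, h2, h3⟩ := pNumber_mem
  rw [← h3]
  have : #(Set ℕ) = 2 ^ ℵ₀ := by rw [mk_set, mk_nat]
  rw [← this]
  exact mk_set_le A

/-- If `2 ^ ω < 2 ^ 𝔭` then `p_K(⋆, J) = 𝔭` for every ideal `J` on a countable set. -/
theorem pKStar_eq {α : Type} [Countable α] (J : IdealOn α)
    (h : (2 : Cardinal.{0}) ^ ℵ₀ < 2 ^ pNumber) : pKStar J = (pNumber : WithTop Cardinal.{0}) :=
  le_antisymm (pKStar_le J pNumber_le_continuum h) (pNumber_le J)

/-- If `F` has the strong finite intersection property but no countable `π`-base and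
`2 ^ |F| ≤ 2 ^ ω` then there are ideals with `p_K(⋆, J₀ ∩ J₁) ≤ |F| < p_K(⋆, J₀ ⊕ J₁)`. -/
theorem exists_pKStar_lt {F : Set (Set ℕ)} (hF : SFIP F) (hπ : ¬ ∃ R, IsPiBase F R)
    (h : (2 : Cardinal.{0}) ^ #F ≤ 2 ^ ℵ₀) :
    ∃ J₀ J₁ : IdealOn ℕ, pKStar (J₀.inter J₁) ≤ (#F : WithTop Cardinal.{0}) ∧
      (#F : WithTop Cardinal.{0}) < pKStar (J₀.sum J₁) := by
  obtain ⟨M, hM⟩ := exists_ideal_above h
  refine ⟨(projIdeal M).map Nat.pairEquiv, (secIdeal M).map Nat.pairEquiv, ?_, ?_⟩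
  · have hcc : compl '' (compl '' F) = F := by
      rw [Set.image_image]
      simp
    have hle : #(compl '' F) ≤ #F := mk_image_le
    refine le_trans (least_le ⟨compl '' F, ?_, ?_, rfl⟩) (WithTop.coe_le_coe.2 hle)
    · rw [generates_iff, hcc]
      exact hF
    · intro hk
      rw [IdealOn.map_inter, kLe_map] at hk
      obtain ⟨R, hR1, hR2⟩ := exists_pi hk
      refine hπ ⟨R, fun a ha n => ?_, fun a ha => ?_⟩
      · have := hR1 aᶜ ⟨a, ha, rfl⟩ n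
        rwa [compl_compl] at this
      · have := hR2 aᶜ ⟨a, ha, rfl⟩
        rwa [compl_compl] at this
  · refine lt_least ?_
    rintro μ ⟨A, h1, h2, rfl⟩
    by_contra hlt
    push Not at hlt
    refine h2 (kLe_sum.2 ⟨?_, ?_⟩)
    · exact kLe_map.2 (kLe_projIdeal (hM A h1 hlt))
    · exact kLe_map.2 (kLe_secIdeal (hM A h1 hlt))

/-- A tower without pseudointersection gives a family without a countable `π`-base. -/
theorem exists_noPi_of_tower {A : Set (Set ℕ)} (hinf : ∀ a ∈ A, a.Infinite) (hl : Linear A)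
    (h : ¬ HasPseudo A) : ∃ F : Set (Set ℕ), SFIP F ∧ (¬ ∃ R, IsPiBase F R) ∧ #F ≤ #A := by
  have hA : SFIP A := sfip_of_linear hinf hl
  have hAω : ℵ₀ < #A := aleph0_lt_of_not_pseudo hA h
  refine ⟨Set.range fun p : A × ℕ => p.1.1 \ Set.Iio p.2, ?_, ?_, ?_⟩
  · have hinf' : ∀ a ∈ Set.range fun p : A × ℕ => p.1.1 \ Set.Iio p.2, a.Infinite := by
      rintro _ ⟨p, rfl⟩
      exact (hinf _ p.1.2).sdiff (Set.finite_Iio _)
    refine sfip_of_linear hinf' ?_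
    rintro _ ⟨p, rfl⟩ _ ⟨q, rfl⟩
    have key : ∀ p q : A × ℕ, (p.1.1 \ q.1.1).Finite →
        ((p.1.1 \ Set.Iio p.2) \ (q.1.1 \ Set.Iio q.2)).Finite := by
      intro p q hfin
      refine (hfin.union (Set.finite_Iio q.2)).subset ?_
      rintro x ⟨hx, hx'⟩
      by_cases hx2 : x ∈ q.1.1
      · right
        by_contra hx3
        exact hx' ⟨hx2, hx3⟩
      · exact Or.inl ⟨hx.1, hx2⟩
    rcases hl _ p.1.2 _ q.1.2 with h1 | h1
    · exact Or.inl (key p q h1)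
    · exact Or.inr (key q p h1)
  · rintro ⟨R, hR1, hR2⟩
    have h1 : ∀ n, ∀ a ∈ A, (R n ∩ a).Infinite := by
      intro n a ha hfin
      obtain ⟨m, hm⟩ := hfin.bddAbove
      obtain ⟨x, hx, hx'⟩ := hR1 _ ⟨(⟨a, ha⟩, m + 1), rfl⟩ n
      have := hm ⟨hx, hx'.1⟩
      exact hx'.2 (Nat.lt_succ_of_le this)
    obtain ⟨a₀, ha₀⟩ : A.Nonempty := by
      rw [Set.nonempty_iff_ne_empty]
      rintro rfl
      simp at hAω
    have h2 : ∀ n, ∃ a ∈ A, ¬ (R n \ a).Finite := by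
      intro n
      by_contra hne
      push Not at hne
      exact h ⟨R n, (h1 n a₀ ha₀).mono Set.inter_subset_left, hne⟩
    choose e he he' using h2
    obtain ⟨a, ha, hae⟩ := exists_le_of_tower hinf hl h e he
    obtain ⟨n, hn⟩ := hR2 _ ⟨(⟨a, ha⟩, 0), rfl⟩
    refine he' n ((hae n).subset ?_)
    rintro x ⟨hx, hx'⟩
    exact ⟨(hn hx).1, hx'⟩
  · refine mk_range_le.trans ?_
    rw [mk_prod, lift_id, lift_id, mk_nat]
    exact mul_le_of_le hAω.le le_rfl hAω.le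

/-- If `2 ^ 𝔱 = 2 ^ ω` then (iv) fails. -/
theorem exists_pKStar_lt_of_tNumber (h : (2 : Cardinal.{0}) ^ tNumber ≤ 2 ^ ℵ₀) :
    ∃ J₀ J₁ : IdealOn ℕ, pKStar (J₀.inter J₁) < pKStar (J₀.sum J₁) := by
  obtain ⟨A, h1, h2, h3, h4⟩ := tNumber_mem
  obtain ⟨F, hF1, hF2, hF3⟩ := exists_noPi_of_tower h1 h2 h3
  obtain ⟨J₀, J₁, h5, h6⟩ := exists_pKStar_lt hF1 hF2
    ((power_le_power_left two_ne_zero (hF3.trans h4.le)).trans h)
  exact ⟨J₀, J₁, h5.trans_lt h6⟩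

end Pool.Agent.H36.Slalom
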