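import Pool.Agent.H36.Slalom.Build

/-!
# Parts (i) and (iii): failure of the equalities under a weak Freese-Nation principle
-/

set_option autoImplicit false

noncomputable section

namespace Pool.Agent.H36.Slalom

open Cardinal

/-! ### The ideals of a system -/

/-- The ideal of colour `b` of a system. -/
def Sys.ideal {T : Set (Set ℕ)} {Λ : Type} [LinearOrder Λ] [WellFoundedLT Λ] (K : Sys T Λ)
    (hinf : ∀ a ∈ T, a.Infinite) (hl : Linear T) (hTp : ¬ HasPseudo T) (b : Bool) :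
    IdealOn ℕ where
  sets := {Y | K.Small b Set.univ Y}
  finite_mem := fun s hs => Sys.small_finite hs
  union_mem := fun s hs t ht => Sys.Small.union hs ht
  subset_mem := fun t ht s hst => Sys.Small.mono ht hst
  univ_notMem := by
    intro h
    refine Sys.not_viol (K := K) hinf hl hTp ⟨Set.univ, id, T, le_rfl, hTp,
      ⟨fun b' => if b' = b then Set.univ else ∅, fun b' => ?_, fun x _ => ?_⟩, fun t _ b' => ?_⟩
    · dsimp only
      by_cases hb : b' = b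
      · rw [if_pos hb, hb]
        exact h
      · rw [if_neg hb]
        exact Sys.small_finite Set.finite_empty
    · refine Set.mem_iUnion.2 ⟨b, ?_⟩
      rw [if_pos rfl]
      trivial
    · refine (Sys.small_finite Set.finite_empty).mono ?_
      rintro c ⟨hc, _⟩
      exact absurd trivial hc

/-- The ideal dual to the filter generated by a tower. -/
def towerIdeal {T : Set (Set ℕ)} (hinf : ∀ a ∈ T, a.Infinite) (hl : Linear T) : IdealOn ℕ where
  sets := {s | ∃ B : Set (Set ℕ), B ⊆ T ∧ B.Finite ∧ (s ∩ ⋂₀ B).Finite}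
  finite_mem := fun s hs => ⟨∅, Set.empty_subset _, Set.finite_empty, hs.subset Set.inter_subset_left⟩
  union_mem := by
    rintro s ⟨B, h1, h2, h3⟩ t ⟨C, k1, k2, k3⟩
    refine ⟨B ∪ C, Set.union_subset h1 k1, h2.union k2, (h3.union k3).subset ?_⟩
    rintro x ⟨hx | hx, hx'⟩
    · exact Or.inl ⟨hx, fun b hb => hx' b (Or.inl hb)⟩
    · exact Or.inr ⟨hx, fun b hb => hx' b (Or.inr hb)⟩
  subset_mem := by
    rintro t ⟨B, h1, h2, h3⟩ s hst
    exact ⟨B, h1, h2, h3.subset fun x hx => ⟨hst hx.1, hx.2⟩⟩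
  univ_notMem := by
    rintro ⟨B, h1, h2, h3⟩
    refine sfip_of_linear hinf hl B h1 h2 ?_
    rwa [Set.univ_inter] at h3

/-- The slalom of a member of the tower. -/
def slal (t : Set ℕ) (c : ℕ) : Set ℕ := {v | ¬ (v ∈ t ∧ c < v)}

theorem slal_mem {T : Set (Set ℕ)} (hinf : ∀ a ∈ T, a.Infinite) (hl : Linear T) {t : Set ℕ}
    (ht : t ∈ T) (c : ℕ) : slal t c ∈ towerIdeal hinf hl := by
  refine ⟨{t}, Set.singleton_subset_iff.2 ht, Set.finite_singleton t,
    (Set.finite_Iic c).subset ?_⟩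
  rintro v ⟨hv, hvt⟩
  rw [Set.sInter_singleton] at hvt
  exact not_lt.1 fun h => hv ⟨hvt, h⟩

theorem slE_inter_le_tNumber {T : Set (Set ℕ)} {Λ : Type} [LinearOrder Λ] [WellFoundedLT Λ]
    (K : Sys T Λ) (hinf : ∀ a ∈ T, a.Infinite) (hl : Linear T) (hTp : ¬ HasPseudo T)
    (hT : #T = tNumber) :
    slE (towerIdeal hinf hl) ((K.ideal hinf hl hTp false).inter (K.ideal hinf hl hTp true)) ≤
      (tNumber : WithTop Cardinal.{0}) := by
  have h1 : slE (towerIdeal hinf hl)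
      ((K.ideal hinf hl hTp false).inter (K.ideal hinf hl hTp true)) ≤
      (#(slal '' T) : WithTop Cardinal.{0}) := by
    refine least_le ⟨slal '' T, ?_, fun x => ?_, rfl⟩
    · rintro _ ⟨t, ht, rfl⟩ n
      exact slal_mem hinf hl ht n
    · by_contra hne
      push Not at hne
      refine Sys.not_viol (K := K) hinf hl hTp ⟨∅, x, T, le_rfl, hTp,
        ⟨fun _ => ∅, fun _ => Sys.small_finite Set.finite_empty, Set.empty_subset _⟩,
        fun t ht b => ?_⟩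
      have h2 := hne (slal t) ⟨t, ht, rfl⟩
      have h3 : K.Small b Set.univ {n | x n ∈ slal t n} := by
        rcases b with _ | _
        · exact h2.1
        · exact h2.2
      refine h3.mono ?_
      rintro c ⟨_, hc⟩
      exact hc
  refine h1.trans (WithTop.coe_le_coe.2 ?_)
  rw [← hT]
  exact mk_image_le

/-! ### Tasks -/

/-- A task: a colour and a small family of slaloms for one ideal. -/
abbrev Task : Type := {p : Bool × Set (ℕ → Set ℕ) // #p.2 ≤ tNumber ∧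
  ∃ I : IdealOn ℕ, ∀ s ∈ p.2, ∀ n, s n ∈ I}

theorem mk_task_le (h : (2 : Cardinal.{0}) ^ tNumber ≤ 2 ^ ℵ₀) : #Task ≤ 2 ^ ℵ₀ := by
  have h1 : #Task ≤ #(Bool × {S : Set (ℕ → Set ℕ) // #S ≤ tNumber}) :=
    mk_le_of_injective (f := fun p : Task => (p.1.1, ⟨p.1.2, p.2.1⟩)) (by
      rintro ⟨⟨b, S⟩, h1⟩ ⟨⟨b', S'⟩, h2⟩ heq
      simp only [Prod.mk.injEq, Subtype.mk.injEq] at heq
      obtain ⟨rfl, rfl⟩ := heq
      rfl)
  refine h1.trans ?_
  have hc : ℵ₀ ≤ (2 : Cardinal.{0}) ^ ℵ₀ := (cantor ℵ₀).le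
  have h2 : #{S : Set (ℕ → Set ℕ) // #S ≤ tNumber} ≤ 2 ^ ℵ₀ := by
    refine (mk_bounded_set_le (ℕ → Set ℕ) tNumber).trans ?_
    have e1 : #(ℕ → Set ℕ) = 2 ^ ℵ₀ := by
      rw [mk_arrow]
      simp only [lift_id, mk_set, mk_nat]
      rw [← power_mul, aleph0_mul_aleph0]
    rw [e1, max_eq_left hc, ← power_mul, mul_comm, power_mul]
    calc ((2 : Cardinal.{0}) ^ tNumber) ^ ℵ₀ ≤ (2 ^ ℵ₀) ^ ℵ₀ := power_le_power_right h
      _ = 2 ^ ℵ₀ := by rw [← power_mul, aleph0_mul_aleph0]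
  rw [mk_prod, lift_id, lift_id]
  refine mul_le_of_le hc ?_ h2
  rw [mk_bool]
  exact (natCast_le_aleph0 (n := 2)).trans hc

theorem exists_ideal_nonempty : Nonempty (IdealOn ℕ) := by
  obtain ⟨I, _⟩ := exists_maximal
  exact ⟨I⟩

instance : Nonempty Task := by
  obtain ⟨I⟩ := exists_ideal_nonempty
  exact ⟨⟨(true, ∅), by simp, I, fun s hs => absurd hs (Set.notMem_empty s)⟩⟩

/-- **Failure of (i) and (iii).**  Suppose there is a Freese-Nation function `f` on `P(ω)` with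
values of size less than `𝔱`, `cov(M) = 2 ^ ω` and `2 ^ 𝔱 = 2 ^ ω`.  Then there are ideals
`J₀, J₁` with `sl_e(I, J₀ ∩ J₁) ≤ 𝔱` for some `I` and `𝔱 < sl_e(I, J₀ ⊕ J₁)` for all `I`. -/
theorem exists_slE_lt {f : Set ℕ → Set (Set ℕ)} (hf : ∀ A, #(f A) < tNumber)
    (hf2 : ∀ A B, A ⊆ B → ∃ C ∈ f A, C ∈ f B ∧ A ⊆ C ∧ C ⊆ B)
    (hcov : covM = 2 ^ ℵ₀) (h2 : (2 : Cardinal.{0}) ^ tNumber ≤ 2 ^ ℵ₀) :
    ∃ J₀ J₁ : IdealOn ℕ,
      (∃ I : IdealOn ℕ, slE I (J₀.inter J₁) ≤ (tNumber : WithTop Cardinal.{0})) ∧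
      ∀ I : IdealOn ℕ, (tNumber : WithTop Cardinal.{0}) < slE I (J₀.sum J₁) := by
  classical
  obtain ⟨T, hinf, hl, hTp, hTc⟩ := tNumber_mem
  have htc : tNumber < 2 ^ ℵ₀ := (cantor tNumber).trans_le h2
  -- transfer of `f`
  obtain ⟨e⟩ : Nonempty (ℕ ≃ X3) := nonempty_equiv_of_countable
  set f' : Set X3 → Set (Set X3) := fun A => (fun C => e '' C) '' f (e ⁻¹' A) with hf'
  have hf'1 : ∀ A, #(f' A) < tNumber := fun A => mk_image_le.trans_lt (hf _)
  have hf'2 : ∀ A B, A ⊆ B → ∃ C ∈ f' A, C ∈ f' B ∧ A ⊆ C ∧ C ⊆ B := by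
    intro A B hAB
    obtain ⟨C, hCA, hCB, h3, h4⟩ := hf2 (e ⁻¹' A) (e ⁻¹' B) (Set.preimage_mono hAB)
    refine ⟨e '' C, ⟨C, hCA, rfl⟩, ⟨C, hCB, rfl⟩, fun a ha => ?_, ?_⟩
    · refine ⟨e.symm a, h3 ?_, e.apply_symm_apply a⟩
      show e (e.symm a) ∈ A
      rw [e.apply_symm_apply]
      exact ha
    · rintro _ ⟨c, hc, rfl⟩
      exact h4 hc
  -- the index set and the tasks
  set Λ : Type := ((2 : Cardinal.{0}) ^ ℵ₀).ord.ToType with hΛ
  have hΛc : #Λ = 2 ^ ℵ₀ := by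
    rw [hΛ, mk_toType, card_ord]
  have hIio : ∀ ξ : Λ, #(Set.Iio ξ) < 2 ^ ℵ₀ := fun ξ => by
    have h1 := mk_Iio_lt ξ (by
      rw [hΛc]
      exact (Ordinal.type_toType _).symm)
    rwa [hΛc] at h1
  have hle : #Task ≤ #Λ := by
    rw [hΛc]
    exact mk_task_le h2
  obtain ⟨ι⟩ := hle
  set task : Λ → Task := Function.invFun ι with htask
  have hsurj : Function.Surjective task := Function.invFun_surjective ι.injective
  set col : Λ → Bool := fun ξ => (task ξ).1.1 with hcol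
  set S : Λ → Set (ℕ → Set ℕ) := fun ξ => (task ξ).1.2 with hSdef
  have hSc : ∀ ξ, #(S ξ) ≤ tNumber := fun ξ => (task ξ).2.1
  have hId : ∀ ξ, ∃ I : IdealOn ℕ, ∀ s ∈ S ξ, ∀ n, s n ∈ I := fun ξ => (task ξ).2.2
  choose Id hId using hId
  have hsmall : ∀ ξ, #(cl f' (base T S (zfun T f' S) ξ)) < covM := by
    intro ξ
    rw [hcov]
    have hκ : ℵ₀ ≤ max (#(Set.Iio ξ)) tNumber := aleph0_lt_tNumber.le.trans (le_max_right _ _)
    refine lt_of_le_of_lt (mk_cl_le hκ (fun A => (hf'1 A).le.trans (le_max_right _ _)) ?_)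
      (max_lt (hIio ξ) htc)
    exact mk_base_le hκ (hTc.le.trans (le_max_right _ _))
      (fun ξ => (hSc ξ).trans (le_max_right _ _)) (le_max_left _ _)
  set K : Sys T Λ := mkSys T f' col S Id hId hf'1 hf'2 hsmall with hK
  refine ⟨K.ideal hinf hl hTp false, K.ideal hinf hl hTp true,
    ⟨towerIdeal hinf hl, slE_inter_le_tNumber K hinf hl hTp hTc⟩, fun I => ?_⟩
  refine lt_least ?_
  rintro μ ⟨F, hFI, hFx, rfl⟩
  by_contra hle
  push Not at hle
  -- the generic functions which evade the two parts of `F`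
  have hex : ∀ b : Bool, ∃ x : ℕ → ℕ, ∀ s ∈ F, K.Small b Set.univ {n | x n ∈ s (b, n)} := by
    intro b
    obtain ⟨ξ, hξ⟩ := hsurj ⟨(b, (fun s n => s (b, n)) '' F), mk_image_le.trans hle, I, by
      rintro _ ⟨s, hs, rfl⟩ n
      exact hFI s hs _⟩
    have h3 : K.col ξ = b := by
      show (task ξ).1.1 = b
      rw [hξ]
    have h4 : K.S ξ = (fun (s : Bool × ℕ → Set ℕ) n => s (b, n)) '' F := by
      show (task ξ).1.2 = _
      rw [hξ]
    refine ⟨K.z ξ, fun s hs => ⟨{(ξ, fun n => s (b, n))}, ?_, ?_⟩⟩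
    · intro q hq
      rw [Finset.mem_singleton] at hq
      subst hq
      refine ⟨trivial, h3, ?_⟩
      rw [h4]
      exact ⟨s, hs, rfl⟩
    · convert Set.finite_empty
      rw [Set.eq_empty_iff_forall_notMem]
      rintro n ⟨hn, hn'⟩
      exact hn' (Set.mem_biUnion (Finset.mem_singleton_self _) hn)
  choose x hx using hex
  obtain ⟨s, hs, hns⟩ := hFx fun p => x p.1 p.2
  refine hns ⟨?_, ?_⟩
  · exact hx false s hs
  · exact hx true s hs

/-- The same for the numbers `sl_e(⋆, J)`. -/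
theorem slEStar_lt_of {J₀ J₁ : IdealOn ℕ} {κ : Cardinal.{0}}
    (h1 : ∃ I : IdealOn ℕ, slE I (J₀.inter J₁) ≤ (κ : WithTop Cardinal.{0}))
    (h2 : ∀ I : IdealOn ℕ, (κ : WithTop Cardinal.{0}) < slE I (J₀.sum J₁)) :
    slEStar (J₀.inter J₁) < slEStar (J₀.sum J₁) := by
  obtain ⟨I, hI⟩ := h1
  have h3 : slEStar (J₀.inter J₁) ≤ (κ : WithTop Cardinal.{0}) := by
    obtain ⟨μ, hμ⟩ := WithTop.ne_top_iff_exists.1 (ne_top_of_le_ne_top WithTop.coe_ne_top hI)
    refine le_trans (least_le ⟨I, hμ.symm⟩) ?_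
    rw [hμ]
    exact hI
  refine h3.trans_lt (lt_least ?_)
  rintro μ ⟨I', hI'⟩
  have := h2 I'
  rw [hI'] at this
  exact WithTop.coe_lt_coe.1 this

end Pool.Agent.H36.Slalom
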