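import Pool.Agent.H36.Slalom.Basic

/-!
# Slalom numbers and Katetov numbers: the numbers with a fixed ideal
-/

set_option autoImplicit false

noncomputable section

namespace Pool.Agent.H36.Slalom

open Cardinal

variable {α β : Type}

theorem least_le_least {S T : Set Cardinal.{0}} (h : ∀ κ ∈ T, ∃ κ' ∈ S, κ' ≤ κ) :
    least S ≤ least T := by
  by_cases hT : T.Nonempty
  · rw [least_eq hT]
    obtain ⟨κ', h1, h2⟩ := h _ (csInf_mem hT)
    exact (least_le h1).trans (WithTop.coe_le_coe.2 h2)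
  · rw [least_empty hT]
    exact le_top

/-- A finite union of members of an ideal does not cover everything. -/
theorem exists_notMem_of_finite {I : IdealOn ℕ} {A : Set (Set ℕ)} (hA : A.Finite)
    (hI : ∀ a ∈ A, a ∈ I) : ∃ n, ∀ a ∈ A, n ∉ a := by
  have h : ⋃₀ A ∈ I := by
    induction A, hA using Set.Finite.induction_on with
    | empty =>
      rw [Set.sUnion_empty]
      exact I.finite_mem _ Set.finite_empty
    | @insert a B _ _ ih =>
      rw [Set.sUnion_insert]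
      exact I.union_mem _ (hI a (Set.mem_insert _ _)) _
        (ih fun b hb => hI b (Set.mem_insert_of_mem _ hb))
  by_contra hne
  push Not at hne
  refine I.univ_notMem (I.subset_mem _ h _ fun n _ => ?_)
  obtain ⟨a, ha, hn⟩ := hne n
  exact ⟨a, ha, hn⟩

theorem kLe_of_finite {I : IdealOn ℕ} {A : Set (Set ℕ)} (hA : A.Finite)
    (hI : ∀ a ∈ A, a ∈ I) (J : IdealOn α) : KLe A J := by
  obtain ⟨n, hn⟩ := exists_notMem_of_finite hA hI
  refine ⟨fun _ => n, fun a ha => ?_⟩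
  have : (fun _ : α => n) ⁻¹' a = ∅ := by
    ext m
    simp [hn a ha]
  rw [this]
  exact J.finite_mem _ Set.finite_empty

/-- There is an operation `h : ω × ω → ω` such that for every `a ∈ I` both projections of
`h ⁻¹[a]` belong to `I`. -/
def Doubling (I : IdealOn ℕ) : Prop :=
  ∃ h : ℕ → ℕ → ℕ, ∀ a ∈ I, {x | ∃ y, h x y ∈ a} ∈ I ∧ {y | ∃ x, h x y ∈ a} ∈ I

/-- The two projections of the preimage. -/
def prj (h : ℕ → ℕ → ℕ) (b : Bool) (a : Set ℕ) : Set ℕ :=
  {x | ∃ y, (bif b then h y x else h x y) ∈ a}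

/-- Iterated projections. -/
def prjs (h : ℕ → ℕ → ℕ) (w : List Bool) (a : Set ℕ) : Set ℕ := w.foldr (prj h) a

theorem prjs_mem {h : ℕ → ℕ → ℕ} {I : IdealOn ℕ}
    (hI : ∀ a ∈ I, {x | ∃ y, h x y ∈ a} ∈ I ∧ {y | ∃ x, h x y ∈ a} ∈ I) (w : List Bool)
    {a : Set ℕ} (ha : a ∈ I) : prjs h w a ∈ I := by
  induction w with
  | nil => exact ha
  | cons b w ih =>
    cases b
    · exact (hI _ ih).1
    · exact (hI _ ih).2

theorem mk_image_prod_le {ι : Type} {X Y : Type} (A : Set X) [Countable ι] [Nonempty ι]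
    (hA : A.Infinite) (f : ι → X → Y) :
    #{y : Y | ∃ w : ι, ∃ a ∈ A, y = f w a} ≤ #A := by
  have h1 : {y : Y | ∃ w : ι, ∃ a ∈ A, y = f w a} =
      Set.range fun p : ι × A => f p.1 p.2 := by
    ext y
    constructor
    · rintro ⟨w, a, ha, rfl⟩
      exact ⟨(w, ⟨a, ha⟩), rfl⟩
    · rintro ⟨⟨w, a, ha⟩, rfl⟩
      exact ⟨w, a, ha, rfl⟩
  rw [h1]
  refine mk_range_le.trans ?_
  rw [mk_prod, lift_id, lift_id]
  have h2 : ℵ₀ ≤ #A := by
    rw [Cardinal.infinite_iff.symm]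
    exact hA.to_subtype
  exact mul_le_of_le h2 (mk_le_aleph0.trans h2) le_rfl

theorem pK_inter_le (I : IdealOn ℕ) (J₀ J₁ : IdealOn α) : pK I (J₀.inter J₁) ≤ pK I (J₀.sum J₁) :=
  least_le_least fun κ ⟨A, h1, h2, h3⟩ =>
    ⟨κ, ⟨A, h1, fun h => h2 (kLe_sum.2 (kLe_of_inter h)), h3⟩, le_rfl⟩

theorem pKStar_inter_le (J₀ J₁ : IdealOn α) : pKStar (J₀.inter J₁) ≤ pKStar (J₀.sum J₁) :=
  least_le_least fun κ ⟨A, h1, h2, h3⟩ =>
    ⟨κ, ⟨A, h1, fun h => h2 (kLe_sum.2 (kLe_of_inter h)), h3⟩, le_rfl⟩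

theorem pK_eq_of_doubling {I : IdealOn ℕ} (hI : Doubling I) (J₀ J₁ : IdealOn α) :
    pK I (J₀.inter J₁) = pK I (J₀.sum J₁) := by
  refine le_antisymm (pK_inter_le I J₀ J₁) (least_le_least ?_)
  rintro κ ⟨A, h1, h2, rfl⟩
  obtain ⟨h, hh⟩ := hI
  have hinf : A.Infinite := fun hfin => h2 (kLe_of_finite hfin h1 _)
  refine ⟨_, ⟨{y | ∃ w : List Bool, ∃ a ∈ A, y = prjs h w a}, ?_, ?_, rfl⟩,
    mk_image_prod_le A hinf _⟩
  · rintro _ ⟨w, a, ha, rfl⟩
    exact prjs_mem hh w (h1 a ha)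
  · intro hk
    obtain ⟨⟨f, hf⟩, ⟨g, hg⟩⟩ := kLe_sum.1 hk
    refine h2 ⟨fun n => h (f n) (g n), fun a ha => ⟨?_, ?_⟩⟩
    · exact J₀.subset_mem _ (hf _ ⟨[false], a, ha, rfl⟩) _ fun n hn => ⟨g n, hn⟩
    · exact J₁.subset_mem _ (hg _ ⟨[true], a, ha, rfl⟩) _ fun n hn => ⟨f n, hn⟩

/-- (ii) for the ideal `I`: the equality holds for all ideals `J₀`, `J₁` if and only if `I` is
doubling. -/
theorem pK_iff_doubling (I : IdealOn ℕ) :
    (∀ J₀ J₁ : IdealOn ℕ, pK I (J₀.inter J₁) = pK I (J₀.sum J₁)) ↔ Doubling I := by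
  refine ⟨fun hall => ?_, fun hI J₀ J₁ => pK_eq_of_doubling hI J₀ J₁⟩
  have key := hall ((projIdeal I).map Nat.pairEquiv)
    (((projIdeal I).map (Equiv.prodComm ℕ ℕ)).map Nat.pairEquiv)
  have hsum : pK I (((projIdeal I).map Nat.pairEquiv).sum
      (((projIdeal I).map (Equiv.prodComm ℕ ℕ)).map Nat.pairEquiv)) = ⊤ := by
    apply least_empty
    rintro ⟨κ, A, h1, h2, -⟩
    apply h2
    have h3 : KLe A (projIdeal I) := kLe_projIdeal ⟨id, fun a ha => h1 a ha⟩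
    rw [kLe_sum, kLe_map, kLe_map, kLe_map]
    exact ⟨h3, h3⟩
  rw [hsum, IdealOn.map_inter] at key
  have h4 : KLe I.sets (((projIdeal I).inter
      ((projIdeal I).map (Equiv.prodComm ℕ ℕ))).map Nat.pairEquiv) := by
    by_contra hne
    have h5 := least_le (S := {κ | ∃ A : Set (Set ℕ), (∀ a ∈ A, a ∈ I) ∧
      ¬ KLe A (((projIdeal I).inter
      ((projIdeal I).map (Equiv.prodComm ℕ ℕ))).map Nat.pairEquiv) ∧ #A = κ})
      ⟨I.sets, fun a ha => ha, hne, rfl⟩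
    unfold pK at key
    rw [key] at h5
    exact absurd h5 (by simp)
  rw [kLe_map] at h4
  obtain ⟨f, hf⟩ := h4
  exact ⟨fun x y => f (x, y), fun a ha => ⟨(hf a ha).1, (hf a ha).2⟩⟩

/-! ### Maximal ideals are not doubling -/

/-- Points chosen from infinite sets. -/
theorem exists_strictMono_choice (R : ℕ → Set ℕ) (hR : ∀ n, (R n).Infinite) :
    ∃ r : ℕ → ℕ, StrictMono r ∧ ∀ n, r n ∈ R n := by
  have h : ∀ n m, ∃ k ∈ R n, m < k := fun n m => by
    obtain ⟨k, hk, hk'⟩ := (hR n).exists_gt m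
    exact ⟨k, hk, hk'⟩
  choose g hg hg' using h
  refine ⟨fun n => Nat.rec (g 0 0) (fun n k => g (n + 1) k) n,
    strictMono_nat_of_lt_succ fun n => hg' _ _, fun n => ?_⟩
  cases n with
  | zero => exact hg 0 0
  | succ n => exact hg _ _

/-- A set which splits countably many infinite sets. -/
theorem exists_split {γ : Type} [Countable γ] (R : γ → Set ℕ) (hR : ∀ c, (R c).Infinite) :
    ∃ X : Set ℕ, ∀ c, (R c ∩ X).Nonempty ∧ (R c ∩ Xᶜ).Nonempty := by
  cases isEmpty_or_nonempty γ with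
  | inl h => exact ⟨∅, fun c => h.elim c⟩
  | inr h =>
    obtain ⟨e, he⟩ := exists_surjective_nat γ
    obtain ⟨r, hr, hr'⟩ := exists_strictMono_choice (fun n => R (e (n / 2)))
      fun n => hR _
    refine ⟨{m | ∃ n, m = r (2 * n)}, fun c => ?_⟩
    obtain ⟨n, rfl⟩ := he c
    constructor
    · refine ⟨r (2 * n), ?_, n, rfl⟩
      have := hr' (2 * n)
      rwa [Nat.mul_div_cancel_left n two_pos] at this
    · refine ⟨r (2 * n + 1), ?_, ?_⟩
      · have := hr' (2 * n + 1)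
        have h2 : (2 * n + 1) / 2 = n := by omega
        rwa [h2] at this
      · rintro ⟨m, hm⟩
        have := hr.injective hm
        omega

/-- A maximal ideal is not doubling: the failure of (ii). -/
theorem not_doubling_of_maximal {I : IdealOn ℕ} (hI : ∀ a : Set ℕ, a ∈ I ∨ aᶜ ∈ I) :
    ¬ Doubling I := by
  rintro ⟨h, hh⟩
  have hR : ∀ c, (Set.range (h c)).Infinite := by
    intro c hfin
    have h1 := (hh _ (I.finite_mem _ hfin)).2
    refine I.univ_notMem (I.subset_mem _ h1 _ fun y _ => ⟨c, y, rfl⟩)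
  obtain ⟨X, hX⟩ := exists_split _ hR
  rcases hI X with h1 | h1
  · refine I.univ_notMem (I.subset_mem _ (hh _ h1).1 _ fun x _ => ?_)
    obtain ⟨_, ⟨y, rfl⟩, hy⟩ := (hX x).1
    exact ⟨y, hy⟩
  · refine I.univ_notMem (I.subset_mem _ (hh _ h1).1 _ fun x _ => ?_)
    obtain ⟨_, ⟨y, rfl⟩, hy⟩ := (hX x).2
    exact ⟨y, hy⟩

theorem exists_maximal : ∃ I : IdealOn ℕ, ∀ a : Set ℕ, a ∈ I ∨ aᶜ ∈ I := by
  refine ⟨{ sets := {s | sᶜ ∈ Filter.hyperfilter ℕ}
            finite_mem := fun s hs => Filter.compl_mem_hyperfilter_of_finite hs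
            union_mem := fun s hs t ht => ?_
            subset_mem := fun t ht s hst =>
              Filter.mem_of_superset ht (Set.compl_subset_compl.2 hst)
            univ_notMem := ?_ }, fun a => ?_⟩
  · rw [Set.mem_ofPred_eq, Set.compl_union]
    exact Filter.inter_mem hs ht
  · rw [Set.mem_ofPred_eq, Set.compl_univ]
    exact Filter.empty_notMem _
  · rcases (Filter.hyperfilter ℕ).mem_or_compl_mem a with h | h
    · right
      rw [IdealOn.mem_iff, Set.mem_ofPred_eq, compl_compl]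
      exact h
    · exact Or.inl h

/-- The ideal of finite sets is doubling. -/
theorem doubling_fin {I : IdealOn ℕ} (hI : ∀ a : Set ℕ, a ∈ I → a.Finite) : Doubling I := by
  refine ⟨fun x y => max x y, fun a ha => ?_⟩
  obtain ⟨n, hn⟩ := (hI a ha).bddAbove
  constructor
  · refine I.finite_mem _ ((Set.finite_Iic n).subset ?_)
    rintro x ⟨y, hy⟩
    exact (le_max_left x y).trans (hn hy)
  · refine I.finite_mem _ ((Set.finite_Iic n).subset ?_)
    rintro y ⟨x, hy⟩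
    exact (le_max_right x y).trans (hn hy)

/-! ### Slalom numbers -/

theorem slE_inter_le (I : IdealOn ℕ) (J₀ J₁ : IdealOn α) :
    slE I (J₀.inter J₁) ≤ slE I (J₀.sum J₁) := by
  refine least_le_least ?_
  rintro κ ⟨S, h1, h2, rfl⟩
  refine ⟨_, ⟨(fun (s : Bool × α → Set ℕ) n => s (false, n) ∪ s (true, n)) '' S, ?_, ?_, rfl⟩,
    mk_image_le⟩
  · rintro _ ⟨s, hs, rfl⟩ n
    exact I.union_mem _ (h1 s hs _) _ (h1 s hs _)
  · intro x
    obtain ⟨s, hs, hx⟩ := h2 fun p => x p.2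
    refine ⟨_, ⟨s, hs, rfl⟩, fun hmem => hx ⟨?_, ?_⟩⟩
    · exact J₀.subset_mem _ hmem.1 _ fun n hn => Or.inl hn
    · exact J₁.subset_mem _ hmem.2 _ fun n hn => Or.inr hn

theorem slE_eq_of_doubling {I : IdealOn ℕ} (hI : Doubling I) (J₀ J₁ : IdealOn α) :
    slE I (J₀.inter J₁) = slE I (J₀.sum J₁) := by
  refine le_antisymm (slE_inter_le I J₀ J₁) (least_le_least ?_)
  rintro κ ⟨S, h1, h2, rfl⟩
  obtain ⟨h, hh⟩ := hI
  have hinf : S.Infinite := by
    intro hfin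
    have h3 : ∀ n : α, ∃ m, ∀ s ∈ S, m ∉ s n := by
      intro n
      obtain ⟨m, hm⟩ := exists_notMem_of_finite (I := I) (A := (fun s => s n) '' S)
        (hfin.image _) (by
          rintro _ ⟨s, hs, rfl⟩
          exact h1 s hs n)
      exact ⟨m, fun s hs => hm _ ⟨s, hs, rfl⟩⟩
    choose x hx using h3
    obtain ⟨s, hs, hxs⟩ := h2 x
    apply hxs
    have : {n | x n ∈ s n} = ∅ := by
      ext n
      simp [hx n s hs]
    rw [this]
    exact (J₀.inter J₁).finite_mem _ Set.finite_empty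
  refine ⟨_, ⟨{y | ∃ w : List Bool, ∃ s ∈ S, y = fun p : Bool × α => prjs h w (s p.2)}, ?_, ?_,
    rfl⟩, mk_image_prod_le S hinf _⟩
  · rintro _ ⟨w, s, hs, rfl⟩ n
    exact prjs_mem hh w (h1 s hs _)
  · intro x
    by_contra hne
    push Not at hne
    obtain ⟨s, hs, hxs⟩ := h2 fun n => h (x (false, n)) (x (true, n))
    refine hxs ⟨?_, ?_⟩
    · exact J₀.subset_mem _ (hne _ ⟨[false], s, hs, rfl⟩).1 _ fun n hn => ⟨x (true, n), hn⟩
    · exact J₁.subset_mem _ (hne _ ⟨[true], s, hs, rfl⟩).2 _ fun n hn => ⟨x (false, n), hn⟩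

end Pool.Agent.H36.Slalom
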