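import Pool.Agent.H36.Slalom.Cohen

/-!
# Families without a countable `π`-base, and the equivalence for (iv)
-/

set_option autoImplicit false

noncomputable section

namespace Pool.Agent.H36.Slalom

open Cardinal

/-- All finite intersections of members of `A`, minus initial segments. -/
def closure' (A : Set (Set ℕ)) : Set (Set ℕ) :=
  {b | ∃ B : Set (Set ℕ), B ⊆ A ∧ B.Finite ∧ ∃ n : ℕ, b = ⋂₀ B \ Set.Iio n}

theorem closure'_infinite {A : Set (Set ℕ)} (hA : SFIP A) : ∀ b ∈ closure' A, b.Infinite := by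
  rintro b ⟨B, hB, hf, n, rfl⟩
  exact (hA B hB hf).sdiff (Set.finite_Iio n)

theorem closure'_inter {A : Set (Set ℕ)} : ∀ a ∈ closure' A, ∀ b ∈ closure' A,
    a ∩ b ∈ closure' A := by
  rintro a ⟨B, hB, hf, n, rfl⟩ b ⟨C, hC, hg, m, rfl⟩
  refine ⟨B ∪ C, Set.union_subset hB hC, hf.union hg, max n m, ?_⟩
  ext x
  simp only [Set.sInter_union, Set.mem_inter_iff, Set.mem_sdiff, Set.mem_Iio, not_lt, max_le_iff]
  tauto

theorem closure'_sdiff {A : Set (Set ℕ)} {a : Set ℕ} (ha : a ∈ closure' A) (m : ℕ) :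
    a \ Set.Iio m ∈ closure' A := by
  obtain ⟨B, hB, hf, n, rfl⟩ := ha
  refine ⟨B, hB, hf, max n m, ?_⟩
  ext x
  simp only [Set.mem_sdiff, Set.mem_Iio, not_lt, max_le_iff]
  tauto

theorem subset_closure' {A : Set (Set ℕ)} : A ⊆ closure' A := by
  intro a ha
  refine ⟨{a}, Set.singleton_subset_iff.2 ha, Set.finite_singleton a, 0, ?_⟩
  ext x
  simp

theorem closure'_univ {A : Set (Set ℕ)} : Set.univ ∈ closure' A := by
  refine ⟨∅, Set.empty_subset _, Set.finite_empty, 0, ?_⟩
  ext x
  simp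

theorem closure'_sInter {A : Set (Set ℕ)} {B : Set (Set ℕ)} (hB : B ⊆ closure' A)
    (hf : B.Finite) : ⋂₀ B ∈ closure' A := by
  induction B, hf using Set.Finite.induction_on with
  | empty =>
    rw [Set.sInter_empty]
    exact closure'_univ
  | @insert b C _ _ ih =>
    rw [Set.sInter_insert]
    exact closure'_inter _ (hB (Set.mem_insert _ _)) _
      (ih ((Set.subset_insert _ _).trans hB))

theorem mk_closure'_le {A : Set (Set ℕ)} (hA : ℵ₀ ≤ #A) : #(closure' A) ≤ #A := by
  classical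
  have : Infinite A := Cardinal.infinite_iff.2 hA
  have h1 : closure' A ⊆ Set.range fun p : Finset A × ℕ =>
      ⋂₀ (Subtype.val '' (p.1 : Set A)) \ Set.Iio p.2 := by
    rintro b ⟨B, hB, hf, n, rfl⟩
    have h2 : (Subtype.val ⁻¹' B : Set A).Finite := hf.preimage Subtype.val_injective.injOn
    refine ⟨(h2.toFinset, n), ?_⟩
    simp only [Set.Finite.coe_toFinset, Subtype.image_preimage_coe]
    rw [Set.inter_eq_right.2 hB]
  refine (mk_le_mk_of_subset h1).trans (mk_range_le.trans ?_)
  rw [mk_prod, lift_id, lift_id, mk_nat, mk_finset_of_infinite]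
  exact mul_le_of_le hA le_rfl hA

/-- `R` meets all members of `F` in infinite sets. -/
def Pos (F : Set (Set ℕ)) (R : Set ℕ) : Prop := ∀ a ∈ F, (R ∩ a).Infinite

/-- There is always a family of size at most `𝔭` with the strong finite intersection property and
without a countable `π`-base. -/
theorem exists_noPi : ∃ F : Set (Set ℕ), SFIP F ∧ (¬ ∃ R, IsPiBase F R) ∧ #F ≤ pNumber := by
  classical
  by_cases htp : tNumber ≤ pNumber
  · obtain ⟨A, h1, h2, h3, h4⟩ := tNumber_mem
    obtain ⟨F, hF1, hF2, hF3⟩ := exists_noPi_of_tower h1 h2 h3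
    exact ⟨F, hF1, hF2, hF3.trans (h4.le.trans htp)⟩
  · rw [not_le] at htp
    obtain ⟨A, hA, hAp, hAc⟩ := pNumber_mem
    have hAω : ℵ₀ ≤ #A := (aleph0_lt_of_not_pseudo hA hAp).le
    set F := closure' A with hF
    have hFc : #F ≤ pNumber := (mk_closure'_le hAω).trans hAc.le
    by_cases hall : ∀ R, Pos F R → ∃ S : ℕ → Set ℕ,
        IsPiBase ((fun a => R ∩ a) '' F) S
    · exfalso
      -- the tree
      have hall' : ∀ R, ∃ S : ℕ → Set ℕ, Pos F R →
          (∀ n, S n ⊆ R ∧ Pos F (S n)) ∧ ∀ a ∈ F, ∃ n, S n ⊆ a := by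
        intro R
        by_cases hR : Pos F R
        · obtain ⟨S, hS1, hS2⟩ := hall R hR
          refine ⟨fun n => S n ∩ R, fun _ => ⟨fun n => ⟨Set.inter_subset_right, ?_⟩, ?_⟩⟩
          · intro a ha hfin
            obtain ⟨m, hm⟩ := hfin.bddAbove
            obtain ⟨x, hx1, hx2, hx3⟩ := hS1 _ ⟨_, closure'_sdiff ha (m + 1), rfl⟩ n
            have h1 : x ≤ m := hm ⟨⟨hx1, hx2⟩, hx3.1⟩
            exact hx3.2 (Nat.lt_succ_of_le h1)
          · intro a ha
            obtain ⟨n, hn⟩ := hS2 _ ⟨a, ha, rfl⟩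
            exact ⟨n, fun x hx => (hn hx.1).2⟩
        · exact ⟨fun _ => ∅, fun h => absurd h hR⟩
      choose S hS using hall'
      let T : List ℕ → Set ℕ := fun s => s.foldr (fun n R => S R n) Set.univ
      have hTcons : ∀ n s, T (n :: s) = S (T s) n := fun n s => rfl
      have hTpos : ∀ s, Pos F (T s) := by
        intro s
        induction s with
        | nil =>
          intro a ha
          show (Set.univ ∩ a).Infinite
          rw [Set.univ_inter]
          exact closure'_infinite hA a ha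
        | cons n s ih =>
          rw [hTcons]
          exact ((hS (T s) ih).1 n).2
      have hTsub : ∀ s n, T (n :: s) ⊆ T s := fun s n => by
        rw [hTcons]
        exact ((hS (T s) (hTpos s)).1 n).1
      have hTsuf : ∀ s t, s <:+ t → T t ⊆ T s := by
        rintro s t ⟨u, rfl⟩
        induction u with
        | nil => exact subset_rfl
        | cons a u ih => exact (hTsub _ _).trans ih
      obtain ⟨s, hs1, hs2⟩ := exists_branch (ι := F) (hFc.trans_lt htp)
        (fun a => {s | T s ⊆ a.1})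
        (fun a s n hs => (hTsub s n).trans hs)
        (fun a s => by
          obtain ⟨n, hn⟩ := (hS (T s) (hTpos s)).2 a.1 a.2
          exact ⟨n :: s, hn, List.suffix_cons n s⟩)
      have hanti : Antitone fun n => T (s n) :=
        antitone_nat_of_succ_le fun n => hTsuf _ _ (hs1 n)
      have hsfip : SFIP (Set.range fun n => T (s n)) := by
        intro B hB hf
        obtain ⟨N, hN⟩ : ∃ N, T (s N) ⊆ ⋂₀ B := by
          induction B, hf using Set.Finite.induction_on with
          | empty => exact ⟨0, by rw [Set.sInter_empty]; exact Set.subset_univ _⟩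
          | @insert b C _ _ ih =>
            obtain ⟨N, hN⟩ := ih ((Set.subset_insert _ _).trans hB)
            obtain ⟨m, hm⟩ := hB (Set.mem_insert b C)
            refine ⟨max N m, ?_⟩
            rw [Set.sInter_insert]
            refine Set.subset_inter ?_ ?_
            · rw [← hm]
              exact hanti (le_max_right N m)
            · exact (hanti (le_max_left N m)).trans hN
        have h1 := hTpos (s N) _ closure'_univ
        rw [Set.inter_univ] at h1
        exact h1.mono hN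
      obtain ⟨X, hX, hXT⟩ := hasPseudo_of_countable hsfip (Set.countable_range _)
      refine hAp ⟨X, hX, fun a ha => ?_⟩
      obtain ⟨n, hn⟩ := hs2 ⟨a, subset_closure' ha⟩
      exact (hXT _ ⟨n, rfl⟩).subset fun x hx => ⟨hx.1, fun h => hx.2 (hn h)⟩
    · push Not at hall
      obtain ⟨R, hR, hno⟩ := hall
      refine ⟨(fun a => R ∩ a) '' F, ?_, ?_, mk_image_le.trans hFc⟩
      · intro B hB hf
        obtain ⟨C, hC, hCf, rfl⟩ : ∃ C ⊆ F, C.Finite ∧ (fun a => R ∩ a) '' C = B := by
          obtain ⟨C, hC1, hC2⟩ := Set.subset_image_iff.1 hB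
          obtain ⟨C', h1, h2⟩ := Set.exists_subset_bijOn C (fun a => R ∩ a)
          refine ⟨C', h1.trans hC1, Set.Finite.of_finite_image ?_ h2.injOn, ?_⟩
          · rw [h2.image_eq, hC2]
            exact hf
          · rw [h2.image_eq, hC2]
        refine (hR _ (closure'_sInter hC hCf)).mono ?_
        rintro x ⟨hxR, hxC⟩
        rintro _ ⟨a, ha, rfl⟩
        exact ⟨hxR, hxC a ha⟩
      · rintro ⟨S, hS⟩
        exact hno S hS

/-- (iv) holds for all ideals if and only if `2 ^ ω < 2 ^ 𝔭`. -/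
theorem pKStar_iff : (∀ J₀ J₁ : IdealOn ℕ, pKStar (J₀.inter J₁) = pKStar (J₀.sum J₁)) ↔
    (2 : Cardinal.{0}) ^ ℵ₀ < 2 ^ pNumber := by
  constructor
  · intro hall
    by_contra hle
    rw [not_lt] at hle
    obtain ⟨F, hF1, hF2, hF3⟩ := exists_noPi
    obtain ⟨J₀, J₁, h5, h6⟩ := exists_pKStar_lt hF1 hF2
      ((power_le_power_left two_ne_zero hF3).trans hle)
    exact absurd (hall J₀ J₁) (h5.trans_lt h6).ne
  · intro h J₀ J₁
    rw [pKStar_eq _ h, pKStar_eq _ h]

/-- If (iv) fails then there are ideals with `p_K(⋆, J₀ ∩ J₁) = 𝔭 < p_K(⋆, J₀ ⊕ J₁)`. -/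
theorem exists_pKStar_eq_lt (h : (2 : Cardinal.{0}) ^ pNumber ≤ 2 ^ ℵ₀) :
    ∃ J₀ J₁ : IdealOn ℕ, pKStar (J₀.inter J₁) = (pNumber : WithTop Cardinal.{0}) ∧
      (pNumber : WithTop Cardinal.{0}) < pKStar (J₀.sum J₁) := by
  obtain ⟨F, hF1, hF2, hF3⟩ := exists_noPi
  obtain ⟨J₀, J₁, h5, h6⟩ := exists_pKStar_lt hF1 hF2
    ((power_le_power_left two_ne_zero hF3).trans h)
  have h7 := pNumber_le (J₀.inter J₁)
  have h8 : #F = pNumber := le_antisymm hF3 (WithTop.coe_le_coe.1 (h7.trans h5))
  rw [h8] at h5 h6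
  exact ⟨J₀, J₁, le_antisymm h5 h7, h6⟩

end Pool.Agent.H36.Slalom
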