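import Pool.Agent.H36.Slalom.PartTwo

/-!
# Pseudointersections and towers
-/

set_option autoImplicit false

noncomputable section

namespace Pool.Agent.H36.Slalom

open Cardinal

theorem SFIP.mono {A B : Set (Set ℕ)} (h : SFIP B) (hAB : A ⊆ B) : SFIP A :=
  fun C hC hCf => h C (hC.trans hAB) hCf

theorem SFIP.inf {A : Set (Set ℕ)} (h : SFIP A) {a : Set ℕ} (ha : a ∈ A) : a.Infinite := by
  have := h {a} (Set.singleton_subset_iff.2 ha) (Set.finite_singleton a)
  rwa [Set.sInter_singleton] at this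

/-- `A` generates an ideal if and only if the complements have the strong finite intersection
property. -/
theorem generates_iff {A : Set (Set ℕ)} : Generates A ↔ SFIP (compl '' A) := by
  have key : ∀ B : Set (Set ℕ), (⋃₀ B)ᶜ = ⋂₀ (compl '' B) := fun B => by
    ext x
    simp
  constructor
  · intro h C hC hCf
    obtain ⟨B, hB, rfl⟩ := Set.subset_image_iff.1 hC
    rw [← key]
    exact h B hB ((Set.finite_image_iff compl_injective.injOn).1 hCf)
  · intro h B hB hBf
    rw [key]
    exact h _ (Set.image_mono hB) (hBf.image _)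

/-- A pseudointersection gives a Katetov reduction to every ideal on a countable set. -/
theorem kLe_of_pseudo {α : Type} [Countable α] {A : Set (Set ℕ)} (h : HasPseudo (compl '' A))
    (J : IdealOn α) : KLe A J := by
  obtain ⟨X, hX, hXa⟩ := h
  obtain ⟨g, hg⟩ := Countable.exists_injective_nat α
  obtain ⟨r, hr, hrX⟩ := exists_strictMono_choice (fun _ => X) fun _ => hX
  have hinj : Function.Injective (fun n => r (g n)) := hr.injective.comp hg
  refine ⟨fun n => r (g n), fun a ha => J.finite_mem _ ?_⟩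
  have h1 : (X \ aᶜ).Finite := hXa _ ⟨a, ha, rfl⟩
  refine (h1.preimage hinj.injOn).subset ?_
  intro n hn
  exact ⟨hrX _, fun h => h hn⟩

theorem hasPseudo_of_lt {A : Set (Set ℕ)} (hA : SFIP A) (h : #A < pNumber) : HasPseudo A := by
  by_contra hne
  exact notMem_of_lt_csInf' h ⟨A, hA, hne, rfl⟩

/-- The lower bound `𝔭 ≤ p_K(⋆, J)`. -/
theorem pNumber_le {α : Type} [Countable α] (J : IdealOn α) :
    (pNumber : WithTop Cardinal.{0}) ≤ pKStar J := by
  refine le_least ?_
  rintro μ ⟨A, h1, h2, rfl⟩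
  by_contra hlt
  push Not at hlt
  exact h2 (kLe_of_pseudo (hasPseudo_of_lt (generates_iff.1 h1) (mk_image_le.trans_lt hlt)) J)

/-- Countable families with the strong finite intersection property have pseudointersections. -/
theorem hasPseudo_of_countable {A : Set (Set ℕ)} (hA : SFIP A) (hc : A.Countable) :
    HasPseudo A := by
  rcases A.eq_empty_or_nonempty with rfl | hne
  · exact ⟨Set.univ, Set.infinite_univ, fun a ha => absurd ha (Set.notMem_empty a)⟩
  obtain ⟨e, he⟩ := hc.exists_eq_range hne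
  have hinf : ∀ n, (⋂₀ (e '' Set.Iic n)).Infinite := fun n =>
    hA _ (by rw [he]; exact Set.image_subset_range _ _) ((Set.finite_Iic n).image e)
  obtain ⟨r, hr, hrR⟩ := exists_strictMono_choice _ hinf
  refine ⟨Set.range r, Set.infinite_range_of_injective hr.injective, fun a ha => ?_⟩
  rw [he] at ha
  obtain ⟨n, rfl⟩ := ha
  refine ((Set.finite_Iio n).image r).subset ?_
  rintro _ ⟨⟨m, rfl⟩, hm⟩
  refine ⟨m, ?_, rfl⟩
  by_contra hnm
  have hnm' : n ≤ m := not_lt.1 hnm
  exact hm (hrR m _ ⟨n, hnm', rfl⟩)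

/-- Linearly ordered by almost inclusion. -/
def Linear (A : Set (Set ℕ)) : Prop := ∀ a ∈ A, ∀ b ∈ A, (a \ b).Finite ∨ (b \ a).Finite

theorem sdiff_trans {X : Type} {a b c : Set X} (h1 : (a \ b).Finite) (h2 : (b \ c).Finite) :
    (a \ c).Finite := (h1.union h2).subset fun x hx => by
  by_cases hb : x ∈ b
  · exact Or.inr ⟨hb, hx.2⟩
  · exact Or.inl ⟨hx.1, hb⟩

/-- A finite nonempty subfamily of a linear family has a least element. -/
theorem exists_least_of_linear {A : Set (Set ℕ)} (hl : Linear A) {B : Set (Set ℕ)}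
    (hB : B ⊆ A) (hf : B.Finite) (hne : B.Nonempty) : ∃ b ∈ B, ∀ c ∈ B, (b \ c).Finite := by
  induction B, hf using Set.Finite.induction_on with
  | empty => exact absurd hne Set.not_nonempty_empty
  | @insert a C ha hC ih =>
    rcases C.eq_empty_or_nonempty with rfl | hCne
    · refine ⟨a, Set.mem_insert _ _, fun c hc => ?_⟩
      rcases hc with rfl | hc
      · simp
      · exact absurd hc (Set.notMem_empty c)
    · obtain ⟨b, hb, hbC⟩ := ih ((Set.subset_insert _ _).trans hB) hCne
      rcases hl a (hB (Set.mem_insert _ _)) b (hB (Set.mem_insert_of_mem _ hb)) with h | h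
      · refine ⟨a, Set.mem_insert _ _, fun c hc => ?_⟩
        rcases hc with rfl | hc
        · simp
        · exact sdiff_trans h (hbC c hc)
      · refine ⟨b, Set.mem_insert_of_mem _ hb, fun c hc => ?_⟩
        rcases hc with rfl | hc
        · exact h
        · exact hbC c hc

theorem sfip_of_linear {A : Set (Set ℕ)} (hinf : ∀ a ∈ A, a.Infinite) (hl : Linear A) :
    SFIP A := by
  intro B hB hf
  rcases B.eq_empty_or_nonempty with rfl | hne
  · rw [Set.sInter_empty]
    exact Set.infinite_univ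
  obtain ⟨b, hb, hbB⟩ := exists_least_of_linear hl hB hf hne
  intro hfin
  refine hinf b (hB hb) ?_
  have h1 : (⋃ c ∈ B, b \ c).Finite := hf.biUnion hbB
  refine (hfin.union h1).subset fun x hx => ?_
  by_cases hall : ∀ c ∈ B, x ∈ c
  · exact Or.inl hall
  · push Not at hall
    obtain ⟨c, hc, hxc⟩ := hall
    exact Or.inr (Set.mem_biUnion hc ⟨hx, hxc⟩)

/-- There are linear families of infinite sets without a pseudointersection. -/
theorem exists_tower : ∃ A : Set (Set ℕ), (∀ a ∈ A, a.Infinite) ∧ Linear A ∧ ¬ HasPseudo A := by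
  set r : {X : Set ℕ // X.Infinite} → {X : Set ℕ // X.Infinite} → Prop :=
    fun X Y => (X.1 \ Y.1).Finite with hr
  have hmax := maxChain_spec (r := r)
  refine ⟨Subtype.val '' maxChain r, ?_, ?_, ?_⟩
  · rintro _ ⟨X, _, rfl⟩
    exact X.2
  · rintro _ ⟨X, hX, rfl⟩ _ ⟨Y, hY, rfl⟩
    by_cases hXY : X = Y
    · subst hXY
      left
      simp
    · exact hmax.1 hX hY hXY
  · rintro ⟨X, hX, hXa⟩
    obtain ⟨q, hq, hqX⟩ := exists_strictMono_choice (fun _ => X) fun _ => hX
    have hinf : (Set.range fun n => q (2 * n)).Infinite :=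
      Set.infinite_range_of_injective fun m n h => by
        have := hq.injective h
        omega
    have hch : IsChain r (insert ⟨Set.range fun n => q (2 * n), hinf⟩ (maxChain r)) := by
      refine hmax.1.insert fun Y hY _ => Or.inl ?_
      refine (hXa Y.1 ⟨Y, hY, rfl⟩).subset ?_
      rintro _ ⟨⟨n, rfl⟩, hn⟩
      exact ⟨hqX _, hn⟩
    have hmem := hmax.2 hch (Set.subset_insert _ _)
    have h1 : (⟨Set.range fun n => q (2 * n), hinf⟩ : {X : Set ℕ // X.Infinite}) ∈ maxChain r := by
      rw [hmem]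
      exact Set.mem_insert _ _
    have h2 := hXa _ ⟨_, h1, rfl⟩
    have h3 : (Set.range fun n => q (2 * n + 1)).Infinite :=
      Set.infinite_range_of_injective fun m n h => by
        have := hq.injective h
        omega
    refine h3 (h2.subset ?_)
    rintro _ ⟨n, rfl⟩
    refine ⟨hqX _, ?_⟩
    rintro ⟨m, hm⟩
    have := hq.injective hm
    omega

theorem tNumber_mem : ∃ A : Set (Set ℕ), (∀ a ∈ A, a.Infinite) ∧ Linear A ∧ ¬ HasPseudo A ∧
    #A = tNumber := by
  obtain ⟨A, h1, h2, h3⟩ := exists_tower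
  have := csInf_mem (s := {κ : Cardinal.{0} | ∃ A : Set (Set ℕ), (∀ a ∈ A, a.Infinite) ∧
    (∀ a ∈ A, ∀ b ∈ A, (a \ b).Finite ∨ (b \ a).Finite) ∧ ¬ HasPseudo A ∧ #A = κ})
    ⟨#A, A, h1, h2, h3, rfl⟩
  exact this

theorem pNumber_mem : ∃ A : Set (Set ℕ), SFIP A ∧ ¬ HasPseudo A ∧ #A = pNumber := by
  obtain ⟨A, h1, h2, h3⟩ := exists_tower
  have := csInf_mem (s := {κ : Cardinal.{0} | ∃ A : Set (Set ℕ), SFIP A ∧ ¬ HasPseudo A ∧ #A = κ})
    ⟨#A, A, sfip_of_linear h1 h2, h3, rfl⟩
  exact this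

theorem aleph0_lt_of_not_pseudo {A : Set (Set ℕ)} (hA : SFIP A) (h : ¬ HasPseudo A) :
    ℵ₀ < #A := by
  by_contra hle
  push Not at hle
  exact h (hasPseudo_of_countable hA (Cardinal.le_aleph0_iff_set_countable.1 hle))

theorem aleph0_lt_pNumber : ℵ₀ < pNumber := by
  obtain ⟨A, h1, h2, h3⟩ := pNumber_mem
  rw [← h3]
  exact aleph0_lt_of_not_pseudo h1 h2

theorem hasPseudo_of_linear {A : Set (Set ℕ)} (hinf : ∀ a ∈ A, a.Infinite) (hl : Linear A)
    (h : #A < tNumber) : HasPseudo A := by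
  by_contra hne
  exact notMem_of_lt_csInf' h ⟨A, hinf, hl, hne, rfl⟩

/-- In a tower every countable subfamily has a lower bound in the tower. -/
theorem exists_le_of_tower {A : Set (Set ℕ)} (hinf : ∀ a ∈ A, a.Infinite) (hl : Linear A)
    (h : ¬ HasPseudo A) (e : ℕ → Set ℕ) (he : ∀ n, e n ∈ A) : ∃ a ∈ A, ∀ n, (a \ e n).Finite := by
  by_contra hne
  push Not at hne
  obtain ⟨X, hX, hXe⟩ := hasPseudo_of_countable
    ((sfip_of_linear hinf hl).mono (Set.range_subset_iff.2 he)) (Set.countable_range e)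
  refine h ⟨X, hX, fun a ha => ?_⟩
  obtain ⟨n, hn⟩ := hne a ha
  rcases hl a ha (e n) (he n) with h1 | h1
  · exact absurd h1 hn
  · exact sdiff_trans (hXe _ ⟨n, rfl⟩) h1

end Pool.Agent.H36.Slalom
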