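import Pool.Agent.H36.Slalom.PiBase

/-!
# Generic systems: the ideals `J₀`, `J₁` and the preservation of non-reducibility
-/

set_option autoImplicit false

noncomputable section

namespace Pool.Agent.H36.Slalom

open Cardinal

/-- Fewer than `𝔱` members of a tower have a common lower bound in the tower. -/
theorem exists_le_of_tower' {A : Set (Set ℕ)} (hinf : ∀ a ∈ A, a.Infinite) (hl : Linear A)
    (h : ¬ HasPseudo A) {E : Set (Set ℕ)} (hE : E ⊆ A) (hc : #E < tNumber) :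
    ∃ a ∈ A, ∀ e ∈ E, (a \ e).Finite := by
  by_contra hne
  push Not at hne
  obtain ⟨X, hX, hXe⟩ := hasPseudo_of_linear (fun e he => hinf e (hE he))
    (fun a ha b hb => hl a (hE ha) b (hE hb)) hc
  refine h ⟨X, hX, fun a ha => ?_⟩
  obtain ⟨e, he, hn⟩ := hne a ha
  rcases hl a ha e (hE he) with h1 | h1
  · exact absurd h1 hn
  · exact sdiff_trans (hXe _ he) h1

/-- Pigeonhole principle for cofinal subfamilies of a tower. -/
theorem tower_pigeonhole {A : Set (Set ℕ)} (hinf : ∀ a ∈ A, a.Infinite) (hl : Linear A)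
    (h : ¬ HasPseudo A) {D : Set (Set ℕ)} (hD : D ⊆ A) (hDp : ¬ HasPseudo D) {K : Type}
    {Z : Set K} (hZ : #Z < tNumber) (g : Set ℕ → K) (hg : ∀ t ∈ D, g t ∈ Z) :
    ∃ k ∈ Z, ¬ HasPseudo {t | t ∈ D ∧ g t = k} := by
  by_contra hne
  push Not at hne
  have h1 : ∀ k : Z, ∃ X : Set ℕ, X.Infinite ∧ ∀ t ∈ D, g t = k.1 → (X \ t).Finite := by
    intro k
    obtain ⟨X, hX, hX'⟩ := hne k.1 k.2
    exact ⟨X, hX, fun t ht hgt => hX' t ⟨ht, hgt⟩⟩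
  choose X hX hXt using h1
  have h2 : ∀ k : Z, ∃ a ∈ A, ¬ (X k \ a).Finite := by
    intro k
    by_contra hk
    push Not at hk
    exact h ⟨X k, hX k, hk⟩
  choose a haA ha using h2
  obtain ⟨b, hb, hba⟩ := exists_le_of_tower' hinf hl h (E := Set.range a)
    (Set.range_subset_iff.2 haA) (mk_range_le.trans_lt hZ)
  refine hDp ⟨b, hinf b hb, fun t ht => ?_⟩
  have h3 : (b \ a ⟨g t, hg t ht⟩).Finite := hba _ ⟨_, rfl⟩
  rcases hl (a ⟨g t, hg t ht⟩) (haA _) t (hD ht) with h4 | h4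
  · exact sdiff_trans h3 h4
  · exact absurd (sdiff_trans (hXt ⟨g t, hg t ht⟩ t ht rfl) h4) (ha _)

/-- Triples `(c, v, w)`. -/
abbrev X3 := ℕ × ℕ × ℕ

/-- Cylinder over a set of `c`. -/
def cylC (Y : Set ℕ) : Set X3 := {p | p.1 ∈ Y}

/-- The condition `v ∈ t`, `c < v`. -/
def hatT (t : Set ℕ) : Set X3 := {p | p.2.1 ∈ t ∧ p.1 < p.2.1}

/-- The condition `w ∈ s c`. -/
def hatS (s : ℕ → Set ℕ) : Set X3 := {p | p.2.2 ∈ s p.1}

/-- Projection along `v`. -/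
def exV (W : Set X3) : Set X3 := {p | ∃ v, (p.1, v, p.2.2) ∈ W}

/-- Projection along `w`. -/
def exW (W : Set X3) : Set X3 := {p | ∃ w, (p.1, p.2.1, w) ∈ W}

/-- The data of the construction: `z ξ` is generic over `M ξ`, and evades the slaloms of `S ξ`. -/
structure Sys (T : Set (Set ℕ)) (Λ : Type) [LinearOrder Λ] where
  /-- the colour: the ideal to which `ξ` contributes -/
  col : Λ → Bool
  /-- the slaloms of stage `ξ` -/
  S : Λ → Set (ℕ → Set ℕ)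
  /-- the ideal of stage `ξ` -/
  Id : Λ → IdealOn ℕ
  hS : ∀ ξ, ∀ s ∈ S ξ, ∀ n, s n ∈ Id ξ
  /-- the generic functions -/
  z : Λ → ℕ → ℕ
  /-- the interpolation function -/
  f : Set X3 → Set (Set X3)
  hf : ∀ A, #(f A) < tNumber
  hf2 : ∀ A B, A ⊆ B → ∃ C ∈ f A, C ∈ f B ∧ A ⊆ C ∧ C ⊆ B
  /-- the models -/
  M : Λ → Set (Set X3)
  mono : ∀ η ξ, η ≤ ξ → M η ⊆ M ξ
  inter : ∀ ξ, ∀ A ∈ M ξ, ∀ B ∈ M ξ, A ∩ B ∈ M ξ
  compl : ∀ ξ, ∀ A ∈ M ξ, Aᶜ ∈ M ξ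
  hexV : ∀ ξ, ∀ A ∈ M ξ, exV A ∈ M ξ
  hexW : ∀ ξ, ∀ A ∈ M ξ, exW A ∈ M ξ
  hfM : ∀ ξ, ∀ A ∈ M ξ, f A ⊆ M ξ
  hT : ∀ ξ, ∀ t ∈ T, hatT t ∈ M ξ
  hfin : ∀ ξ n, cylC (Set.Iio n) ∈ M ξ
  hA : ∀ ξ η, η < ξ → ∀ s ∈ S η, cylC {c | z η c ∈ s c} ∈ M ξ
  hs : ∀ ξ, ∀ s ∈ S ξ, hatS s ∈ M ξ
  gen : ∀ ξ, ∀ P ∈ M ξ, {c | ∃ v w, (c, v, w) ∈ P}.Infinite → ∃ c v, (c, v, z ξ c) ∈ P

namespace Sys

variable {T : Set (Set ℕ)} {Λ : Type} [LinearOrder Λ] (K : Sys T Λ)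

theorem union' (ξ : Λ) {A B : Set X3} (hA : A ∈ K.M ξ) (hB : B ∈ K.M ξ) : A ∪ B ∈ K.M ξ := by
  have := K.compl ξ _ (K.inter ξ _ (K.compl ξ _ hA) _ (K.compl ξ _ hB))
  rwa [Set.compl_inter, compl_compl, compl_compl] at this

theorem empty_mem (ξ : Λ) : (∅ : Set X3) ∈ K.M ξ := by
  have := K.hfin ξ 0
  have h : cylC (Set.Iio 0) = (∅ : Set X3) := by
    ext p
    simp [cylC]
  rwa [h] at this

theorem biUnion_mem (ξ : Λ) {ι : Type} (F : Finset ι) (g : ι → Set X3)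
    (h : ∀ i ∈ F, g i ∈ K.M ξ) : (⋃ i ∈ F, g i) ∈ K.M ξ := by
  classical
  induction F using Finset.induction_on with
  | empty =>
    simp only [Finset.notMem_empty, Set.iUnion_of_empty, Set.iUnion_empty]
    exact K.empty_mem ξ
  | insert a F _ ih =>
    rw [Finset.set_biUnion_insert]
    exact K.union' ξ (h a (Finset.mem_insert_self _ _))
      (ih fun i hi => h i (Finset.mem_insert_of_mem hi))

/-- The set of `c` with `z ξ c ∈ s c`. -/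
def ev (q : Λ × (ℕ → Set ℕ)) : Set ℕ := {c | K.z q.1 c ∈ q.2 c}

/-- Membership in the ideal of colour `b` generated by the stages in `I`. -/
def Small (b : Bool) (I : Set Λ) (Y : Set ℕ) : Prop :=
  ∃ F : Finset (Λ × (ℕ → Set ℕ)), (∀ q ∈ F, q.1 ∈ I ∧ K.col q.1 = b ∧ q.2 ∈ K.S q.1) ∧
    (Y \ ⋃ q ∈ F, K.ev q).Finite

variable {K}

theorem Small.mono {b : Bool} {I : Set Λ} {Y Y' : Set ℕ} (h : K.Small b I Y) (hY : Y' ⊆ Y) :
    K.Small b I Y' := by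
  obtain ⟨F, h1, h2⟩ := h
  exact ⟨F, h1, h2.subset fun x hx => ⟨hY hx.1, hx.2⟩⟩

theorem Small.mono_I {b : Bool} {I I' : Set Λ} {Y : Set ℕ} (h : K.Small b I Y) (hI : I ⊆ I') :
    K.Small b I' Y := by
  obtain ⟨F, h1, h2⟩ := h
  exact ⟨F, fun q hq => ⟨hI (h1 q hq).1, (h1 q hq).2⟩, h2⟩

theorem small_finite {b : Bool} {I : Set Λ} {Y : Set ℕ} (h : Y.Finite) : K.Small b I Y :=
  ⟨∅, fun q hq => absurd hq (Finset.notMem_empty q), h.subset Set.sdiff_subset⟩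

theorem Small.union {b : Bool} {I : Set Λ} {Y Y' : Set ℕ} (h : K.Small b I Y)
    (h' : K.Small b I Y') : K.Small b I (Y ∪ Y') := by
  classical
  obtain ⟨F, h1, h2⟩ := h
  obtain ⟨F', h1', h2'⟩ := h'
  refine ⟨F ∪ F', fun q hq => ?_, (h2.union h2').subset ?_⟩
  · rcases Finset.mem_union.1 hq with h | h
    · exact h1 q h
    · exact h1' q h
  · rintro x ⟨hx | hx, hn⟩
    · refine Or.inl ⟨hx, fun hx' => hn ?_⟩
      obtain ⟨q, hq, hxq⟩ := Set.mem_iUnion₂.1 hx'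
      exact Set.mem_iUnion₂.2 ⟨q, Finset.mem_union_left _ hq, hxq⟩
    · refine Or.inr ⟨hx, fun hx' => hn ?_⟩
      obtain ⟨q, hq, hxq⟩ := Set.mem_iUnion₂.1 hx'
      exact Set.mem_iUnion₂.2 ⟨q, Finset.mem_union_right _ hq, hxq⟩

/-- Small sets are covered by small sets of the model. -/
theorem Small.exists_cyl {b : Bool} {I : Set Λ} {Y : Set ℕ} (h : K.Small b I Y) {ξ : Λ}
    (hI : ∀ η ∈ I, η < ξ) : ∃ B, Y ⊆ B ∧ K.Small b I B ∧ cylC B ∈ K.M ξ := by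
  obtain ⟨F, h1, h2⟩ := h
  obtain ⟨n, hn⟩ := h2.bddAbove
  refine ⟨(⋃ q ∈ F, K.ev q) ∪ Set.Iio (n + 1), ?_, ?_, ?_⟩
  · intro x hx
    by_cases hx' : x ∈ ⋃ q ∈ F, K.ev q
    · exact Or.inl hx'
    · exact Or.inr (Nat.lt_succ_of_le (hn ⟨hx, hx'⟩))
  · refine ⟨F, h1, (Set.finite_Iio (n + 1)).subset ?_⟩
    rintro x ⟨hx | hx, hx'⟩
    · exact absurd hx hx'
    · exact hx
  · have h3 : cylC ((⋃ q ∈ F, K.ev q) ∪ Set.Iio (n + 1)) =
        (⋃ q ∈ F, cylC (K.ev q)) ∪ cylC (Set.Iio (n + 1)) := by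
      ext p
      simp [cylC]
    rw [h3]
    exact K.union' ξ (K.biUnion_mem ξ F _ fun q hq =>
      K.hA ξ q.1 (hI _ (h1 q hq).1) q.2 (h1 q hq).2.2) (K.hfin ξ _)

/-- Finite unions of members of the slalom family of stage `ξ` stay in the ideal. -/
theorem fin_union_mem {ξ : Λ} (F : Finset (ℕ → Set ℕ)) (h : ∀ s ∈ F, s ∈ K.S ξ) (c : ℕ) :
    (⋃ s ∈ F, s c) ∈ K.Id ξ := by
  classical
  induction F using Finset.induction_on with
  | empty =>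
    simp only [Finset.notMem_empty, Set.iUnion_of_empty, Set.iUnion_empty]
    exact (K.Id ξ).finite_mem _ Set.finite_empty
  | insert a F _ ih =>
    rw [Finset.set_biUnion_insert]
    exact (K.Id ξ).union_mem _ (K.hS ξ a (h a (Finset.mem_insert_self _ _)) c) _
      (ih fun i hi => h i (Finset.mem_insert_of_mem hi))

theorem exists_notMem (J : IdealOn ℕ) {s : Set ℕ} (hs : s ∈ J) : ∃ w, w ∉ s := by
  by_contra hne
  push Not at hne
  exact IdealOn.notMem_of_eq_univ hne hs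

/-- New generic functions add no old sets to the ideals. -/
theorem Small.reflect [WellFoundedLT Λ] {b : Bool} {I : Set Λ} {Y : Set ℕ} (h : K.Small b I Y)
    {ξ : Λ} (hY : cylC Y ∈ K.M ξ) : K.Small b (Set.Iio ξ ∩ I) Y := by
  classical
  obtain ⟨F, h1, h2⟩ := h
  induction hn : F.card using Nat.strong_induction_on generalizing F with
  | _ n ih =>
    by_cases hall : ∀ q ∈ F, q.1 < ξ
    · exact ⟨F, fun q hq => ⟨⟨hall q hq, (h1 q hq).1⟩, (h1 q hq).2⟩, h2⟩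
    push Not at hall
    obtain ⟨q₁, hq₁, hξ₁⟩ := hall
    obtain ⟨q₀, hq₀, hmax⟩ := F.exists_max_image (fun q => q.1) ⟨q₁, hq₁⟩
    have hξ : ξ ≤ q₀.1 := hξ₁.trans (hmax q₁ hq₁)
    set F' := F.filter fun q => q.1 ≠ q₀.1 with hF'
    have hF'lt : ∀ q ∈ F', q.1 < q₀.1 := fun q hq =>
      lt_of_le_of_ne (hmax q (Finset.mem_filter.1 hq).1) (Finset.mem_filter.1 hq).2
    have hcard : F'.card < F.card := by
      refine Finset.card_lt_card (Finset.filter_ssubset.2 ⟨q₀, hq₀, ?_⟩)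
      simp
    refine ih F'.card (hn ▸ hcard) F' (fun q hq => h1 q (Finset.mem_filter.1 hq).1) ?_ rfl
    by_contra hinf
    have hinf : (Y \ ⋃ q ∈ F', K.ev q).Infinite := hinf
    set G := (F.filter fun q => q.1 = q₀.1).image Prod.snd with hG
    have hGS : ∀ s ∈ G, s ∈ K.S q₀.1 := by
      intro s hs
      obtain ⟨q, hq, rfl⟩ := Finset.mem_image.1 hs
      obtain ⟨hq1, hq2⟩ := Finset.mem_filter.1 hq
      rw [← hq2]
      exact (h1 q hq1).2.2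
    obtain ⟨n₀, hn₀⟩ := h2.bddAbove
    set P : Set X3 := cylC Y ∩ ((⋃ q ∈ F', cylC (K.ev q))ᶜ ∩ ((⋃ s ∈ G, hatS s)ᶜ ∩
      (cylC (Set.Iio (n₀ + 1)))ᶜ)) with hP
    have hPM : P ∈ K.M q₀.1 := by
      refine K.inter _ _ (K.mono ξ _ hξ hY) _ (K.inter _ _ (K.compl _ _ ?_) _
        (K.inter _ _ (K.compl _ _ ?_) _ (K.compl _ _ (K.hfin _ _))))
      · exact K.biUnion_mem _ F' _ fun q hq => K.hA _ q.1 (hF'lt q hq) q.2
          (h1 q (Finset.mem_filter.1 hq).1).2.2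
      · exact K.biUnion_mem _ G _ fun s hs => K.hs _ s (hGS s hs)
    have hproj : {c | ∃ v w, (c, v, w) ∈ P}.Infinite := by
      refine (hinf.sdiff (Set.finite_Iio (n₀ + 1))).mono ?_
      rintro c ⟨⟨hcY, hc⟩, hcn⟩
      obtain ⟨w, hw⟩ := exists_notMem _ (fin_union_mem G hGS c)
      refine ⟨0, w, hcY, ?_, ?_, hcn⟩
      · intro h
        obtain ⟨q, hq, hqc⟩ := Set.mem_iUnion₂.1 h
        exact hc (Set.mem_iUnion₂.2 ⟨q, hq, hqc⟩)
      · intro h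
        obtain ⟨s, hs, hsc⟩ := Set.mem_iUnion₂.1 h
        exact hw (Set.mem_iUnion₂.2 ⟨s, hs, hsc⟩)
    obtain ⟨c, v, hcY, hc1, hc2, hc3⟩ := K.gen _ P hPM hproj
    have hc4 : c ≤ n₀ := by
      refine hn₀ ⟨hcY, fun hmem => ?_⟩
      obtain ⟨q, hq, hqc⟩ := Set.mem_iUnion₂.1 hmem
      by_cases hq0 : q.1 = q₀.1
      · refine hc2 (Set.mem_iUnion₂.2 ⟨q.2, Finset.mem_image.2 ⟨q, Finset.mem_filter.2
          ⟨hq, hq0⟩, rfl⟩, ?_⟩)
        have h5 : K.z q.1 c ∈ q.2 c := hqc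
        rw [hq0] at h5
        exact h5
      · exact hc1 (Set.mem_iUnion₂.2 ⟨q, Finset.mem_filter.2 ⟨hq, hq0⟩, hqc⟩)
    exact hc3 (Nat.lt_succ_of_le hc4)

end Sys

end Pool.Agent.H36.Slalom
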