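import Pool.Agent.H36.Slalom.Sys

/-!
# Preservation: the tower is not reducible to `J₀ ∩ J₁`
-/

set_option autoImplicit false

noncomputable section

namespace Pool.Agent.H36.Slalom

open Cardinal

namespace Sys

variable {T : Set (Set ℕ)} {Λ : Type} [LinearOrder Λ] (K : Sys T Λ)

/-- A violation: on the complement of a set `Y` of the join of the two ideals, a function `x` with
`{c ∉ Y | ¬ (x c ∈ t ∧ c < x c)}` in both ideals for all `t` in a cofinal part `D` of the tower. -/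
def Viol (I : Set Λ) : Prop :=
  ∃ (Y : Set ℕ) (x : ℕ → ℕ) (D : Set (Set ℕ)), D ⊆ T ∧ ¬ HasPseudo D ∧
    (∃ B : Bool → Set ℕ, (∀ b, K.Small b I (B b)) ∧ Y ⊆ ⋃ b, B b) ∧
    ∀ t ∈ D, ∀ b, K.Small b I {c | c ∉ Y ∧ ¬ (x c ∈ t ∧ c < x c)}

variable {K}

theorem not_viol_empty : ¬ K.Viol ∅ := by
  rintro ⟨Y, x, D, hDT, hDp, ⟨B, hB, hYB⟩, hx⟩
  have hfin : ∀ {b : Bool} {Z : Set ℕ}, K.Small b ∅ Z → Z.Finite := by
    rintro b Z ⟨F, h1, h2⟩
    have hF : F = ∅ := by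
      rw [Finset.eq_empty_iff_forall_notMem]
      intro q hq
      exact (h1 q hq).1
    subst hF
    simpa using h2
  have hY : Y.Finite := (Set.finite_iUnion fun b => hfin (hB b)).subset hYB
  obtain ⟨n, hn⟩ := hY.bddAbove
  have hDne : D.Nonempty := by
    rw [Set.nonempty_iff_ne_empty]
    rintro rfl
    exact hDp ⟨Set.univ, Set.infinite_univ, fun a ha => absurd ha (Set.notMem_empty a)⟩
  obtain ⟨t₀, ht₀⟩ := hDne
  obtain ⟨m, hm⟩ := (hfin (hx t₀ ht₀ true)).bddAbove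
  have hbig : ∀ c, n < c → m < c → c < x c := by
    intro c hc1 hc2
    by_contra hne
    have : c ∈ {c | c ∉ Y ∧ ¬ (x c ∈ t₀ ∧ c < x c)} :=
      ⟨fun h => absurd (hn h) (by omega), fun h => hne h.2⟩
    exact absurd (hm this) (by omega)
  refine hDp ⟨x '' Set.Ioi (max n m), ?_, ?_⟩
  · intro hfinite
    obtain ⟨N, hN⟩ := hfinite.bddAbove
    set c := max n m + N + 1 with hc
    have h1 := hbig c (by omega) (by omega)
    have h2 := hN ⟨c, (show max n m < c by omega), rfl⟩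
    omega
  · intro t ht
    refine ((hfin (hx t ht true)).image x).subset ?_
    rintro _ ⟨⟨c, hc, rfl⟩, hct⟩
    refine ⟨c, ⟨fun h => ?_, fun h => hct h.1⟩, rfl⟩
    have h3 := hn h
    have h4 : max n m < c := hc
    omega

/-- The limit step. -/
theorem viol_limit [WellFoundedLT Λ] (hinf : ∀ a ∈ T, a.Infinite) (hl : Linear T)
    (hTp : ¬ HasPseudo T) {I : Set Λ} (hne : I.Nonempty)
    (hmax : ∀ ξ ∈ I, ∃ η ∈ I, ξ < η) (h : K.Viol I) : ∃ ξ ∈ I, K.Viol (Set.Iio ξ) := by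
  classical
  obtain ⟨Y, x, D, hDT, hDp, ⟨B, hB, hYB⟩, hx⟩ := h
  -- a stage above finitely many
  have hbd : ∀ {b : Bool} {Z : Set ℕ}, K.Small b I Z → ∃ ξ ∈ I, K.Small b (Set.Iio ξ) Z := by
    rintro b Z ⟨F, h1, h2⟩
    have h3 : ∀ G : Finset (Λ × (ℕ → Set ℕ)), (∀ q ∈ G, q.1 ∈ I) → ∃ ξ ∈ I, ∀ q ∈ G, q.1 < ξ := by
      intro G
      induction G using Finset.induction_on with
      | empty =>
        intro _
        obtain ⟨ξ, hξ⟩ := hne
        exact ⟨ξ, hξ, fun q hq => absurd hq (Finset.notMem_empty q)⟩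
      | insert a G _ ih =>
        intro hG
        obtain ⟨ξ, hξ, hξG⟩ := ih fun q hq => hG q (Finset.mem_insert_of_mem hq)
        obtain ⟨η, hη, hη'⟩ := hmax a.1 (hG a (Finset.mem_insert_self _ _))
        rcases le_total ξ η with hle | hle
        · refine ⟨η, hη, fun q hq => ?_⟩
          rcases Finset.mem_insert.1 hq with rfl | hq
          · exact hη'
          · exact (hξG q hq).trans_le hle
        · refine ⟨ξ, hξ, fun q hq => ?_⟩
          rcases Finset.mem_insert.1 hq with rfl | hq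
          · exact hη'.trans_le hle
          · exact hξG q hq
    obtain ⟨ξ, hξ, hξF⟩ := h3 F fun q hq => (h1 q hq).1
    exact ⟨ξ, hξ, F, fun q hq => ⟨hξF q hq, (h1 q hq).2⟩, h2⟩
  -- stages for `B` and for all `t`
  have hst : ∀ t : Set ℕ, ∃ ξ ∈ I, t ∈ D → (∀ b, K.Small b (Set.Iio ξ) (B b)) ∧
      ∀ b, K.Small b (Set.Iio ξ) {c | c ∉ Y ∧ ¬ (x c ∈ t ∧ c < x c)} := by
    intro t
    by_cases ht : t ∈ D
    · obtain ⟨ξ₁, h1, k1⟩ := hbd (hB true)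
      obtain ⟨ξ₂, h2, k2⟩ := hbd (hB false)
      obtain ⟨ξ₃, h3, k3⟩ := hbd (hx t ht true)
      obtain ⟨ξ₄, h4, k4⟩ := hbd (hx t ht false)
      have hm : max (max ξ₁ ξ₂) (max ξ₃ ξ₄) ∈ I := by
        rcases max_choice (max ξ₁ ξ₂) (max ξ₃ ξ₄) with h | h <;> rw [h]
        · rcases max_choice ξ₁ ξ₂ with h | h <;> rw [h] <;> assumption
        · rcases max_choice ξ₃ ξ₄ with h | h <;> rw [h] <;> assumption
      refine ⟨_, hm, fun _ => ⟨fun b => ?_, fun b => ?_⟩⟩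
      · cases b
        · exact k2.mono_I (Set.Iio_subset_Iio ((le_max_right _ _).trans (le_max_left _ _)))
        · exact k1.mono_I (Set.Iio_subset_Iio ((le_max_left _ _).trans (le_max_left _ _)))
      · cases b
        · exact k4.mono_I (Set.Iio_subset_Iio ((le_max_right _ _).trans (le_max_right _ _)))
        · exact k3.mono_I (Set.Iio_subset_Iio ((le_max_left _ _).trans (le_max_right _ _)))
    · obtain ⟨ξ, hξ⟩ := hne
      exact ⟨ξ, hξ, fun h => absurd h ht⟩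
  choose st hstI hst' using hst
  -- one cover of `Y` by a set of the models, fixed once for all
  obtain ⟨t₁, ht₁⟩ : D.Nonempty := by
    rw [Set.nonempty_iff_ne_empty]
    rintro rfl
    exact hDp ⟨Set.univ, Set.infinite_univ, fun a ha => absurd ha (Set.notMem_empty a)⟩
  have hB1 : ∀ b, ∃ B' : Set ℕ, B b ⊆ B' ∧ K.Small b (Set.Iio (st t₁)) B' ∧
      cylC B' ∈ K.M (st t₁) := fun b => ((hst' t₁ ht₁).1 b).exists_cyl fun η hη => hη
  choose B' hBB' hB'S hB'M using hB1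
  set Y' : Set ℕ := B' true ∪ B' false with hY'
  have hYY' : Y ⊆ Y' := by
    intro c hc
    obtain ⟨b, hb⟩ := Set.mem_iUnion.1 (hYB hc)
    cases b
    · exact Or.inr (hBB' _ hb)
    · exact Or.inl (hBB' _ hb)
  -- covers of the exceptional sets
  let ξf : Set ℕ → Λ := fun t => max (st t) (st t₁)
  have hξfI : ∀ t, ξf t ∈ I := fun t => by
    rcases max_choice (st t) (st t₁) with h | h
    · show max (st t) (st t₁) ∈ I
      rw [h]
      exact hstI t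
    · show max (st t) (st t₁) ∈ I
      rw [h]
      exact hstI t₁
  have hC1 : ∀ t : Set ℕ, ∀ b : Bool, ∃ C : Set ℕ, t ∈ D →
      {c | c ∉ Y ∧ ¬ (x c ∈ t ∧ c < x c)} ⊆ C ∧ K.Small b (Set.Iio (st t)) C ∧
      cylC C ∈ K.M (st t) := by
    intro t b
    by_cases ht : t ∈ D
    · obtain ⟨C, h1, h2, h3⟩ := ((hst' t ht).2 b).exists_cyl (ξ := st t) fun η hη => hη
      exact ⟨C, fun _ => ⟨h1, h2, h3⟩⟩
    · exact ⟨∅, fun h => absurd h ht⟩
  choose C hC using hC1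
  -- interpolation
  set G : Set X3 := {p | p.1 ∉ Y' ∧ p.2.1 = x p.1} with hG
  let W : Set ℕ → Set X3 := fun t => (cylC Y')ᶜ ∩ (hatT t ∪ (cylC (C t true) ∩ cylC (C t false)))
  have hGW : ∀ t ∈ D, G ⊆ W t := by
    rintro t ht ⟨c, v, w⟩ ⟨hc, hv⟩
    refine ⟨hc, ?_⟩
    have hv' : v = x c := hv
    subst hv'
    by_cases h1 : x c ∈ t ∧ c < x c
    · exact Or.inl h1
    · have h2 : c ∈ {c | c ∉ Y ∧ ¬ (x c ∈ t ∧ c < x c)} := ⟨fun h => hc (hYY' h), h1⟩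
      exact Or.inr ⟨(hC t true ht).1 h2, (hC t false ht).1 h2⟩
  have hcylY' : ∀ t, cylC Y' ∈ K.M (ξf t) := by
    intro t
    have h1 : cylC Y' = cylC (B' true) ∪ cylC (B' false) := rfl
    rw [h1]
    exact K.union' _ (K.mono _ _ (le_max_right _ _) (hB'M true))
      (K.mono _ _ (le_max_right _ _) (hB'M false))
  have hWM : ∀ t ∈ D, W t ∈ K.M (ξf t) := by
    intro t ht
    refine K.inter _ _ (K.compl _ _ (hcylY' t)) _ (K.union' _ (K.hT _ t (hDT ht))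
      (K.inter _ _ (K.mono _ _ (le_max_left _ _) (hC t true ht).2.2) _
        (K.mono _ _ (le_max_left _ _) (hC t false ht).2.2)))
  have hint : ∀ t : Set ℕ, ∃ V : Set X3, t ∈ D → V ∈ K.f G ∧ V ∈ K.M (ξf t) ∧ G ⊆ V ∧ V ⊆ W t := by
    intro t
    by_cases ht : t ∈ D
    · obtain ⟨V, h1, h2, h3, h4⟩ := K.hf2 G (W t) (hGW t ht)
      exact ⟨V, fun _ => ⟨h1, K.hfM _ _ (hWM t ht) h2, h3, h4⟩⟩
    · exact ⟨∅, fun h => absurd h ht⟩
  choose g hg using hint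
  obtain ⟨V, hVG, hVp⟩ := tower_pigeonhole hinf hl hTp hDT hDp (K.hf G) g fun t ht => (hg t ht).1
  set D' := {t | t ∈ D ∧ g t = V} with hD'
  obtain ⟨t₀, ht₀, hgt₀⟩ : D'.Nonempty := by
    rw [Set.nonempty_iff_ne_empty]
    intro h
    rw [h] at hVp
    exact hVp ⟨Set.univ, Set.infinite_univ, fun a ha => absurd ha (Set.notMem_empty a)⟩
  have hVM : V ∈ K.M (ξf t₀) := hgt₀ ▸ (hg t₀ ht₀).2.1
  have hGV : G ⊆ V := hgt₀ ▸ (hg t₀ ht₀).2.2.1
  refine ⟨ξf t₀, hξfI t₀, Y', x, D', fun t ht => hDT ht.1, hVp, ⟨B', fun b =>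
    (hB'S b).mono_I (Set.Iio_subset_Iio (le_max_right _ _)), ?_⟩, ?_⟩
  · rintro c (hc | hc)
    · exact Set.mem_iUnion.2 ⟨true, hc⟩
    · exact Set.mem_iUnion.2 ⟨false, hc⟩
  · rintro t ⟨ht, hgt⟩ b
    have hVW : V ⊆ W t := hgt ▸ (hg t ht).2.2.2
    set Z : Set ℕ := {c | c ∉ Y' ∧ ∃ v w, (c, v, w) ∈ V ∧ ¬ (v ∈ t ∧ c < v)} with hZ
    have hZM : cylC Z ∈ K.M (ξf t₀) := by
      have h1 : cylC Z = (cylC Y')ᶜ ∩ exV (exW (V ∩ (hatT t)ᶜ)) := by
        ext ⟨c, v, w⟩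
        simp only [cylC, hZ, Set.mem_ofPred_eq, exV, exW, Set.mem_inter_iff, Set.mem_compl_iff,
          hatT]
      rw [h1]
      exact K.inter _ _ (K.compl _ _ (hcylY' t₀)) _ (K.hexV _ _ (K.hexW _ _ (K.inter _ _ hVM _
        (K.compl _ _ (K.hT _ t (hDT ht))))))
    have hZC : ∀ b, Z ⊆ C t b := by
      rintro b c ⟨hc, v, w, hVm, hn⟩
      rcases (hVW hVm).2 with h1 | h1
      · exact absurd h1 hn
      · cases b
        · exact h1.2
        · exact h1.1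
    have hZS : K.Small b (Set.Iio (ξf t₀) ∩ Set.Iio (st t)) Z :=
      (((hC t b ht).2.1).mono (hZC b)).reflect hZM
    refine (hZS.mono_I Set.inter_subset_left).mono ?_
    rintro c ⟨hc, hn⟩
    exact ⟨hc, x c, 0, hGV ⟨hc, rfl⟩, hn⟩

/-- Covers at a successor stage. -/
theorem Small.exists_succ {b : Bool} {ξ : Λ} {Z : Set ℕ} (h : K.Small b (Set.Iic ξ) Z) :
    ∃ (B : Set ℕ) (s : ℕ → Set ℕ), Z ⊆ B ∪ {c | K.z ξ c ∈ s c} ∧ K.Small b (Set.Iio ξ) B ∧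
      cylC B ∈ K.M ξ ∧ (∀ c, s c ∈ K.Id ξ) ∧ hatS s ∈ K.M ξ ∧ (b ≠ K.col ξ → ∀ c, s c = ∅) := by
  classical
  obtain ⟨F, h1, h2⟩ := h
  obtain ⟨n, hn⟩ := h2.bddAbove
  set F' := F.filter fun q => q.1 ≠ ξ with hF'
  set G := (F.filter fun q => q.1 = ξ).image Prod.snd with hG
  have hGS : ∀ s ∈ G, s ∈ K.S ξ := by
    intro s hs
    obtain ⟨q, hq, rfl⟩ := Finset.mem_image.1 hs
    obtain ⟨hq1, hq2⟩ := Finset.mem_filter.1 hq
    rw [← hq2]
    exact (h1 q hq1).2.2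
  have hF'lt : ∀ q ∈ F', q.1 < ξ := fun q hq =>
    lt_of_le_of_ne (h1 q (Finset.mem_filter.1 hq).1).1 (Finset.mem_filter.1 hq).2
  refine ⟨(⋃ q ∈ F', K.ev q) ∪ Set.Iio (n + 1), fun c => ⋃ s ∈ G, s c, ?_, ?_, ?_, ?_, ?_, ?_⟩
  · intro c hc
    by_cases hcF : c ∈ ⋃ q ∈ F, K.ev q
    · obtain ⟨q, hq, hqc⟩ := Set.mem_iUnion₂.1 hcF
      by_cases hqξ : q.1 = ξ
      · right
        refine Set.mem_iUnion₂.2 ⟨q.2, Finset.mem_image.2 ⟨q, Finset.mem_filter.2 ⟨hq, hqξ⟩,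
          rfl⟩, ?_⟩
        have h5 : K.z q.1 c ∈ q.2 c := hqc
        rw [hqξ] at h5
        exact h5
      · exact Or.inl (Or.inl (Set.mem_iUnion₂.2 ⟨q, Finset.mem_filter.2 ⟨hq, hqξ⟩, hqc⟩))
    · exact Or.inl (Or.inr (Nat.lt_succ_of_le (hn ⟨hc, hcF⟩)))
  · refine ⟨F', fun q hq => ⟨hF'lt q hq, (h1 q (Finset.mem_filter.1 hq).1).2⟩,
      (Set.finite_Iio (n + 1)).subset ?_⟩
    rintro x ⟨hx | hx, hx'⟩
    · exact absurd hx hx'
    · exact hx
  · have h3 : cylC ((⋃ q ∈ F', K.ev q) ∪ Set.Iio (n + 1)) =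
        (⋃ q ∈ F', cylC (K.ev q)) ∪ cylC (Set.Iio (n + 1)) := by
      ext p
      simp [cylC]
    rw [h3]
    exact K.union' ξ (K.biUnion_mem ξ F' _ fun q hq =>
      K.hA ξ q.1 (hF'lt q hq) q.2 (h1 q (Finset.mem_filter.1 hq).1).2.2) (K.hfin ξ _)
  · exact fun c => fin_union_mem G hGS c
  · have h3 : hatS (fun c => ⋃ s ∈ G, s c) = ⋃ s ∈ G, hatS s := by
      ext p
      simp [hatS]
    rw [h3]
    exact K.biUnion_mem ξ G _ fun s hs => K.hs ξ s (hGS s hs)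
  · intro hb c
    have hGe : G = ∅ := by
      rw [Finset.eq_empty_iff_forall_notMem]
      intro s hs
      obtain ⟨q, hq, rfl⟩ := Finset.mem_image.1 hs
      obtain ⟨hq1, hq2⟩ := Finset.mem_filter.1 hq
      have h4 := (h1 q hq1).2.1
      rw [hq2] at h4
      exact hb h4.symm
    rw [hGe]
    simp

/-- The successor step. -/
theorem viol_succ (hinf : ∀ a ∈ T, a.Infinite) (hl : Linear T) (hTp : ¬ HasPseudo T) {ξ : Λ}
    (h : K.Viol (Set.Iic ξ)) : K.Viol (Set.Iio ξ) := by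
  classical
  obtain ⟨Y, x, D, hDT, hDp, ⟨B, hB, hYB⟩, hx⟩ := h
  have hDne : ∀ {E : Set (Set ℕ)}, ¬ HasPseudo E → E.Nonempty := by
    intro E hE
    rw [Set.nonempty_iff_ne_empty]
    rintro rfl
    exact hE ⟨Set.univ, Set.infinite_univ, fun a ha => absurd ha (Set.notMem_empty a)⟩
  choose B₁ s₁ hB1 hB2 hB3 hB4 hB5 hB6 using fun b => (hB b).exists_succ
  set b₀ := K.col ξ with hb₀
  set s := s₁ b₀ with hs
  set E : Set ℕ := B₁ true ∪ B₁ false with hE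
  have hEM : cylC E ∈ K.M ξ := K.union' ξ (hB3 true) (hB3 false)
  have hnb : (!b₀) ≠ b₀ := by cases b₀ <;> decide
  have hYE : ∀ c ∈ Y, c ∈ E ∨ K.z ξ c ∈ s c := by
    intro c hc
    obtain ⟨b, hb⟩ := Set.mem_iUnion.1 (hYB hc)
    rcases hB1 b hb with h1 | h1
    · left
      cases b
      · exact Or.inr h1
      · exact Or.inl h1
    · by_cases hbb : b = b₀
      · right
        rw [hs, ← hbb]
        exact h1
      · have h2 : K.z ξ c ∈ s₁ b c := h1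
        rw [hB6 b hbb c] at h2
        exact absurd h2 (Set.notMem_empty _)
  -- covers for `t`
  have hC1 : ∀ (t : Set ℕ) (b : Bool), ∃ (C : Set ℕ) (r : ℕ → Set ℕ), t ∈ D →
      ({c | c ∉ Y ∧ ¬ (x c ∈ t ∧ c < x c)} ⊆ C ∪ {c | K.z ξ c ∈ r c} ∧
      K.Small b (Set.Iio ξ) C ∧ cylC C ∈ K.M ξ ∧ (∀ c, r c ∈ K.Id ξ) ∧ hatS r ∈ K.M ξ ∧
      (b ≠ b₀ → ∀ c, r c = ∅)) := by
    intro t b
    by_cases ht : t ∈ D
    · obtain ⟨C, r, h1⟩ := (hx t ht b).exists_succ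
      exact ⟨C, r, fun _ => h1⟩
    · exact ⟨∅, fun _ => ∅, fun h => absurd h ht⟩
  choose C r hC using hC1
  set G : Set X3 := {p | (p.1 ∉ E ∧ K.z ξ p.1 ∉ s p.1) ∧ p.2.1 = x p.1 ∧ p.2.2 = K.z ξ p.1} with hG
  let W : Set ℕ → Set X3 := fun t => (cylC E)ᶜ ∩ ((hatS s)ᶜ ∩ (hatT t ∪
    ((cylC (C t b₀) ∪ hatS (r t b₀)) ∩ cylC (C t (!b₀)))))
  have hGW : ∀ t ∈ D, G ⊆ W t := by
    rintro t ht ⟨c, v, w⟩ ⟨⟨hc1, hc2⟩, hv, hw⟩
    have hv' : v = x c := hv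
    have hw' : w = K.z ξ c := hw
    subst hv' hw'
    refine ⟨hc1, hc2, ?_⟩
    by_cases h1 : x c ∈ t ∧ c < x c
    · exact Or.inl h1
    · have h2 : c ∈ {c | c ∉ Y ∧ ¬ (x c ∈ t ∧ c < x c)} :=
        ⟨fun h => (hYE c h).elim hc1 hc2, h1⟩
      refine Or.inr ⟨(hC t b₀ ht).1 h2, ?_⟩
      rcases (hC t (!b₀) ht).1 h2 with h3 | h3
      · exact h3
      · have h4 : K.z ξ c ∈ r t (!b₀) c := h3
        rw [(hC t (!b₀) ht).2.2.2.2.2 hnb c] at h4
        exact absurd h4 (Set.notMem_empty _)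
  have hWM : ∀ t ∈ D, W t ∈ K.M ξ := by
    intro t ht
    obtain ⟨-, -, h3, -, h5, -⟩ := hC t b₀ ht
    obtain ⟨-, -, k3, -, -, -⟩ := hC t (!b₀) ht
    exact K.inter _ _ (K.compl _ _ hEM) _ (K.inter _ _ (K.compl _ _ (hB5 b₀)) _ (K.union' _
      (K.hT _ t (hDT ht)) (K.inter _ _ (K.union' _ h3 h5) _ k3)))
  have hint : ∀ t : Set ℕ, ∃ V : Set X3, t ∈ D → V ∈ K.f G ∧ V ∈ K.M ξ ∧ G ⊆ V ∧ V ⊆ W t := by
    intro t
    by_cases ht : t ∈ D
    · obtain ⟨V, h1, h2, h3, h4⟩ := K.hf2 G (W t) (hGW t ht)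
      exact ⟨V, fun _ => ⟨h1, K.hfM _ _ (hWM t ht) h2, h3, h4⟩⟩
    · exact ⟨∅, fun h => absurd h ht⟩
  choose g hg using hint
  obtain ⟨V, hVG, hVp⟩ := tower_pigeonhole hinf hl hTp hDT hDp (K.hf G) g fun t ht => (hg t ht).1
  set D' := {t | t ∈ D ∧ g t = V} with hD'
  obtain ⟨t₀, ht₀, hgt₀⟩ : D'.Nonempty := hDne hVp
  have hVM : V ∈ K.M ξ := hgt₀ ▸ (hg t₀ ht₀).2.1
  have hGV : G ⊆ V := hgt₀ ▸ (hg t₀ ht₀).2.2.1
  have hVW : ∀ t ∈ D', V ⊆ W t := fun t ht => ht.2 ▸ (hg t ht.1).2.2.2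
  -- genericity
  have hPfin : {c | ∃ v w, (c, v, w) ∈ (cylC E)ᶜ ∩ ((hatS s)ᶜ ∩ (exV V)ᶜ)}.Finite := by
    by_contra hne
    obtain ⟨c, v, h1, h2, h3⟩ := K.gen ξ _ (K.inter _ _ (K.compl _ _ hEM) _ (K.inter _ _
      (K.compl _ _ (hB5 b₀)) _ (K.compl _ _ (K.hexV _ _ hVM)))) hne
    exact h3 ⟨x c, hGV ⟨⟨h1, h2⟩, rfl, rfl⟩⟩
  obtain ⟨n₀, hn₀⟩ := hPfin.bddAbove
  have hF : ∀ c w, ∃ v, n₀ < c → c ∉ E → w ∉ s c → (c, v, w) ∈ V := by
    intro c w
    by_cases h1 : n₀ < c ∧ c ∉ E ∧ w ∉ s c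
    · have h2 : ∃ v, (c, v, w) ∈ V := by
        by_contra hne
        have h3 : c ≤ n₀ := hn₀ ⟨0, w, h1.2.1, h1.2.2, hne⟩
        omega
      obtain ⟨v, hv⟩ := h2
      exact ⟨v, fun _ _ _ => hv⟩
    · exact ⟨0, fun h2 h3 h4 => absurd ⟨h2, h3, h4⟩ h1⟩
  choose φ hφ using hF
  let R : ℕ → Set ℕ := fun c => φ c '' (s c)ᶜ
  set Cinf : Set ℕ := {c | (n₀ < c ∧ c ∉ E) ∧ (R c).Infinite} with hCinf
  -- the infinite part is small
  have hCinfS : K.Small (!b₀) (Set.Iio ξ) Cinf := by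
    have h1 : ∀ c : ℕ, ∃ e ∈ T, c ∈ Cinf → ¬ (R c \ e).Finite := by
      intro c
      by_cases hc : c ∈ Cinf
      · by_contra hne
        push Not at hne
        refine hTp ⟨R c, hc.2, fun e he => ?_⟩
        exact (hne e he).2
      · exact ⟨t₀, hDT ht₀, fun h => absurd h hc⟩
    choose e heT he using h1
    obtain ⟨a, haT, ha⟩ := exists_le_of_tower hinf hl hTp e heT
    obtain ⟨t, ht, hat⟩ : ∃ t ∈ D', ¬ (a \ t).Finite := by
      by_contra hne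
      push Not at hne
      exact hVp ⟨a, hinf a haT, hne⟩
    have hta : (t \ a).Finite := (hl t (hDT ht.1) a haT).resolve_right hat
    refine ((hC t (!b₀) ht.1).2.1).mono fun c hc => ?_
    have h2 : ¬ (R c \ t).Finite := by
      intro hfin
      refine he c hc ((hfin.union (sdiff_trans hta (ha c))).subset fun v hv => ?_)
      by_cases hvt : v ∈ t
      · exact Or.inr ⟨hvt, hv.2⟩
      · exact Or.inl ⟨hv.1, hvt⟩
    obtain ⟨v, ⟨w, hw, rfl⟩, hvt⟩ := Set.Infinite.nonempty h2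
    have h3 := hVW t ht (hφ c w hc.1.1 hc.1.2 hw)
    rcases h3.2.2 with h4 | h4
    · exact absurd h4.1 hvt
    · exact h4.2
  -- the values on the finite part
  have hv : ∀ c, ∃ v, (n₀ < c ∧ c ∉ E) → ¬ (R c).Infinite →
      {w | w ∉ s c ∧ φ c w = v} ∉ K.Id ξ := by
    intro c
    by_contra hne
    push Not at hne
    have hfin : (R c).Finite := (hne 0).2.1
    obtain ⟨w, hw⟩ := exists_notMem_of_finite (I := K.Id ξ)
      (A := insert (s c) ((fun v => {w | w ∉ s c ∧ φ c w = v}) '' R c))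
      ((hfin.image _).insert _) (by
        rintro a (rfl | ⟨v, _, rfl⟩)
        · exact hB4 b₀ c
        · exact (hne v).2.2)
    have h1 : w ∉ s c := hw _ (Set.mem_insert _ _)
    exact hw _ (Set.mem_insert_of_mem _ ⟨φ c w, ⟨w, h1, rfl⟩, rfl⟩) ⟨h1, rfl⟩
  choose x' hx' using hv
  refine ⟨E ∪ (Set.Iic n₀ ∪ Cinf), x', D', fun t ht => hDT ht.1, hVp,
    ⟨fun b => B₁ b ∪ (Set.Iic n₀ ∪ (if b = !b₀ then Cinf else ∅)), fun b => ?_, ?_⟩, ?_⟩
  · refine (hB2 b).union ((small_finite (Set.finite_Iic n₀)).union ?_)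
    by_cases hb : b = !b₀
    · rw [if_pos hb, hb]
      exact hCinfS
    · rw [if_neg hb]
      exact small_finite Set.finite_empty
  · rintro c ((hc | hc) | (hc | hc))
    · exact Set.mem_iUnion.2 ⟨true, Or.inl hc⟩
    · exact Set.mem_iUnion.2 ⟨false, Or.inl hc⟩
    · exact Set.mem_iUnion.2 ⟨true, Or.inr (Or.inl hc)⟩
    · refine Set.mem_iUnion.2 ⟨!b₀, Or.inr (Or.inr ?_)⟩
      rw [if_pos rfl]
      exact hc
  · rintro t ht b
    have hsub : ∀ b, {c | c ∉ E ∪ (Set.Iic n₀ ∪ Cinf) ∧ ¬ (x' c ∈ t ∧ c < x' c)} ⊆ C t b := by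
      rintro b c ⟨hc, hn⟩
      have hc1 : n₀ < c ∧ c ∉ E := by
        refine ⟨?_, fun h => hc (Or.inl h)⟩
        by_contra h
        exact hc (Or.inr (Or.inl (not_lt.1 h)))
      have hc2 : ¬ (R c).Infinite := fun h => hc (Or.inr (Or.inr ⟨hc1, h⟩))
      have h1 := hx' c hc1 hc2
      have key : ∀ w, w ∉ s c → φ c w = x' c →
          (c ∈ C t b₀ ∨ w ∈ r t b₀ c) ∧ c ∈ C t (!b₀) := by
        intro w hw hφw
        have h2 := hVW t ht (hφ c w hc1.1 hc1.2 hw)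
        rw [hφw] at h2
        rcases h2.2.2 with h4 | h4
        · exact absurd h4 hn
        · exact h4
      have h3 : ∃ w, (w ∉ s c ∧ φ c w = x' c) ∧ w ∉ r t b₀ c := by
        by_contra hne
        push Not at hne
        exact h1 ((K.Id ξ).subset_mem _ ((hC t b₀ ht.1).2.2.2.1 c) _ fun w hw => hne w hw)
      obtain ⟨w, ⟨hw1, hw2⟩, hw3⟩ := h3
      obtain ⟨h4, h5⟩ := key w hw1 hw2
      by_cases hb : b = b₀
      · rw [hb]
        exact h4.resolve_right hw3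
      · have : b = !b₀ := by
          cases b <;> cases h : b₀ <;> simp_all
        rw [this]
        exact h5
    exact ((hC t b ht.1).2.1).mono (hsub b)

/-- There is no violation. -/
theorem not_viol [WellFoundedLT Λ] (hinf : ∀ a ∈ T, a.Infinite) (hl : Linear T)
    (hTp : ¬ HasPseudo T) : ¬ K.Viol Set.univ := by
  classical
  have key : ∀ I : Set Λ, (∀ ξ ∈ I, Set.Iio ξ ⊆ I) → (∀ ξ ∈ I, ¬ K.Viol (Set.Iio ξ)) →
      ¬ K.Viol I := by
    intro I hlow hI hv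
    by_cases hne : I.Nonempty
    · by_cases hmax : ∀ ξ ∈ I, ∃ η ∈ I, ξ < η
      · obtain ⟨ξ, hξ, h⟩ := viol_limit hinf hl hTp hne hmax hv
        exact hI ξ hξ h
      · push Not at hmax
        obtain ⟨ξ, hξ, hmax⟩ := hmax
        have hIe : I = Set.Iic ξ := by
          ext η
          constructor
          · intro hη
            exact hmax η hη
          · intro hη
            rcases (show η ≤ ξ from hη).lt_or_eq with h | h
            · exact hlow ξ hξ h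
            · rw [h]
              exact hξ
        rw [hIe] at hv
        exact hI ξ hξ (viol_succ hinf hl hTp hv)
    · rw [Set.not_nonempty_iff_eq_empty] at hne
      rw [hne] at hv
      exact not_viol_empty hv
  have hall : ∀ ξ : Λ, ¬ K.Viol (Set.Iio ξ) := by
    intro ξ
    induction ξ using WellFoundedLT.induction with
    | _ ξ ih =>
      exact key _ (fun η hη => Set.Iio_subset_Iio (le_of_lt hη)) ih
  exact key _ (fun _ _ => Set.subset_univ _) fun ξ _ => hall ξ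

end Sys

end Pool.Agent.H36.Slalom
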